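import Mathlib

/-!
# Alternative algebras: the derivations `D_{p,q}` and the identities behind the
Allison–Benkart–Gao Lie algebra
-/

namespace Pool.Agent.K7.H90.ABG

/-- An alternative (nonunital, nonassociative) ring. -/
def IsAlt (A : Type*) [NonUnitalNonAssocRing A] : Prop :=
  (∀ p q : A, (p * p) * q = p * (p * q)) ∧ (∀ p q : A, (q * p) * p = q * (p * p))

section Identities

variable {A : Type*} [NonUnitalNonAssocRing A]

/-- `D_{p,q}(r)` where `D_{p,q} = [L_p,L_q] + [R_p,R_q] + [L_p,R_q]`. -/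
def dd (p q r : A) : A :=
  (p * (q * r) - q * (p * r)) + ((r * q) * p - (r * p) * q) + (p * (r * q) - (p * r) * q)

theorem IsAlt.hl (h : IsAlt A) (a b c : A) :
    (a * b) * c + (b * a) * c - a * (b * c) - b * (a * c) = 0 := by
  have h1 := h.1 (a + b) c
  have h2 := h.1 a c
  have h3 := h.1 b c
  simp only [mul_add, add_mul] at h1
  rw [h2, h3] at h1
  linear_combination (norm := abel) h1

theorem IsAlt.hr (h : IsAlt A) (a b c : A) :
    (c * a) * b + (c * b) * a - c * (a * b) - c * (b * a) = 0 := by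
  have h1 := h.2 (a + b) c
  have h2 := h.2 a c
  have h3 := h.2 b c
  simp only [mul_add, add_mul] at h1
  rw [h2, h3] at h1
  linear_combination (norm := abel) h1

theorem IsAlt.hlR (h : IsAlt A) (a b c d : A) :
    ((a * b) * c) * d + ((b * a) * c) * d - (a * (b * c)) * d - (b * (a * c)) * d = 0 := by
  have h1 := congrArg (· * d) (h.hl a b c)
  simpa only [sub_mul, add_mul, zero_mul] using h1

theorem IsAlt.hlL (h : IsAlt A) (a b c d : A) :
    d * ((a * b) * c) + d * ((b * a) * c) - d * (a * (b * c)) - d * (b * (a * c)) = 0 := by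
  have h1 := congrArg (d * ·) (h.hl a b c)
  simpa only [mul_sub, mul_add, mul_zero] using h1

theorem IsAlt.hrR (h : IsAlt A) (a b c d : A) :
    ((c * a) * b) * d + ((c * b) * a) * d - (c * (a * b)) * d - (c * (b * a)) * d = 0 := by
  have h1 := congrArg (· * d) (h.hr a b c)
  simpa only [sub_mul, add_mul, zero_mul] using h1

theorem IsAlt.hrL (h : IsAlt A) (a b c d : A) :
    d * ((c * a) * b) + d * ((c * b) * a) - d * (c * (a * b)) - d * (c * (b * a)) = 0 := by
  have h1 := congrArg (d * ·) (h.hr a b c)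
  simpa only [mul_sub, mul_add, mul_zero] using h1

/-- `D_{p,q}` is a derivation. -/
theorem dd_mul (h : IsAlt A) (p q r s : A) :
    dd p q (r * s) = dd p q r * s + r * dd p q s := by
  simp only [dd, mul_add, add_mul, mul_sub, sub_mul]
  linear_combination (norm := abel) (1 : ℤ) • h.hl (p*r) q s + (-1 : ℤ) • h.hl (q*r) p s
    + (-1 : ℤ) • h.hl (r*q) p s + (-1 : ℤ) • h.hl (r*s) p q + (-1 : ℤ) • h.hl (r*s) q p
    + (1 : ℤ) • h.hl p r (q*s) + (1 : ℤ) • h.hl q r (s*p) + (1 : ℤ) • h.hlL p r s q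
    + (-1 : ℤ) • h.hlL q r s p + (-1 : ℤ) • h.hlR q r s p + (-1 : ℤ) • h.hr (p*s) q r
    + (-1 : ℤ) • h.hr (s*p) q r + (1 : ℤ) • h.hr (s*q) p r + (1 : ℤ) • h.hr p q (r*s)
    + (1 : ℤ) • h.hr p s (q*r) + (1 : ℤ) • h.hr q s (r*p) + (-1 : ℤ) • h.hrL p s r q
    + (-1 : ℤ) • h.hrR p s r q + (1 : ℤ) • h.hrR q s r p

/-- `D_{pq,r} + D_{qr,p} + D_{rp,q} = 0`. -/
theorem dd_cyc (h : IsAlt A) (p q r s : A) :
    dd (p * q) r s + dd (q * r) p s + dd (r * p) q s = 0 := by
  simp only [dd]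
  linear_combination (norm := abel) (-1 : ℤ) • h.hl (s*p) q r + (-1 : ℤ) • h.hl (s*q) r p
    + (-1 : ℤ) • h.hl (s*r) p q + (1 : ℤ) • h.hl p q (r*s) + (1 : ℤ) • h.hl p r (q*s)
    + (1 : ℤ) • h.hl q r (p*s) + (1 : ℤ) • h.hlR p s q r + (1 : ℤ) • h.hlR q s r p
    + (1 : ℤ) • h.hlR r s p q + (-1 : ℤ) • h.hr (p*s) q r + (-1 : ℤ) • h.hr (q*s) r p
    + (-1 : ℤ) • h.hr (r*s) p q + (1 : ℤ) • h.hr (s*p) r q + (1 : ℤ) • h.hr (s*q) p r
    + (1 : ℤ) • h.hr (s*r) q p + (-1 : ℤ) • h.hrL p s r q + (-1 : ℤ) • h.hrL q s p r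
    + (-1 : ℤ) • h.hrL r s q p + (-1 : ℤ) • h.hrR p s r q + (-1 : ℤ) • h.hrR q s p r
    + (-1 : ℤ) • h.hrR r s q p

theorem dd_self (h : IsAlt A) (p r : A) : dd p p r = 0 := by
  have h2 := h.hl p r p
  have h3 := h.2 p r
  simp only [dd]
  linear_combination (norm := abel) (-1 : ℤ) • h2 + h3

theorem dd_swap (p q r : A) : dd p q r = - dd q p r + (p * (r * q) - (p * r) * q)
    + (q * (r * p) - (q * r) * p) := by
  simp only [dd]; abel

end Identities

section Wedge

variable {k A N : Type*} [Field k] [NonUnitalNonAssocRing A] [Module k A]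
  [AddCommGroup N] [Module k N]

/-- A bilinear map is *cyclic alternating* if it kills `p ∧ p` and
`pq ∧ r + qr ∧ p + rp ∧ q`. -/
structure CycAlt (w : A →ₗ[k] A →ₗ[k] N) : Prop where
  self : ∀ p, w p p = 0
  cyc : ∀ p q r, w (p * q) r + w (q * r) p + w (r * p) q = 0

theorem CycAlt.swap {w : A →ₗ[k] A →ₗ[k] N} (hw : CycAlt w) (p q : A) : w p q = - w q p := by
  have h := hw.self (p + q)
  simp only [map_add, LinearMap.add_apply, hw.self, add_zero, zero_add] at h
  linear_combination (norm := abel) h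

theorem CycAlt.skew (h : IsAlt A) {w : A →ₗ[k] A →ₗ[k] N} (hw : CycAlt w) (p q r s : A) :
    w (dd p q r) s + w r (dd p q s) + (w (dd r s p) q + w p (dd r s q)) = 0 := by
  have hlW : ∀ a b c d : A, w ((a * b) * c) d + w ((b * a) * c) d - w (a * (b * c)) d
      - w (b * (a * c)) d = 0 := by
    intro a b c d
    have h1 := congrArg (fun x => w x d) (h.hl a b c)
    simpa only [map_sub, map_add, LinearMap.sub_apply, LinearMap.add_apply, map_zero,
      LinearMap.zero_apply] using h1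
  have hrW : ∀ a b c d : A, w ((c * a) * b) d + w ((c * b) * a) d - w (c * (a * b)) d
      - w (c * (b * a)) d = 0 := by
    intro a b c d
    have h1 := congrArg (fun x => w x d) (h.hr a b c)
    simpa only [map_sub, map_add, LinearMap.sub_apply, LinearMap.add_apply, map_zero,
      LinearMap.zero_apply] using h1
  rw [hw.swap r (dd p q s), hw.swap p (dd r s q)]
  simp only [dd, map_sub, map_add, LinearMap.sub_apply, LinearMap.add_apply]
  have hsw : ∀ a b : A, w a b + w b a = 0 := fun a b => by rw [hw.swap a b]; abel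
  linear_combination (norm := abel) (1 : ℤ) • hw.cyc (p*q) r s + (-1 : ℤ) • hw.cyc (p*r) s q
    + (1 : ℤ) • hw.cyc (p*s) r q + (-1 : ℤ) • hw.cyc (q*s) r p + (-1 : ℤ) • hw.cyc (r*p) q s
    + (1 : ℤ) • hw.cyc (r*q) p s + (1 : ℤ) • hw.cyc (r*s) p q + (-1 : ℤ) • hw.cyc (s*q) p r
    + (1 : ℤ) • hlW p s q r + (1 : ℤ) • hlW q r s p + (-1 : ℤ) • hrW p s r q
    + (-1 : ℤ) • hrW q r p s - hsw (r * s) (p * q) + hsw (s * q) (p * r) - hsw (r * q) (p * s)
    + hsw (r * p) (q * s)

end Wedge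

end Pool.Agent.K7.H90.ABG
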