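import Pool.Agent.K7.H90.ABG.Alt

/-!
# The space `B(A)` and derivations
-/

namespace Pool.Agent.K7.H90.ABG

open TensorProduct

section BB

variable (k A : Type*) [Field k] [NonUnitalNonAssocRing A] [Module k A]

/-- The relations `p ∧ p` and `pq ∧ r + qr ∧ p + rp ∧ q`. -/
def relB : Submodule k (A ⊗[k] A) :=
  Submodule.span k ({t | ∃ p : A, t = p ⊗ₜ[k] p} ∪
    {t | ∃ p q r : A, t = (p * q) ⊗ₜ[k] r + (q * r) ⊗ₜ[k] p + (r * p) ⊗ₜ[k] q})

/-- `B(A) = Λ²(A) / span {pq ∧ r + qr ∧ p + rp ∧ q}`, realised as the quotient of `A ⊗ A` by all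
`p ⊗ p` and all `pq ⊗ r + qr ⊗ p + rp ⊗ q`. -/
def BB : Type _ := (A ⊗[k] A) ⧸ relB k A

noncomputable instance : AddCommGroup (BB k A) := inferInstanceAs (AddCommGroup ((A ⊗[k] A) ⧸ relB k A))
noncomputable instance : Module k (BB k A) := inferInstanceAs (Module k ((A ⊗[k] A) ⧸ relB k A))

/-- The projection `A ⊗ A → B(A)`. -/
noncomputable def BB.proj : A ⊗[k] A →ₗ[k] BB k A := (relB k A).mkQ

/-- The class `p ∧ q` in `B(A)`. -/
noncomputable def wd : A →ₗ[k] A →ₗ[k] BB k A := (TensorProduct.mk k A A).compr₂ (BB.proj k A)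

variable {k A}

theorem wd_cycAlt : CycAlt (wd k A) where
  self p := by
    change (relB k A).mkQ (p ⊗ₜ p) = 0
    rw [Submodule.mkQ_apply, Submodule.Quotient.mk_eq_zero]
    exact Submodule.subset_span (Or.inl ⟨p, rfl⟩)
  cyc p q r := by
    change (relB k A).mkQ ((p * q) ⊗ₜ r) + (relB k A).mkQ ((q * r) ⊗ₜ p)
      + (relB k A).mkQ ((r * p) ⊗ₜ q) = 0
    rw [← map_add, ← map_add, Submodule.mkQ_apply, Submodule.Quotient.mk_eq_zero]
    exact Submodule.subset_span (Or.inr ⟨p, q, r, rfl⟩)

variable {N : Type*} [AddCommGroup N] [Module k N]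

/-- The universal property of `B(A)`. -/
noncomputable def BB.lift (w : A →ₗ[k] A →ₗ[k] N) (hw : CycAlt w) : BB k A →ₗ[k] N :=
  (relB k A).liftQ (TensorProduct.lift w) (by
    apply Submodule.span_le.2
    rintro t (⟨p, rfl⟩ | ⟨p, q, r, rfl⟩)
    · simp [hw.self]
    · simp [hw.cyc])

@[simp] theorem BB.lift_wd (w : A →ₗ[k] A →ₗ[k] N) (hw : CycAlt w) (p q : A) :
    BB.lift w hw (wd k A p q) = w p q := rfl

theorem BB.span_wd : Submodule.span k {b | ∃ p q : A, b = wd k A p q} = ⊤ := by
  rw [eq_top_iff]
  intro b _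
  obtain ⟨t, rfl⟩ : ∃ t, BB.proj k A t = b := Submodule.mkQ_surjective _ b
  induction t using TensorProduct.induction_on with
  | zero => rw [map_zero]; exact Submodule.zero_mem _
  | tmul p q => exact Submodule.subset_span ⟨p, q, rfl⟩
  | add x y hx hy => rw [map_add]; exact Submodule.add_mem _ (hx trivial) (hy trivial)

theorem BB.induction {P : BB k A → Prop} (h0 : P 0) (hw : ∀ p q, P (wd k A p q))
    (ha : ∀ x y, P x → P y → P (x + y)) (b : BB k A) : P b := by
  obtain ⟨t, rfl⟩ : ∃ t, BB.proj k A t = b := Submodule.mkQ_surjective _ b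
  induction t using TensorProduct.induction_on with
  | zero => rw [map_zero]; exact h0
  | tmul p q => exact hw p q
  | add x y hx hy => rw [map_add]; exact ha _ _ hx hy

theorem BB.ext {f g : BB k A →ₗ[k] N} (h : ∀ p q, f (wd k A p q) = g (wd k A p q)) : f = g := by
  apply LinearMap.ext
  intro b
  induction b using BB.induction with
  | h0 => simp
  | hw p q => exact h p q
  | ha x y hx hy => rw [map_add, map_add, hx, hy]

end BB

section Der

variable (k A : Type*) [Field k] [NonUnitalNonAssocRing A] [Module k A]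
  [IsScalarTower k A A] [SMulCommClass k A A]

/-- The space of derivations of `A`. -/
def Der : Submodule k (Module.End k A) where
  carrier := {T | ∀ x y, T (x * y) = T x * y + x * T y}
  add_mem' := by
    intro S T hS hT x y
    simp only [LinearMap.add_apply, hS x y, hT x y, add_mul, mul_add]; abel
  zero_mem' := by intro x y; simp
  smul_mem' := by
    intro c T hT x y
    simp only [LinearMap.smul_apply, hT x y, smul_add, smul_mul_assoc, mul_smul_comm]

variable {k A}

theorem Der.mul (T : Der k A) (x y : A) : T.1 (x * y) = T.1 x * y + x * T.1 y := T.2 x y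

theorem derB_cycAlt (T : Der k A) :
    CycAlt ((wd k A).comp T.1 + ((wd k A).compl₂ T.1)) where
  self p := by
    simp only [LinearMap.add_apply, LinearMap.comp_apply, LinearMap.compl₂_apply]
    rw [wd_cycAlt.swap p (T.1 p)]; abel
  cyc p q r := by
    simp only [LinearMap.add_apply, LinearMap.comp_apply, LinearMap.compl₂_apply, Der.mul T, map_add]
    linear_combination (norm := abel) wd_cycAlt.cyc (k := k) (T.1 p) q r
      + wd_cycAlt.cyc (k := k) p (T.1 q) r + wd_cycAlt.cyc (k := k) p q (T.1 r)

/-- The action of derivations on `B(A)`. -/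
noncomputable def derB : Der k A →ₗ[k] Module.End k (BB k A) where
  toFun T := BB.lift _ (derB_cycAlt T)
  map_add' S T := by
    apply BB.ext
    intro p q
    simp only [BB.lift_wd, LinearMap.add_apply, LinearMap.comp_apply, LinearMap.compl₂_apply,
      Submodule.coe_add, map_add]
    abel
  map_smul' c T := by
    apply BB.ext
    intro p q
    simp only [BB.lift_wd, LinearMap.add_apply, LinearMap.comp_apply, LinearMap.compl₂_apply,
      Submodule.coe_smul, LinearMap.smul_apply, map_smul, RingHom.id_apply, smul_add]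

@[simp] theorem derB_wd (T : Der k A) (p q : A) :
    derB T (wd k A p q) = wd k A (T.1 p) q + wd k A p (T.1 q) := rfl

/-- `D_{p,q}` as a bilinear map with values in derivations. -/
noncomputable def ddL (h : IsAlt A) : A →ₗ[k] A →ₗ[k] Der k A :=
  LinearMap.mk₂ k (fun p q =>
    ⟨{ toFun := fun r => dd p q r
       map_add' := by intro x y; simp only [dd, mul_add, add_mul]; abel
       map_smul' := by
         intro c x
         simp only [dd, mul_smul_comm, smul_mul_assoc, RingHom.id_apply, smul_sub, smul_add] },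
     fun x y => dd_mul h p q x y⟩)
    (by intro p p' q; apply Subtype.ext; apply LinearMap.ext; intro r
        simp [dd, mul_add, add_mul]; abel)
    (by intro c p q; apply Subtype.ext; apply LinearMap.ext; intro r
        simp [dd, mul_smul_comm, smul_mul_assoc, smul_sub, smul_add])
    (by intro p q q'; apply Subtype.ext; apply LinearMap.ext; intro r
        simp [dd, mul_add, add_mul]; abel)
    (by intro c p q; apply Subtype.ext; apply LinearMap.ext; intro r
        simp [dd, mul_smul_comm, smul_mul_assoc, smul_sub, smul_add])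

@[simp] theorem ddL_apply (h : IsAlt A) (p q r : A) : (ddL (k := k) h p q).1 r = dd p q r := rfl

theorem ddL_cycAlt (h : IsAlt A) : CycAlt (ddL (k := k) h) where
  self p := by apply Subtype.ext; apply LinearMap.ext; intro r; exact dd_self h p r
  cyc p q r := by apply Subtype.ext; apply LinearMap.ext; intro s; exact dd_cyc h p q r s

/-- The map `B(A) → Der(A)`, `p ∧ q ↦ D_{p,q}`. -/
noncomputable def DB (h : IsAlt A) : BB k A →ₗ[k] Der k A := BB.lift _ (ddL_cycAlt h)

@[simp] theorem DB_wd (h : IsAlt A) (p q : A) : DB h (wd k A p q) = ddL h p q := rfl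

theorem DB_wd_apply (h : IsAlt A) (p q r : A) : (DB h (wd k A p q)).1 r = dd p q r := rfl

/-- Derivations intertwine: `[T, D_b] = D_{T b}`. -/
theorem DB_derB (h : IsAlt A) (T : Der k A) (b : BB k A) (r : A) :
    (DB h (derB T b)).1 r = T.1 ((DB h b).1 r) - (DB h b).1 (T.1 r) := by
  induction b using BB.induction with
  | h0 => simp
  | hw p q =>
    rw [derB_wd, map_add]
    simp only [DB_wd, Submodule.coe_add, LinearMap.add_apply, ddL_apply, dd, map_sub, map_add,
      Der.mul T, mul_add, add_mul]
    abel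
  | ha x y hx hy =>
    simp only [map_add, Submodule.coe_add, LinearMap.add_apply, hx, hy]
    abel

end Der

end Pool.Agent.K7.H90.ABG
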