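import Mathlib

/-!
# The Chevalley–Eilenberg differential on the exterior algebra of a Lie algebra
-/

namespace Pool.Agent.K7.H90.ABG

set_option linter.unusedSectionVars false
set_option linter.unusedSimpArgs false

section Der

variable {k M : Type*} [Field k] [AddCommGroup M] [Module k M]


theorem ext_ind {P : ExteriorAlgebra k M → Prop} (h0 : ∀ r, P (algebraMap k _ r))
    (ha : ∀ x y, P x → P y → P (x + y)) (hm : ∀ x m, P x → P (ExteriorAlgebra.ι k m * x))
    (x : ExteriorAlgebra k M) : P x :=
  CliffordAlgebra.left_induction (Q := (0 : QuadraticForm k M)) h0 ha hm x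

/-- Auxiliary algebra map `m ↦ m + ε T m`. -/
noncomputable def derHom (T : Module.End k M) :
    ExteriorAlgebra k M →ₐ[k] TrivSqZeroExt (ExteriorAlgebra k M) (ExteriorAlgebra k M) :=
  ExteriorAlgebra.lift k
    ⟨{ toFun := fun m => TrivSqZeroExt.inl (ExteriorAlgebra.ι k m)
          + TrivSqZeroExt.inr (ExteriorAlgebra.ι k (T m))
       map_add' := by intro x y; simp only [map_add, TrivSqZeroExt.inl_add, TrivSqZeroExt.inr_add]; abel
       map_smul' := by
         intro c x
         simp only [map_smul, TrivSqZeroExt.inl_smul, TrivSqZeroExt.inr_smul, RingHom.id_apply,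
           smul_add] }, by
      intro m
      apply TrivSqZeroExt.ext
      · simp
      · simp [TrivSqZeroExt.snd_mul, ExteriorAlgebra.ι_add_mul_swap]⟩

theorem fst_derHom (T : Module.End k M) (x : ExteriorAlgebra k M) : (derHom T x).fst = x := by
  have h : (TrivSqZeroExt.fstHom k (ExteriorAlgebra k M) (ExteriorAlgebra k M)).comp (derHom T)
      = AlgHom.id k _ := by
    apply ExteriorAlgebra.hom_ext
    ext m
    simp [derHom]
  exact DFunLike.congr_fun h x

/-- The derivation of the exterior algebra extending a linear endomorphism. -/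
noncomputable def der (T : Module.End k M) : Module.End k (ExteriorAlgebra k M) where
  toFun x := (derHom T x).snd
  map_add' x y := by simp
  map_smul' c x := by simp

theorem der_mul (T : Module.End k M) (x y : ExteriorAlgebra k M) :
    der T (x * y) = der T x * y + x * der T y := by
  change (derHom T (x * y)).snd = (derHom T x).snd * y + x * (derHom T y).snd
  rw [map_mul, TrivSqZeroExt.snd_mul, fst_derHom, fst_derHom]
  simp [add_comm]

@[simp] theorem der_ι (T : Module.End k M) (m : M) :
    der T (ExteriorAlgebra.ι k m) = ExteriorAlgebra.ι k (T m) := by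
  change (derHom T (ExteriorAlgebra.ι k m)).snd = _
  simp [derHom]

@[simp] theorem der_algebraMap (T : Module.End k M) (r : k) :
    der T (algebraMap k _ r) = 0 := by
  change (derHom T (algebraMap k _ r)).snd = 0
  rw [AlgHom.commutes]
  rfl

@[simp] theorem der_one (T : Module.End k M) : der T (1 : ExteriorAlgebra k M) = 0 := by
  rw [← map_one (algebraMap k (ExteriorAlgebra k M)), der_algebraMap]

theorem der_ι_mul (T : Module.End k M) (m : M) (x : ExteriorAlgebra k M) :
    der T (ExteriorAlgebra.ι k m * x) = ExteriorAlgebra.ι k (T m) * x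
      + ExteriorAlgebra.ι k m * der T x := by
  rw [der_mul, der_ι]

theorem der_add (S T : Module.End k M) : der (S + T) = der S + der T := by
  apply LinearMap.ext
  intro x
  induction x using ext_ind with
  | h0 r => simp
  | ha x y hx hy => rw [map_add, map_add, hx, hy]
  | hm x m hx =>
    rw [LinearMap.add_apply, der_ι_mul, der_ι_mul, der_ι_mul, hx, LinearMap.add_apply,
      LinearMap.add_apply, map_add, mul_add, add_mul]
    abel

theorem der_smul (c : k) (T : Module.End k M) : der (c • T) = c • der T := by
  apply LinearMap.ext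
  intro x
  induction x using ext_ind with
  | h0 r => simp
  | ha x y hx hy => rw [map_add, map_add, hx, hy]
  | hm x m hx =>
    rw [LinearMap.smul_apply, der_ι_mul, der_ι_mul, hx, LinearMap.smul_apply,
      LinearMap.smul_apply, map_smul, smul_add, mul_smul_comm, smul_mul_assoc]

theorem der_comm (S T : Module.End k M) (x : ExteriorAlgebra k M) :
    der (S * T - T * S) x = der S (der T x) - der T (der S x) := by
  induction x using ext_ind with
  | h0 r => simp
  | ha x y hx hy => simp only [map_add, hx, hy]; abel
  | hm x m hx =>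
    simp only [der_ι_mul, map_add, hx, LinearMap.sub_apply, Module.End.mul_apply, map_sub]
    simp only [mul_sub, sub_mul, mul_add]
    abel

/-- `der` as a linear map. -/
noncomputable def derL : Module.End k M →ₗ[k] Module.End k (ExteriorAlgebra k M) where
  toFun := der
  map_add' := der_add
  map_smul' := der_smul

end Der

section CE

variable {k L : Type*} [Field k] [LieRing L] [LieAlgebra k L]

/-- The adjoint action on the exterior algebra. -/
noncomputable def theta (m : L) : Module.End k (ExteriorAlgebra k L) :=
  der (LieModule.toEnd k L L m)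

theorem theta_ι_mul (m n : L) (x : ExteriorAlgebra k L) :
    theta (k := k) m (ExteriorAlgebra.ι k n * x) = ExteriorAlgebra.ι k ⁅m, n⁆ * x
      + ExteriorAlgebra.ι k n * theta m x := der_ι_mul _ _ _

/-- The recursion datum for the Chevalley–Eilenberg differential. -/
noncomputable def bdF : L →ₗ[k] (ExteriorAlgebra k L × ExteriorAlgebra k L) →ₗ[k]
    ExteriorAlgebra k L :=
  LinearMap.mk₂ k (fun m p => theta m p.1 - ExteriorAlgebra.ι k m * p.2)
    (by intro m m' p
        simp only [theta, map_add, der_add, LinearMap.add_apply, add_mul]; abel)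
    (by intro c m p
        simp only [theta, map_smul, der_smul, LinearMap.smul_apply, smul_mul_assoc, smul_sub])
    (by intro m p p'
        simp only [Prod.fst_add, Prod.snd_add, map_add, mul_add]; abel)
    (by intro c m p
        simp only [Prod.smul_fst, Prod.smul_snd, map_smul, mul_smul_comm, smul_sub])

theorem bdF_apply (m : L) (x y : ExteriorAlgebra k L) :
    bdF (k := k) m (x, y) = theta m x - ExteriorAlgebra.ι k m * y := rfl

theorem bdF_cond (m : L) (x fx : ExteriorAlgebra k L) :
    bdF (k := k) m (ExteriorAlgebra.ι k m * x, bdF (k := k) m (x, fx)) =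
      (0 : QuadraticForm k L) m • fx := by
  rw [bdF_apply, bdF_apply, theta_ι_mul, lie_self, map_zero, zero_mul, mul_sub, ← mul_assoc,
    ExteriorAlgebra.ι_sq_zero]
  simp

/-- The Chevalley–Eilenberg differential, `∂(m ∧ x) = ad_m x - m ∧ ∂ x`. -/
noncomputable def bd : Module.End k (ExteriorAlgebra k L) :=
  CliffordAlgebra.foldr' (0 : QuadraticForm k L) bdF bdF_cond 0

theorem bd_ι_mul (m : L) (x : ExteriorAlgebra k L) :
    bd (ExteriorAlgebra.ι k m * x) = theta m x - ExteriorAlgebra.ι k m * bd x :=
  CliffordAlgebra.foldr'_ι_mul _ _ _ _ _ _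

@[simp] theorem bd_algebraMap (r : k) : bd (algebraMap k (ExteriorAlgebra k L) r) = 0 := by
  have := CliffordAlgebra.foldr'_algebraMap (0 : QuadraticForm k L) bdF bdF_cond
    (0 : ExteriorAlgebra k L) r
  rw [smul_zero] at this
  exact this

@[simp] theorem bd_one : bd (1 : ExteriorAlgebra k L) = 0 := by
  rw [← map_one (algebraMap k (ExteriorAlgebra k L)), bd_algebraMap]

@[simp] theorem bd_ι (m : L) : bd (ExteriorAlgebra.ι k m) = 0 := by
  have h := bd_ι_mul (k := k) m 1
  rw [mul_one, bd_one, mul_zero, sub_zero, theta, der_one] at h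
  exact h

/-- A derivation of the Lie algebra commutes with the differential. -/
theorem bd_der (T : Module.End k L) (hT : ∀ m n, T ⁅m, n⁆ = ⁅T m, n⁆ + ⁅m, T n⁆)
    (x : ExteriorAlgebra k L) : bd (der T x) = der T (bd x) := by
  induction x using ext_ind with
  | h0 r => simp
  | ha x y hx hy => simp only [map_add, hx, hy]
  | hm x m hx =>
    have h1 : der T (theta m x) - theta m (der T x) = theta (T m) x := by
      rw [theta, theta, ← der_comm]
      congr 1
      congr 1
      apply LinearMap.ext
      intro n
      simp only [LinearMap.sub_apply, Module.End.mul_apply, LieModule.toEnd_apply_apply, hT]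
      abel
    rw [der_ι_mul, map_add, bd_ι_mul, bd_ι_mul, bd_ι_mul, map_sub, der_ι_mul, hx, ← h1]
    abel

theorem bd_theta (m : L) (x : ExteriorAlgebra k L) : bd (theta m x) = theta m (bd x) :=
  bd_der _ (fun a b => by simp only [LieModule.toEnd_apply_apply]; exact leibniz_lie m a b) x

theorem bd_bd (x : ExteriorAlgebra k L) : bd (bd x) = 0 := by
  induction x using ext_ind with
  | h0 r => simp
  | ha x y hx hy => simp only [map_add, hx, hy, add_zero]
  | hm x m hx =>
    rw [bd_ι_mul, map_sub, bd_ι_mul, bd_theta, hx, mul_zero]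
    abel

theorem bd_ι_ι (m n : L) :
    bd (ExteriorAlgebra.ι k m * ExteriorAlgebra.ι k n) = ExteriorAlgebra.ι k ⁅m, n⁆ := by
  rw [bd_ι_mul, bd_ι, mul_zero, sub_zero, theta, der_ι, LieModule.toEnd_apply_apply]

end CE

end Pool.Agent.K7.H90.ABG
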