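import Mathlib

/-!
# Logarithmic derivative of a finite product of binomials
-/

namespace Pool.Agent.K7.H90.ABG

open PowerSeries

section

variable {R ι : Type*} [CommRing R] (d : ι → ℕ) (c : ι → R)

/-- The product `∏ (1 - c T^d)`. -/
noncomputable def PP (s : Finset ι) : PowerSeries R :=
  ∏ i ∈ s, (1 - monomial (d i) (c i))

/-- The coefficients of the logarithmic derivative. -/
noncomputable def CC (s : Finset ι) (m : ℕ) : R :=
  ∑ i ∈ s, if 1 ≤ m ∧ d i ∣ m then (d i : R) * c i ^ (m / d i) else 0

theorem single_log (e : ℕ) (he : 1 ≤ e) (x : R) :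
    (X : PowerSeries R) * derivative R (1 - monomial e x) =
      - (mk (fun m => if 1 ≤ m ∧ e ∣ m then (e : R) * x ^ (m / e) else 0)) * (1 - monomial e x) := by
  have hm : (monomial e x : PowerSeries R) = C x * X ^ e := by
    rw [X_pow_eq, ← monomial_zero_eq_C_apply, monomial_mul_monomial, zero_add, mul_one]
  ext m
  have hR : coeff m (- (mk (fun m => if 1 ≤ m ∧ e ∣ m then (e : R) * x ^ (m / e) else 0))
      * (1 - monomial e x)) = - (if 1 ≤ m ∧ e ∣ m then (e : R) * x ^ (m / e) else 0)
      + (if e ≤ m then x * (if 1 ≤ m - e ∧ e ∣ m - e then (e : R) * x ^ ((m - e) / e) else 0)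
          else 0) := by
    rw [mul_sub, mul_one, map_sub, hm, neg_mul, map_neg, map_neg, coeff_mk, ← mul_assoc,
      coeff_mul_X_pow', mul_comm (mk _) (C x), coeff_C_mul, coeff_mk, sub_neg_eq_add]
  rw [hR]
  rcases Nat.eq_zero_or_pos m with rfl | hm0
  · rw [coeff_zero_X_mul, if_neg (by omega), if_neg (by omega)]
    simp
  · obtain ⟨m', rfl⟩ : ∃ m', m = m' + 1 := ⟨m - 1, by omega⟩
    rw [coeff_succ_X_mul, coeff_derivative, map_sub, coeff_monomial, coeff_one, if_neg (by omega),
      zero_sub]
    by_cases h1 : m' + 1 = e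
    · subst h1
      simp
      ring
    · rw [if_neg h1]
      by_cases h2 : e ∣ m' + 1
      · obtain ⟨q, hq⟩ := h2
        have hq2 : 2 ≤ q := by
          rcases q with _ | _ | q
          · simp at hq
          · simp at hq; omega
          · omega
        obtain ⟨q, rfl⟩ : ∃ p, q = p + 1 := ⟨q - 1, by omega⟩
        have h3 : m' + 1 - e = e * q := by rw [hq]; rw [Nat.mul_succ]; omega
        have h4 : e ≤ m' + 1 := by rw [hq]; exact Nat.le_mul_of_pos_right e (by omega)
        rw [if_pos ⟨by omega, ⟨_, hq⟩⟩, if_pos h4, h3, if_pos ⟨by nlinarith, ⟨q, rfl⟩⟩, hq,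
          Nat.mul_div_cancel_left _ (by omega), Nat.mul_div_cancel_left _ (by omega)]
        ring
      · rw [if_neg (by tauto)]
        by_cases h4 : e ≤ m' + 1
        · rw [if_pos h4, if_neg]
          · simp
          · rintro ⟨_, h5⟩
            apply h2
            have := (Nat.dvd_add_right (dvd_refl e)).2 h5
            rwa [Nat.add_sub_cancel' h4] at this
        · rw [if_neg h4]; simp

theorem log_PP (s : Finset ι) (hd : ∀ i ∈ s, 1 ≤ d i) :
    (X : PowerSeries R) * derivative R (PP d c s) = - (mk (CC d c s)) * PP d c s := by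
  classical
  induction s using Finset.induction_on with
  | empty =>
    have : (mk (CC d c ∅) : PowerSeries R) = 0 := by ext m; simp [CC]
    rw [this, PP, Finset.prod_empty]
    simp
  | insert i s hi ih =>
    have h1 : PP d c (insert i s) = (1 - monomial (d i) (c i)) * PP d c s := by
      rw [PP, Finset.prod_insert hi, ← PP]
    have h2 : (mk (CC d c (insert i s)) : PowerSeries R) =
        mk (fun m => if 1 ≤ m ∧ d i ∣ m then (d i : R) * c i ^ (m / d i) else 0)
          + mk (CC d c s) := by
      ext m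
      simp only [CC, coeff_mk, map_add]
      rw [Finset.sum_insert hi]
    have e1 := single_log (d i) (hd i (Finset.mem_insert_self i s)) (c i)
    have e2 := ih (fun j hj => hd j (Finset.mem_insert_of_mem hj))
    rw [h1, h2, Derivation.leibniz, smul_eq_mul, smul_eq_mul, mul_add]
    linear_combination PP d c s * e1 + (1 - monomial (d i) (c i)) * e2

theorem PP_rec (s : Finset ι) (hd : ∀ i ∈ s, 1 ≤ d i) (n : ℕ) :
    (n : R) * coeff n (PP d c s) =
      - ∑ p ∈ Finset.HasAntidiagonal.antidiagonal n, CC d c s p.1 * coeff p.2 (PP d c s) := by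
  have h := congrArg (coeff n) (log_PP d c s hd)
  have e : coeff n (mk (CC d c s) * PP d c s) =
      ∑ p ∈ Finset.HasAntidiagonal.antidiagonal n, CC d c s p.1 * coeff p.2 (PP d c s) := by
    rw [coeff_mul]
    simp only [coeff_mk]
  rw [neg_mul, map_neg, e] at h
  rw [← h]
  rcases Nat.eq_zero_or_pos n with rfl | hn
  · simp
  · obtain ⟨m, rfl⟩ : ∃ m, n = m + 1 := ⟨n - 1, by omega⟩
    rw [coeff_succ_X_mul, coeff_derivative]
    push_cast
    ring

theorem PP_expand (s : Finset ι) : PP d c s =
    ∑ t ∈ s.powerset, monomial (∑ i ∈ t, d i) ((-1) ^ t.card * ∏ i ∈ t, c i) := by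
  classical
  rw [PP]
  simp only [sub_eq_add_neg]
  rw [Finset.prod_one_add]
  suffices h : ∀ t : Finset ι, ∏ i ∈ t, -(monomial (d i) (c i) : PowerSeries R) =
      monomial (∑ i ∈ t, d i) ((-1) ^ t.card * ∏ i ∈ t, c i) from
    Finset.sum_congr rfl (fun t _ => h t)
  intro t
  induction t using Finset.induction_on with
  | empty => simp
  | insert i t hi ih =>
    rw [Finset.prod_insert hi, Finset.sum_insert hi, Finset.prod_insert hi,
      Finset.card_insert_of_notMem hi, ih, ← map_neg, monomial_mul_monomial]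
    congr 1
    ring

end

end Pool.Agent.K7.H90.ABG
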