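import Pool.Agent.K7.H90.ABG.EW

/-!
# Computation with coefficient lists
-/

namespace Pool.Agent.K7.H90.ABG

open Polynomial

/-- Encoding of a label as an exponent. -/
def enc (γ : ℕ × (ℤ × ℤ)) : ℕ := (20 * (γ.1 : ℤ) + 19 * γ.2.1 + γ.2.2).toNat

/-- Addition of coefficient lists. -/
def addL : List ℤ → List ℤ → List ℤ
  | [], m => m
  | a :: l, [] => a :: l
  | a :: l, b :: m => (a + b) :: addL l m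

/-- The polynomial of a coefficient list. -/
noncomputable def toP : List ℤ → ℤ[X]
  | [] => 0
  | a :: l => C a + X * toP l

theorem toP_add (l m : List ℤ) : toP (addL l m) = toP l + toP m := by
  induction l generalizing m with
  | nil => simp [addL, toP]
  | cons a l ih =>
    cases m with
    | nil => simp [addL, toP]
    | cons b m => simp only [addL, toP, ih, C_add]; ring

theorem toP_smul (c : ℤ) (l : List ℤ) : toP (l.map (c * ·)) = C c * toP l := by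
  induction l with
  | nil => simp [toP]
  | cons a l ih => simp only [List.map_cons, toP, ih, C_mul]; ring

theorem toP_shift (e : ℕ) (l : List ℤ) : toP (List.replicate e 0 ++ l) = X ^ e * toP l := by
  induction e with
  | zero => simp
  | succ e ih => rw [List.replicate_succ, List.cons_append, toP, ih, C_0, pow_succ]; ring

theorem toP_coeff (l : List ℤ) (e : ℕ) : (toP l).coeff e = l.getD e 0 := by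
  induction l generalizing e with
  | nil => simp [toP]
  | cons a l ih =>
    cases e with
    | zero => simp [toP]
    | succ e =>
      rw [toP, coeff_add, coeff_C_succ, zero_add, mul_comm, coeff_mul_X, ih]
      simp

/-- The polynomial of a list of terms. -/
noncomputable def evT (ts : List (ℤ × ℕ)) : ℤ[X] := (ts.map (fun t => C t.1 * X ^ t.2)).sum

/-- Multiplication of a coefficient list by a list of terms. -/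
def mulT (ts : List (ℤ × ℕ)) (l : List ℤ) : List ℤ :=
  ts.foldr (fun t acc => addL ((List.replicate t.2 0 ++ l).map (t.1 * ·)) acc) []

theorem toP_mulT (ts : List (ℤ × ℕ)) (l : List ℤ) : toP (mulT ts l) = evT ts * toP l := by
  induction ts with
  | nil => simp [mulT, evT, toP]
  | cons t ts ih =>
    have h1 : mulT (t :: ts) l = addL ((List.replicate t.2 0 ++ l).map (t.1 * ·)) (mulT ts l) := rfl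
    have h2 : evT (t :: ts) = C t.1 * X ^ t.2 + evT ts := by simp [evT]
    rw [h1, h2, toP_add, toP_smul, toP_shift, ih]
    ring

/-- The terms coming from degree `d` in `C_m`. -/
def termD (a b : ℕ → ℤ) (m d : ℕ) : List (ℤ × ℕ) :=
  if d ∣ m then
    ((List.finRange 8).map (fun l => ((d : ℤ) * a d, enc (d, sw l) * (m / d))))
      ++ [((d : ℤ) * b d, enc (d, 0) * (m / d))]
  else []

/-- All terms of `C_m` coming from degrees `1, …, D`. -/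
def termsL (a b : ℕ → ℤ) (m : ℕ) : ℕ → List (ℤ × ℕ)
  | 0 => []
  | D + 1 => termD a b m (D + 1) ++ termsL a b m D

/-- The right-hand side sum. -/
def sumS (a b : ℕ → ℤ) (n : ℕ) (F : ℕ → List ℤ) : List ℤ :=
  (List.range (n - 1)).foldr
    (fun i acc => addL (mulT (termsL a b (i + 1) (i + 1)) (F (n - 1 - i))) acc)
    (mulT (termsL a b n (n - 1)) [1])

/-- The new terms in degree `n`. -/
def newT (x y : ℤ) (n : ℕ) : List (ℤ × ℕ) :=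
  ((List.finRange 8).map (fun l => (-x, enc (n, sw l)))) ++ [(-y, enc (n, 0))]

/-- The functional of the trivial multiplicity. -/
def tau (f : ℤ × ℤ → ℤ) : ℤ :=
  f 0 - f (1, -1) - f (0, 1) + f (2, -1) + f (1, 1) - f (2, 0)

/-- The functional of the adjoint multiplicity. -/
def tau' (f : ℤ × ℤ → ℤ) : ℤ := tau (fun μ => ((List.finRange 8).map (fun l => f (μ + sw l))).sum)

/-- The dimensions. -/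
def aS : ℕ → ℤ := fun n => [0, 4, 16, 68, 288, 1196, 4816, 18752, 70784, 261176].getD n 0

def bS : ℕ → ℤ := fun n => [0, 0, 6, 40, 201, 936, 4038, 16736, 66196, 252864].getD n 0

/-- The lists `K_n`. -/
def Kl : ℕ → List ℤ
  | 1 => []
  | 2 => [.ofNat 0,.ofNat 0,.ofNat 6,.ofNat 16,.ofNat 6,.ofNat 0,.ofNat 0,.ofNat 0,.ofNat 0,.ofNat 0,.ofNat 0,.ofNat 0,.ofNat 0,.ofNat 0,.ofNat 0,.ofNat 0,.ofNat 0,.ofNat 0,.ofNat 0,.ofNat 0,.ofNat 16,.ofNat 48,.ofNat 48,.ofNat 16,.ofNat 0,.ofNat 0,.ofNat 0,.ofNat 0,.ofNat 0,.ofNat 0,.ofNat 0,.ofNat 0,.ofNat 0,.ofNat 0,.ofNat 0,.ofNat 0,.ofNat 0,.ofNat 0,.ofNat 6,.ofNat 48,.ofNat 76,.ofNat 48,.ofNat 6,.ofNat 0,.ofNat 0,.ofNat 0,.ofNat 0,.ofNat 0,.ofNat 0,.ofNat 0,.ofNat 0,.ofNat 0,.ofNat 0,.ofNat 0,.ofNat 0,.ofNat 0,.ofNat 0,.ofNat 16,.ofNat 48,.ofNat 48,.ofNat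 16,.ofNat 0,.ofNat 0,.ofNat 0,.ofNat 0,.ofNat 0,.ofNat 0,.ofNat 0,.ofNat 0,.ofNat 0,.ofNat 0,.ofNat 0,.ofNat 0,.ofNat 0,.ofNat 0,.ofNat 0,.ofNat 6,.ofNat 16,.ofNat 6]
  | 3 => [.ofNat 0,.ofNat 0,.ofNat 0,.negSucc 3,.negSucc 23,.negSucc 23,.negSucc 3,.ofNat 0,.ofNat 0,.ofNat 0,.ofNat 0,.ofNat 0,.ofNat 0,.ofNat 0,.ofNat 0,.ofNat 0,.ofNat 0,.ofNat 0,.ofNat 0,.ofNat 0,.ofNat 0,.negSucc 23,.negSucc 47,.negSucc 47,.negSucc 47,.negSucc 23,.ofNat 0,.ofNat 0,.ofNat 0,.ofNat 0,.ofNat 0,.ofNat 0,.ofNat 0,.ofNat 0,.ofNat 0,.ofNat 0,.ofNat 0,.ofNat 0,.ofNat 0,.negSucc 23,.negSucc 47,.ofNat 16,.ofNat 16,.negSucc 47,.negSucc 23,.ofNat 0,.ofNat 0,.ofNat 0,.ofNat 0,.ofNat 0,.ofNat 0,.ofNat 0,.ofNat 0,.ofNat 0,.ofNat 0,.ofNat 0,.ofNat 0,.negSucc 3,.negSucc 47,.ofNat 16,.ofNat 120,.ofNat 16,.negSucc 47,.negSucc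 3,.ofNat 0,.ofNat 0,.ofNat 0,.ofNat 0,.ofNat 0,.ofNat 0,.ofNat 0,.ofNat 0,.ofNat 0,.ofNat 0,.ofNat 0,.ofNat 0,.negSucc 23,.negSucc 47,.ofNat 16,.ofNat 16,.negSucc 47,.negSucc 23,.ofNat 0,.ofNat 0,.ofNat 0,.ofNat 0,.ofNat 0,.ofNat 0,.ofNat 0,.ofNat 0,.ofNat 0,.ofNat 0,.ofNat 0,.ofNat 0,.ofNat 0,.negSucc 23,.negSucc 47,.negSucc 47,.negSucc 47,.negSucc 23,.ofNat 0,.ofNat 0,.ofNat 0,.ofNat 0,.ofNat 0,.ofNat 0,.ofNat 0,.ofNat 0,.ofNat 0,.ofNat 0,.ofNat 0,.ofNat 0,.ofNat 0,.ofNat 0,.negSucc 3,.negSucc 23,.negSucc 23,.negSucc 3]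
  | 4 => [.ofNat 0,.ofNat 0,.ofNat 0,.ofNat 0,.ofNat 1,.ofNat 16,.ofNat 36,.ofNat 16,.ofNat 1,.ofNat 0,.ofNat 0,.ofNat 0,.ofNat 0,.ofNat 0,.ofNat 0,.ofNat 0,.ofNat 0,.ofNat 0,.ofNat 0,.ofNat 0,.ofNat 0,.ofNat 0,.ofNat 16,.ofNat 32,.negSucc 47,.negSucc 47,.ofNat 32,.ofNat 16,.ofNat 0,.ofNat 0,.ofNat 0,.ofNat 0,.ofNat 0,.ofNat 0,.ofNat 0,.ofNat 0,.ofNat 0,.ofNat 0,.ofNat 0,.ofNat 0,.ofNat 36,.negSucc 47,.negSucc 191,.negSucc 255,.negSucc 191,.negSucc 47,.ofNat 36,.ofNat 0,.ofNat 0,.ofNat 0,.ofNat 0,.ofNat 0,.ofNat 0,.ofNat 0,.ofNat 0,.ofNat 0,.ofNat 0,.ofNat 0,.ofNat 16,.negSucc 47,.negSucc 255,.negSucc 95,.negSucc 95,.negSucc 255,.negSucc 47,.ofNat 16,.ofNat 0,.ofNat 0,.ofNat 0,.ofNat 0,.ofNat 0,.ofNat 0,.ofNat 0,.ofNat 0,.ofNat 0,.ofNat 0,.ofNat 1,.ofNat 32,.negSucc 191,.negSucc 95,.ofNat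 329,.negSucc 95,.negSucc 191,.ofNat 32,.ofNat 1,.ofNat 0,.ofNat 0,.ofNat 0,.ofNat 0,.ofNat 0,.ofNat 0,.ofNat 0,.ofNat 0,.ofNat 0,.ofNat 0,.ofNat 16,.negSucc 47,.negSucc 255,.negSucc 95,.negSucc 95,.negSucc 255,.negSucc 47,.ofNat 16,.ofNat 0,.ofNat 0,.ofNat 0,.ofNat 0,.ofNat 0,.ofNat 0,.ofNat 0,.ofNat 0,.ofNat 0,.ofNat 0,.ofNat 0,.ofNat 36,.negSucc 47,.negSucc 191,.negSucc 255,.negSucc 191,.negSucc 47,.ofNat 36,.ofNat 0,.ofNat 0,.ofNat 0,.ofNat 0,.ofNat 0,.ofNat 0,.ofNat 0,.ofNat 0,.ofNat 0,.ofNat 0,.ofNat 0,.ofNat 0,.ofNat 16,.ofNat 32,.negSucc 47,.negSucc 47,.ofNat 32,.ofNat 16,.ofNat 0,.ofNat 0,.ofNat 0,.ofNat 0,.ofNat 0,.ofNat 0,.ofNat 0,.ofNat 0,.ofNat 0,.ofNat 0,.ofNat 0,.ofNat 0,.ofNat 0,.ofNat 1,.ofNat 16,.ofNat 36,.ofNat 16,.ofNat 1]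
  | 5 => [.ofNat 0,.ofNat 0,.ofNat 0,.ofNat 0,.ofNat 0,.ofNat 0,.negSucc 3,.negSucc 23,.negSucc 23,.negSucc 3,.ofNat 0,.ofNat 0,.ofNat 0,.ofNat 0,.ofNat 0,.ofNat 0,.ofNat 0,.ofNat 0,.ofNat 0,.ofNat 0,.ofNat 0,.ofNat 0,.ofNat 0,.negSucc 3,.negSucc 7,.ofNat 172,.ofNat 352,.ofNat 172,.negSucc 7,.negSucc 3,.ofNat 0,.ofNat 0,.ofNat 0,.ofNat 0,.ofNat 0,.ofNat 0,.ofNat 0,.ofNat 0,.ofNat 0,.ofNat 0,.ofNat 0,.negSucc 23,.ofNat 172,.ofNat 668,.ofNat 784,.ofNat 784,.ofNat 668,.ofNat 172,.negSucc 23,.ofNat 0,.ofNat 0,.ofNat 0,.ofNat 0,.ofNat 0,.ofNat 0,.ofNat 0,.ofNat 0,.ofNat 0,.ofNat 0,.negSucc 23,.ofNat 352,.ofNat 784,.ofNat 976,.ofNat 976,.ofNat 976,.ofNat 784,.ofNat 352,.negSucc 23,.ofNat 0,.ofNat 0,.ofNat 0,.ofNat 0,.ofNat 0,.ofNat 0,.ofNat 0,.ofNat 0,.ofNat 0,.negSucc 3,.ofNat 172,.ofNat 784,.ofNat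 976,.ofNat 2248,.ofNat 2248,.ofNat 976,.ofNat 784,.ofNat 172,.negSucc 3,.ofNat 0,.ofNat 0,.ofNat 0,.ofNat 0,.ofNat 0,.ofNat 0,.ofNat 0,.ofNat 0,.ofNat 0,.negSucc 7,.ofNat 668,.ofNat 976,.ofNat 2248,.ofNat 4456,.ofNat 2248,.ofNat 976,.ofNat 668,.negSucc 7,.ofNat 0,.ofNat 0,.ofNat 0,.ofNat 0,.ofNat 0,.ofNat 0,.ofNat 0,.ofNat 0,.ofNat 0,.negSucc 3,.ofNat 172,.ofNat 784,.ofNat 976,.ofNat 2248,.ofNat 2248,.ofNat 976,.ofNat 784,.ofNat 172,.negSucc 3,.ofNat 0,.ofNat 0,.ofNat 0,.ofNat 0,.ofNat 0,.ofNat 0,.ofNat 0,.ofNat 0,.ofNat 0,.negSucc 23,.ofNat 352,.ofNat 784,.ofNat 976,.ofNat 976,.ofNat 976,.ofNat 784,.ofNat 352,.negSucc 23,.ofNat 0,.ofNat 0,.ofNat 0,.ofNat 0,.ofNat 0,.ofNat 0,.ofNat 0,.ofNat 0,.ofNat 0,.ofNat 0,.negSucc 23,.ofNat 172,.ofNat 668,.ofNat 784,.ofNat 784,.ofNat 668,.ofNat 172,.negSucc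 23,.ofNat 0,.ofNat 0,.ofNat 0,.ofNat 0,.ofNat 0,.ofNat 0,.ofNat 0,.ofNat 0,.ofNat 0,.ofNat 0,.ofNat 0,.negSucc 3,.negSucc 7,.ofNat 172,.ofNat 352,.ofNat 172,.negSucc 7,.negSucc 3,.ofNat 0,.ofNat 0,.ofNat 0,.ofNat 0,.ofNat 0,.ofNat 0,.ofNat 0,.ofNat 0,.ofNat 0,.ofNat 0,.ofNat 0,.ofNat 0,.ofNat 0,.negSucc 3,.negSucc 23,.negSucc 23,.negSucc 3,.ofNat 0]
  | 6 => [.ofNat 0,.ofNat 0,.ofNat 0,.ofNat 0,.ofNat 0,.ofNat 0,.ofNat 0,.ofNat 0,.ofNat 6,.ofNat 16,.ofNat 6,.ofNat 0,.ofNat 0,.ofNat 0,.ofNat 0,.ofNat 0,.ofNat 0,.ofNat 0,.ofNat 0,.ofNat 0,.ofNat 0,.ofNat 0,.ofNat 0,.ofNat 0,.ofNat 0,.ofNat 0,.negSucc 143,.negSucc 527,.negSucc 527,.negSucc 143,.ofNat 0,.ofNat 0,.ofNat 0,.ofNat 0,.ofNat 0,.ofNat 0,.ofNat 0,.ofNat 0,.ofNat 0,.ofNat 0,.ofNat 0,.ofNat 0,.ofNat 6,.negSucc 143,.negSucc 817,.negSucc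 655,.ofNat 4,.negSucc 655,.negSucc 817,.negSucc 143,.ofNat 6,.ofNat 0,.ofNat 0,.ofNat 0,.ofNat 0,.ofNat 0,.ofNat 0,.ofNat 0,.ofNat 0,.ofNat 0,.ofNat 16,.negSucc 527,.negSucc 655,.ofNat 736,.ofNat 1536,.ofNat 1536,.ofNat 736,.negSucc 655,.negSucc 527,.ofNat 16,.ofNat 0,.ofNat 0,.ofNat 0,.ofNat 0,.ofNat 0,.ofNat 0,.ofNat 0,.ofNat 0,.ofNat 6,.negSucc 527,.ofNat 4,.ofNat 1536,.ofNat 2876,.ofNat 3056,.ofNat 2876,.ofNat 1536,.ofNat 4,.negSucc 527,.ofNat 6,.ofNat 0,.ofNat 0,.ofNat 0,.ofNat 0,.ofNat 0,.ofNat 0,.ofNat 0,.ofNat 0,.negSucc 143,.negSucc 655,.ofNat 1536,.ofNat 3056,.ofNat 8592,.ofNat 8592,.ofNat 3056,.ofNat 1536,.negSucc 655,.negSucc 143,.ofNat 0,.ofNat 0,.ofNat 0,.ofNat 0,.ofNat 0,.ofNat 0,.ofNat 0,.ofNat 0,.ofNat 0,.negSucc 817,.ofNat 736,.ofNat 2876,.ofNat 8592,.ofNat 17986,.ofNat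 8592,.ofNat 2876,.ofNat 736,.negSucc 817,.ofNat 0,.ofNat 0,.ofNat 0,.ofNat 0,.ofNat 0,.ofNat 0,.ofNat 0,.ofNat 0,.ofNat 0,.negSucc 143,.negSucc 655,.ofNat 1536,.ofNat 3056,.ofNat 8592,.ofNat 8592,.ofNat 3056,.ofNat 1536,.negSucc 655,.negSucc 143,.ofNat 0,.ofNat 0,.ofNat 0,.ofNat 0,.ofNat 0,.ofNat 0,.ofNat 0,.ofNat 0,.ofNat 6,.negSucc 527,.ofNat 4,.ofNat 1536,.ofNat 2876,.ofNat 3056,.ofNat 2876,.ofNat 1536,.ofNat 4,.negSucc 527,.ofNat 6,.ofNat 0,.ofNat 0,.ofNat 0,.ofNat 0,.ofNat 0,.ofNat 0,.ofNat 0,.ofNat 0,.ofNat 16,.negSucc 527,.negSucc 655,.ofNat 736,.ofNat 1536,.ofNat 1536,.ofNat 736,.negSucc 655,.negSucc 527,.ofNat 16,.ofNat 0,.ofNat 0,.ofNat 0,.ofNat 0,.ofNat 0,.ofNat 0,.ofNat 0,.ofNat 0,.ofNat 0,.ofNat 6,.negSucc 143,.negSucc 817,.negSucc 655,.ofNat 4,.negSucc 655,.negSucc 817,.negSucc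 143,.ofNat 6,.ofNat 0,.ofNat 0,.ofNat 0,.ofNat 0,.ofNat 0,.ofNat 0,.ofNat 0,.ofNat 0,.ofNat 0,.ofNat 0,.ofNat 0,.ofNat 0,.negSucc 143,.negSucc 527,.negSucc 527,.negSucc 143,.ofNat 0,.ofNat 0,.ofNat 0,.ofNat 0,.ofNat 0,.ofNat 0,.ofNat 0,.ofNat 0,.ofNat 0,.ofNat 0,.ofNat 0,.ofNat 0,.ofNat 0,.ofNat 0,.ofNat 0,.ofNat 6,.ofNat 16,.ofNat 6,.ofNat 0,.ofNat 0]
  | 7 => [.ofNat 0,.ofNat 0,.ofNat 0,.ofNat 0,.ofNat 0,.ofNat 0,.ofNat 0,.ofNat 0,.ofNat 0,.ofNat 0,.negSucc 3,.negSucc 3,.ofNat 0,.ofNat 0,.ofNat 0,.ofNat 0,.ofNat 0,.ofNat 0,.ofNat 0,.ofNat 0,.ofNat 0,.ofNat 0,.ofNat 0,.ofNat 0,.ofNat 0,.ofNat 0,.ofNat 0,.ofNat 40,.ofNat 336,.ofNat 592,.ofNat 336,.ofNat 40,.ofNat 0,.ofNat 0,.ofNat 0,.ofNat 0,.ofNat 0,.ofNat 0,.ofNat 0,.ofNat 0,.ofNat 0,.ofNat 0,.ofNat 0,.ofNat 0,.ofNat 40,.ofNat 460,.negSucc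 67,.negSucc 2671,.negSucc 2671,.negSucc 67,.ofNat 460,.ofNat 40,.ofNat 0,.ofNat 0,.ofNat 0,.ofNat 0,.ofNat 0,.ofNat 0,.ofNat 0,.ofNat 0,.ofNat 0,.negSucc 3,.ofNat 336,.negSucc 67,.negSucc 4855,.negSucc 7559,.negSucc 6463,.negSucc 7559,.negSucc 4855,.negSucc 67,.ofNat 336,.negSucc 3,.ofNat 0,.ofNat 0,.ofNat 0,.ofNat 0,.ofNat 0,.ofNat 0,.ofNat 0,.negSucc 3,.ofNat 592,.negSucc 2671,.negSucc 7559,.negSucc 7339,.negSucc 5847,.negSucc 5847,.negSucc 7339,.negSucc 7559,.negSucc 2671,.ofNat 592,.negSucc 3,.ofNat 0,.ofNat 0,.ofNat 0,.ofNat 0,.ofNat 0,.ofNat 0,.ofNat 0,.ofNat 336,.negSucc 2671,.negSucc 6463,.negSucc 5847,.negSucc 2639,.negSucc 2639,.negSucc 2639,.negSucc 5847,.negSucc 6463,.negSucc 2671,.ofNat 336,.ofNat 0,.ofNat 0,.ofNat 0,.ofNat 0,.ofNat 0,.ofNat 0,.ofNat 0,.ofNat 40,.negSucc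 67,.negSucc 7559,.negSucc 5847,.negSucc 2639,.ofNat 17828,.ofNat 17828,.negSucc 2639,.negSucc 5847,.negSucc 7559,.negSucc 67,.ofNat 40,.ofNat 0,.ofNat 0,.ofNat 0,.ofNat 0,.ofNat 0,.ofNat 0,.ofNat 0,.ofNat 460,.negSucc 4855,.negSucc 7339,.negSucc 2639,.ofNat 17828,.ofNat 55032,.ofNat 17828,.negSucc 2639,.negSucc 7339,.negSucc 4855,.ofNat 460,.ofNat 0,.ofNat 0,.ofNat 0,.ofNat 0,.ofNat 0,.ofNat 0,.ofNat 0,.ofNat 40,.negSucc 67,.negSucc 7559,.negSucc 5847,.negSucc 2639,.ofNat 17828,.ofNat 17828,.negSucc 2639,.negSucc 5847,.negSucc 7559,.negSucc 67,.ofNat 40,.ofNat 0,.ofNat 0,.ofNat 0,.ofNat 0,.ofNat 0,.ofNat 0,.ofNat 0,.ofNat 336,.negSucc 2671,.negSucc 6463,.negSucc 5847,.negSucc 2639,.negSucc 2639,.negSucc 2639,.negSucc 5847,.negSucc 6463,.negSucc 2671,.ofNat 336,.ofNat 0,.ofNat 0,.ofNat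 0,.ofNat 0,.ofNat 0,.ofNat 0,.ofNat 0,.negSucc 3,.ofNat 592,.negSucc 2671,.negSucc 7559,.negSucc 7339,.negSucc 5847,.negSucc 5847,.negSucc 7339,.negSucc 7559,.negSucc 2671,.ofNat 592,.negSucc 3,.ofNat 0,.ofNat 0,.ofNat 0,.ofNat 0,.ofNat 0,.ofNat 0,.ofNat 0,.negSucc 3,.ofNat 336,.negSucc 67,.negSucc 4855,.negSucc 7559,.negSucc 6463,.negSucc 7559,.negSucc 4855,.negSucc 67,.ofNat 336,.negSucc 3,.ofNat 0,.ofNat 0,.ofNat 0,.ofNat 0,.ofNat 0,.ofNat 0,.ofNat 0,.ofNat 0,.ofNat 0,.ofNat 40,.ofNat 460,.negSucc 67,.negSucc 2671,.negSucc 2671,.negSucc 67,.ofNat 460,.ofNat 40,.ofNat 0,.ofNat 0,.ofNat 0,.ofNat 0,.ofNat 0,.ofNat 0,.ofNat 0,.ofNat 0,.ofNat 0,.ofNat 0,.ofNat 0,.ofNat 0,.ofNat 40,.ofNat 336,.ofNat 592,.ofNat 336,.ofNat 40,.ofNat 0,.ofNat 0,.ofNat 0,.ofNat 0,.ofNat 0,.ofNat 0,.ofNat 0,.ofNat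 0,.ofNat 0,.ofNat 0,.ofNat 0,.ofNat 0,.ofNat 0,.ofNat 0,.ofNat 0,.negSucc 3,.negSucc 3,.ofNat 0,.ofNat 0,.ofNat 0]
  | 8 => [.ofNat 0,.ofNat 0,.ofNat 0,.ofNat 0,.ofNat 0,.ofNat 0,.ofNat 0,.ofNat 0,.ofNat 0,.ofNat 0,.ofNat 0,.ofNat 0,.ofNat 1,.ofNat 0,.ofNat 0,.ofNat 0,.ofNat 0,.ofNat 0,.ofNat 0,.ofNat 0,.ofNat 0,.ofNat 0,.ofNat 0,.ofNat 0,.ofNat 0,.ofNat 0,.ofNat 0,.ofNat 0,.ofNat 0,.negSucc 79,.negSucc 303,.negSucc 303,.negSucc 79,.ofNat 0,.ofNat 0,.ofNat 0,.ofNat 0,.ofNat 0,.ofNat 0,.ofNat 0,.ofNat 0,.ofNat 0,.ofNat 0,.ofNat 0,.ofNat 0,.ofNat 0,.negSucc 99,.ofNat 336,.ofNat 3872,.ofNat 6912,.ofNat 3872,.ofNat 336,.negSucc 99,.ofNat 0,.ofNat 0,.ofNat 0,.ofNat 0,.ofNat 0,.ofNat 0,.ofNat 0,.ofNat 0,.ofNat 0,.ofNat 0,.negSucc 79,.ofNat 336,.ofNat 6432,.ofNat 10368,.ofNat 1088,.ofNat 1088,.ofNat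 10368,.ofNat 6432,.ofNat 336,.negSucc 79,.ofNat 0,.ofNat 0,.ofNat 0,.ofNat 0,.ofNat 0,.ofNat 0,.ofNat 0,.ofNat 1,.negSucc 303,.ofNat 3872,.ofNat 10368,.negSucc 5426,.negSucc 22159,.negSucc 22423,.negSucc 22159,.negSucc 5426,.ofNat 10368,.ofNat 3872,.negSucc 303,.ofNat 1,.ofNat 0,.ofNat 0,.ofNat 0,.ofNat 0,.ofNat 0,.ofNat 0,.negSucc 303,.ofNat 6912,.ofNat 1088,.negSucc 22159,.negSucc 37311,.negSucc 38335,.negSucc 38335,.negSucc 37311,.negSucc 22159,.ofNat 1088,.ofNat 6912,.negSucc 303,.ofNat 0,.ofNat 0,.ofNat 0,.ofNat 0,.ofNat 0,.ofNat 0,.negSucc 79,.ofNat 3872,.ofNat 1088,.negSucc 22423,.negSucc 38335,.negSucc 36371,.negSucc 40095,.negSucc 36371,.negSucc 38335,.negSucc 22423,.ofNat 1088,.ofNat 3872,.negSucc 79,.ofNat 0,.ofNat 0,.ofNat 0,.ofNat 0,.ofNat 0,.ofNat 0,.ofNat 336,.ofNat 10368,.negSucc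 22159,.negSucc 38335,.negSucc 40095,.ofNat 29952,.ofNat 29952,.negSucc 40095,.negSucc 38335,.negSucc 22159,.ofNat 10368,.ofNat 336,.ofNat 0,.ofNat 0,.ofNat 0,.ofNat 0,.ofNat 0,.ofNat 0,.negSucc 99,.ofNat 6432,.negSucc 5426,.negSucc 37311,.negSucc 36371,.ofNat 29952,.ofNat 169920,.ofNat 29952,.negSucc 36371,.negSucc 37311,.negSucc 5426,.ofNat 6432,.negSucc 99,.ofNat 0,.ofNat 0,.ofNat 0,.ofNat 0,.ofNat 0,.ofNat 0,.ofNat 336,.ofNat 10368,.negSucc 22159,.negSucc 38335,.negSucc 40095,.ofNat 29952,.ofNat 29952,.negSucc 40095,.negSucc 38335,.negSucc 22159,.ofNat 10368,.ofNat 336,.ofNat 0,.ofNat 0,.ofNat 0,.ofNat 0,.ofNat 0,.ofNat 0,.negSucc 79,.ofNat 3872,.ofNat 1088,.negSucc 22423,.negSucc 38335,.negSucc 36371,.negSucc 40095,.negSucc 36371,.negSucc 38335,.negSucc 22423,.ofNat 1088,.ofNat 3872,.negSucc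 79,.ofNat 0,.ofNat 0,.ofNat 0,.ofNat 0,.ofNat 0,.ofNat 0,.negSucc 303,.ofNat 6912,.ofNat 1088,.negSucc 22159,.negSucc 37311,.negSucc 38335,.negSucc 38335,.negSucc 37311,.negSucc 22159,.ofNat 1088,.ofNat 6912,.negSucc 303,.ofNat 0,.ofNat 0,.ofNat 0,.ofNat 0,.ofNat 0,.ofNat 0,.ofNat 1,.negSucc 303,.ofNat 3872,.ofNat 10368,.negSucc 5426,.negSucc 22159,.negSucc 22423,.negSucc 22159,.negSucc 5426,.ofNat 10368,.ofNat 3872,.negSucc 303,.ofNat 1,.ofNat 0,.ofNat 0,.ofNat 0,.ofNat 0,.ofNat 0,.ofNat 0,.ofNat 0,.negSucc 79,.ofNat 336,.ofNat 6432,.ofNat 10368,.ofNat 1088,.ofNat 1088,.ofNat 10368,.ofNat 6432,.ofNat 336,.negSucc 79,.ofNat 0,.ofNat 0,.ofNat 0,.ofNat 0,.ofNat 0,.ofNat 0,.ofNat 0,.ofNat 0,.ofNat 0,.ofNat 0,.negSucc 99,.ofNat 336,.ofNat 3872,.ofNat 6912,.ofNat 3872,.ofNat 336,.negSucc 99,.ofNat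 0,.ofNat 0,.ofNat 0,.ofNat 0,.ofNat 0,.ofNat 0,.ofNat 0,.ofNat 0,.ofNat 0,.ofNat 0,.ofNat 0,.ofNat 0,.ofNat 0,.negSucc 79,.negSucc 303,.negSucc 303,.negSucc 79,.ofNat 0,.ofNat 0,.ofNat 0,.ofNat 0,.ofNat 0,.ofNat 0,.ofNat 0,.ofNat 0,.ofNat 0,.ofNat 0,.ofNat 0,.ofNat 0,.ofNat 0,.ofNat 0,.ofNat 0,.ofNat 0,.ofNat 1,.ofNat 0,.ofNat 0,.ofNat 0,.ofNat 0]
  | 9 => [.ofNat 0,.ofNat 0,.ofNat 0,.ofNat 0,.ofNat 0,.ofNat 0,.ofNat 0,.ofNat 0,.ofNat 0,.ofNat 0,.ofNat 0,.ofNat 0,.ofNat 0,.ofNat 0,.ofNat 0,.ofNat 0,.ofNat 0,.ofNat 0,.ofNat 0,.ofNat 0,.ofNat 0,.ofNat 0,.ofNat 0,.ofNat 0,.ofNat 0,.ofNat 0,.ofNat 0,.ofNat 0,.ofNat 0,.ofNat 0,.ofNat 0,.ofNat 60,.ofNat 120,.ofNat 60,.ofNat 0,.ofNat 0,.ofNat 0,.ofNat 0,.ofNat 0,.ofNat 0,.ofNat 0,.ofNat 0,.ofNat 0,.ofNat 0,.ofNat 0,.ofNat 0,.ofNat 0,.ofNat 0,.negSucc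 119,.negSucc 2223,.negSucc 6483,.negSucc 6483,.negSucc 2223,.negSucc 119,.ofNat 0,.ofNat 0,.ofNat 0,.ofNat 0,.ofNat 0,.ofNat 0,.ofNat 0,.ofNat 0,.ofNat 0,.ofNat 0,.ofNat 0,.negSucc 119,.negSucc 3679,.negSucc 6799,.ofNat 13776,.ofNat 33872,.ofNat 13776,.negSucc 6799,.negSucc 3679,.negSucc 119,.ofNat 0,.ofNat 0,.ofNat 0,.ofNat 0,.ofNat 0,.ofNat 0,.ofNat 0,.ofNat 0,.ofNat 60,.negSucc 2223,.negSucc 6799,.ofNat 29504,.ofNat 78060,.ofNat 60408,.ofNat 60408,.ofNat 78060,.ofNat 29504,.negSucc 6799,.negSucc 2223,.ofNat 60,.ofNat 0,.ofNat 0,.ofNat 0,.ofNat 0,.ofNat 0,.ofNat 0,.ofNat 120,.negSucc 6483,.ofNat 13776,.ofNat 78060,.ofNat 64704,.ofNat 7640,.negSucc 3583,.ofNat 7640,.ofNat 64704,.ofNat 78060,.ofNat 13776,.negSucc 6483,.ofNat 120,.ofNat 0,.ofNat 0,.ofNat 0,.ofNat 0,.ofNat 0,.ofNat 60,.negSucc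 6483,.ofNat 33872,.ofNat 60408,.ofNat 7640,.negSucc 73715,.negSucc 92391,.negSucc 92391,.negSucc 73715,.ofNat 7640,.ofNat 60408,.ofNat 33872,.negSucc 6483,.ofNat 60,.ofNat 0,.ofNat 0,.ofNat 0,.ofNat 0,.ofNat 0,.negSucc 2223,.ofNat 13776,.ofNat 60408,.negSucc 3583,.negSucc 92391,.negSucc 108495,.negSucc 129695,.negSucc 108495,.negSucc 92391,.negSucc 3583,.ofNat 60408,.ofNat 13776,.negSucc 2223,.ofNat 0,.ofNat 0,.ofNat 0,.ofNat 0,.ofNat 0,.negSucc 119,.negSucc 6799,.ofNat 78060,.ofNat 7640,.negSucc 92391,.negSucc 129695,.ofNat 112852,.ofNat 112852,.negSucc 129695,.negSucc 92391,.ofNat 7640,.ofNat 78060,.negSucc 6799,.negSucc 119,.ofNat 0,.ofNat 0,.ofNat 0,.ofNat 0,.ofNat 0,.negSucc 3679,.ofNat 29504,.ofNat 64704,.negSucc 73715,.negSucc 108495,.ofNat 112852,.ofNat 629464,.ofNat 112852,.negSucc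 108495,.negSucc 73715,.ofNat 64704,.ofNat 29504,.negSucc 3679,.ofNat 0,.ofNat 0,.ofNat 0,.ofNat 0,.ofNat 0,.negSucc 119,.negSucc 6799,.ofNat 78060,.ofNat 7640,.negSucc 92391,.negSucc 129695,.ofNat 112852,.ofNat 112852,.negSucc 129695,.negSucc 92391,.ofNat 7640,.ofNat 78060,.negSucc 6799,.negSucc 119,.ofNat 0,.ofNat 0,.ofNat 0,.ofNat 0,.ofNat 0,.negSucc 2223,.ofNat 13776,.ofNat 60408,.negSucc 3583,.negSucc 92391,.negSucc 108495,.negSucc 129695,.negSucc 108495,.negSucc 92391,.negSucc 3583,.ofNat 60408,.ofNat 13776,.negSucc 2223,.ofNat 0,.ofNat 0,.ofNat 0,.ofNat 0,.ofNat 0,.ofNat 60,.negSucc 6483,.ofNat 33872,.ofNat 60408,.ofNat 7640,.negSucc 73715,.negSucc 92391,.negSucc 92391,.negSucc 73715,.ofNat 7640,.ofNat 60408,.ofNat 33872,.negSucc 6483,.ofNat 60,.ofNat 0,.ofNat 0,.ofNat 0,.ofNat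 0,.ofNat 0,.ofNat 120,.negSucc 6483,.ofNat 13776,.ofNat 78060,.ofNat 64704,.ofNat 7640,.negSucc 3583,.ofNat 7640,.ofNat 64704,.ofNat 78060,.ofNat 13776,.negSucc 6483,.ofNat 120,.ofNat 0,.ofNat 0,.ofNat 0,.ofNat 0,.ofNat 0,.ofNat 0,.ofNat 60,.negSucc 2223,.negSucc 6799,.ofNat 29504,.ofNat 78060,.ofNat 60408,.ofNat 60408,.ofNat 78060,.ofNat 29504,.negSucc 6799,.negSucc 2223,.ofNat 60,.ofNat 0,.ofNat 0,.ofNat 0,.ofNat 0,.ofNat 0,.ofNat 0,.ofNat 0,.ofNat 0,.negSucc 119,.negSucc 3679,.negSucc 6799,.ofNat 13776,.ofNat 33872,.ofNat 13776,.negSucc 6799,.negSucc 3679,.negSucc 119,.ofNat 0,.ofNat 0,.ofNat 0,.ofNat 0,.ofNat 0,.ofNat 0,.ofNat 0,.ofNat 0,.ofNat 0,.ofNat 0,.ofNat 0,.negSucc 119,.negSucc 2223,.negSucc 6483,.negSucc 6483,.negSucc 2223,.negSucc 119,.ofNat 0,.ofNat 0,.ofNat 0,.ofNat 0,.ofNat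 0,.ofNat 0,.ofNat 0,.ofNat 0,.ofNat 0,.ofNat 0,.ofNat 0,.ofNat 0,.ofNat 0,.ofNat 0,.ofNat 60,.ofNat 120,.ofNat 60,.ofNat 0,.ofNat 0,.ofNat 0,.ofNat 0,.ofNat 0,.ofNat 0,.ofNat 0,.ofNat 0,.ofNat 0,.ofNat 0,.ofNat 0,.ofNat 0,.ofNat 0,.ofNat 0,.ofNat 0,.ofNat 0,.ofNat 0,.ofNat 0,.ofNat 0,.ofNat 0,.ofNat 0,.ofNat 0]
  | _ => []

/-- The lists `F_n`. -/
def Fl : ℕ → List ℤ
  | 0 => [.ofNat 1]
  | 1 => [.ofNat 0,.negSucc 3,.negSucc 3,.ofNat 0,.ofNat 0,.ofNat 0,.ofNat 0,.ofNat 0,.ofNat 0,.ofNat 0,.ofNat 0,.ofNat 0,.ofNat 0,.ofNat 0,.ofNat 0,.ofNat 0,.ofNat 0,.ofNat 0,.ofNat 0,.negSucc 3,.negSucc 7,.negSucc 3,.ofNat 0,.ofNat 0,.ofNat 0,.ofNat 0,.ofNat 0,.ofNat 0,.ofNat 0,.ofNat 0,.ofNat 0,.ofNat 0,.ofNat 0,.ofNat 0,.ofNat 0,.ofNat 0,.ofNat 0,.ofNat 0,.negSucc 3,.negSucc 3]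
  | 2 => [.ofNat 0,.ofNat 0,.ofNat 6,.ofNat 16,.ofNat 6,.ofNat 0,.ofNat 0,.ofNat 0,.ofNat 0,.ofNat 0,.ofNat 0,.ofNat 0,.ofNat 0,.ofNat 0,.ofNat 0,.ofNat 0,.ofNat 0,.ofNat 0,.ofNat 0,.ofNat 0,.ofNat 16,.ofNat 32,.ofNat 32,.ofNat 16,.ofNat 0,.ofNat 0,.ofNat 0,.ofNat 0,.ofNat 0,.ofNat 0,.ofNat 0,.ofNat 0,.ofNat 0,.ofNat 0,.ofNat 0,.ofNat 0,.ofNat 0,.ofNat 0,.ofNat 6,.ofNat 32,.ofNat 38,.ofNat 32,.ofNat 6,.ofNat 0,.ofNat 0,.ofNat 0,.ofNat 0,.ofNat 0,.ofNat 0,.ofNat 0,.ofNat 0,.ofNat 0,.ofNat 0,.ofNat 0,.ofNat 0,.ofNat 0,.ofNat 0,.ofNat 16,.ofNat 32,.ofNat 32,.ofNat 16,.ofNat 0,.ofNat 0,.ofNat 0,.ofNat 0,.ofNat 0,.ofNat 0,.ofNat 0,.ofNat 0,.ofNat 0,.ofNat 0,.ofNat 0,.ofNat 0,.ofNat 0,.ofNat 0,.ofNat 0,.ofNat 6,.ofNat 16,.ofNat 6]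
  | 3 => [.ofNat 0,.ofNat 0,.ofNat 0,.negSucc 3,.negSucc 23,.negSucc 23,.negSucc 3,.ofNat 0,.ofNat 0,.ofNat 0,.ofNat 0,.ofNat 0,.ofNat 0,.ofNat 0,.ofNat 0,.ofNat 0,.ofNat 0,.ofNat 0,.ofNat 0,.ofNat 0,.ofNat 0,.negSucc 23,.negSucc 47,.negSucc 47,.negSucc 47,.negSucc 23,.ofNat 0,.ofNat 0,.ofNat 0,.ofNat 0,.ofNat 0,.ofNat 0,.ofNat 0,.ofNat 0,.ofNat 0,.ofNat 0,.ofNat 0,.ofNat 0,.ofNat 0,.negSucc 23,.negSucc 47,.negSucc 51,.negSucc 51,.negSucc 47,.negSucc 23,.ofNat 0,.ofNat 0,.ofNat 0,.ofNat 0,.ofNat 0,.ofNat 0,.ofNat 0,.ofNat 0,.ofNat 0,.ofNat 0,.ofNat 0,.ofNat 0,.negSucc 3,.negSucc 47,.negSucc 51,.negSucc 55,.negSucc 51,.negSucc 47,.negSucc 3,.ofNat 0,.ofNat 0,.ofNat 0,.ofNat 0,.ofNat 0,.ofNat 0,.ofNat 0,.ofNat 0,.ofNat 0,.ofNat 0,.ofNat 0,.ofNat 0,.negSucc 23,.negSucc 47,.negSucc 51,.negSucc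 51,.negSucc 47,.negSucc 23,.ofNat 0,.ofNat 0,.ofNat 0,.ofNat 0,.ofNat 0,.ofNat 0,.ofNat 0,.ofNat 0,.ofNat 0,.ofNat 0,.ofNat 0,.ofNat 0,.ofNat 0,.negSucc 23,.negSucc 47,.negSucc 47,.negSucc 47,.negSucc 23,.ofNat 0,.ofNat 0,.ofNat 0,.ofNat 0,.ofNat 0,.ofNat 0,.ofNat 0,.ofNat 0,.ofNat 0,.ofNat 0,.ofNat 0,.ofNat 0,.ofNat 0,.ofNat 0,.negSucc 3,.negSucc 23,.negSucc 23,.negSucc 3]
  | 4 => [.ofNat 0,.ofNat 0,.ofNat 0,.ofNat 0,.ofNat 1,.ofNat 16,.ofNat 36,.ofNat 16,.ofNat 1,.ofNat 0,.ofNat 0,.ofNat 0,.ofNat 0,.ofNat 0,.ofNat 0,.ofNat 0,.ofNat 0,.ofNat 0,.ofNat 0,.ofNat 0,.ofNat 0,.ofNat 0,.ofNat 16,.ofNat 32,.negSucc 47,.negSucc 47,.ofNat 32,.ofNat 16,.ofNat 0,.ofNat 0,.ofNat 0,.ofNat 0,.ofNat 0,.ofNat 0,.ofNat 0,.ofNat 0,.ofNat 0,.ofNat 0,.ofNat 0,.ofNat 0,.ofNat 36,.negSucc 47,.negSucc 191,.negSucc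 255,.negSucc 191,.negSucc 47,.ofNat 36,.ofNat 0,.ofNat 0,.ofNat 0,.ofNat 0,.ofNat 0,.ofNat 0,.ofNat 0,.ofNat 0,.ofNat 0,.ofNat 0,.ofNat 0,.ofNat 16,.negSucc 47,.negSucc 255,.negSucc 383,.negSucc 383,.negSucc 255,.negSucc 47,.ofNat 16,.ofNat 0,.ofNat 0,.ofNat 0,.ofNat 0,.ofNat 0,.ofNat 0,.ofNat 0,.ofNat 0,.ofNat 0,.ofNat 0,.ofNat 1,.ofNat 32,.negSucc 191,.negSucc 383,.negSucc 447,.negSucc 383,.negSucc 191,.ofNat 32,.ofNat 1,.ofNat 0,.ofNat 0,.ofNat 0,.ofNat 0,.ofNat 0,.ofNat 0,.ofNat 0,.ofNat 0,.ofNat 0,.ofNat 0,.ofNat 16,.negSucc 47,.negSucc 255,.negSucc 383,.negSucc 383,.negSucc 255,.negSucc 47,.ofNat 16,.ofNat 0,.ofNat 0,.ofNat 0,.ofNat 0,.ofNat 0,.ofNat 0,.ofNat 0,.ofNat 0,.ofNat 0,.ofNat 0,.ofNat 0,.ofNat 36,.negSucc 47,.negSucc 191,.negSucc 255,.negSucc 191,.negSucc 47,.ofNat 36,.ofNat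 0,.ofNat 0,.ofNat 0,.ofNat 0,.ofNat 0,.ofNat 0,.ofNat 0,.ofNat 0,.ofNat 0,.ofNat 0,.ofNat 0,.ofNat 0,.ofNat 16,.ofNat 32,.negSucc 47,.negSucc 47,.ofNat 32,.ofNat 16,.ofNat 0,.ofNat 0,.ofNat 0,.ofNat 0,.ofNat 0,.ofNat 0,.ofNat 0,.ofNat 0,.ofNat 0,.ofNat 0,.ofNat 0,.ofNat 0,.ofNat 0,.ofNat 1,.ofNat 16,.ofNat 36,.ofNat 16,.ofNat 1]
  | 5 => [.ofNat 0,.ofNat 0,.ofNat 0,.ofNat 0,.ofNat 0,.ofNat 0,.negSucc 3,.negSucc 23,.negSucc 23,.negSucc 3,.ofNat 0,.ofNat 0,.ofNat 0,.ofNat 0,.ofNat 0,.ofNat 0,.ofNat 0,.ofNat 0,.ofNat 0,.ofNat 0,.ofNat 0,.ofNat 0,.ofNat 0,.negSucc 3,.negSucc 7,.ofNat 172,.ofNat 352,.ofNat 172,.negSucc 7,.negSucc 3,.ofNat 0,.ofNat 0,.ofNat 0,.ofNat 0,.ofNat 0,.ofNat 0,.ofNat 0,.ofNat 0,.ofNat 0,.ofNat 0,.ofNat 0,.negSucc 23,.ofNat 172,.ofNat 668,.ofNat 784,.ofNat 784,.ofNat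 668,.ofNat 172,.negSucc 23,.ofNat 0,.ofNat 0,.ofNat 0,.ofNat 0,.ofNat 0,.ofNat 0,.ofNat 0,.ofNat 0,.ofNat 0,.ofNat 0,.negSucc 23,.ofNat 352,.ofNat 784,.ofNat 976,.ofNat 976,.ofNat 976,.ofNat 784,.ofNat 352,.negSucc 23,.ofNat 0,.ofNat 0,.ofNat 0,.ofNat 0,.ofNat 0,.ofNat 0,.ofNat 0,.ofNat 0,.ofNat 0,.negSucc 3,.ofNat 172,.ofNat 784,.ofNat 976,.ofNat 1052,.ofNat 1052,.ofNat 976,.ofNat 784,.ofNat 172,.negSucc 3,.ofNat 0,.ofNat 0,.ofNat 0,.ofNat 0,.ofNat 0,.ofNat 0,.ofNat 0,.ofNat 0,.ofNat 0,.negSucc 7,.ofNat 668,.ofNat 976,.ofNat 1052,.ofNat 1128,.ofNat 1052,.ofNat 976,.ofNat 668,.negSucc 7,.ofNat 0,.ofNat 0,.ofNat 0,.ofNat 0,.ofNat 0,.ofNat 0,.ofNat 0,.ofNat 0,.ofNat 0,.negSucc 3,.ofNat 172,.ofNat 784,.ofNat 976,.ofNat 1052,.ofNat 1052,.ofNat 976,.ofNat 784,.ofNat 172,.negSucc 3,.ofNat 0,.ofNat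 0,.ofNat 0,.ofNat 0,.ofNat 0,.ofNat 0,.ofNat 0,.ofNat 0,.ofNat 0,.negSucc 23,.ofNat 352,.ofNat 784,.ofNat 976,.ofNat 976,.ofNat 976,.ofNat 784,.ofNat 352,.negSucc 23,.ofNat 0,.ofNat 0,.ofNat 0,.ofNat 0,.ofNat 0,.ofNat 0,.ofNat 0,.ofNat 0,.ofNat 0,.ofNat 0,.negSucc 23,.ofNat 172,.ofNat 668,.ofNat 784,.ofNat 784,.ofNat 668,.ofNat 172,.negSucc 23,.ofNat 0,.ofNat 0,.ofNat 0,.ofNat 0,.ofNat 0,.ofNat 0,.ofNat 0,.ofNat 0,.ofNat 0,.ofNat 0,.ofNat 0,.negSucc 3,.negSucc 7,.ofNat 172,.ofNat 352,.ofNat 172,.negSucc 7,.negSucc 3,.ofNat 0,.ofNat 0,.ofNat 0,.ofNat 0,.ofNat 0,.ofNat 0,.ofNat 0,.ofNat 0,.ofNat 0,.ofNat 0,.ofNat 0,.ofNat 0,.ofNat 0,.negSucc 3,.negSucc 23,.negSucc 23,.negSucc 3,.ofNat 0]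
  | 6 => [.ofNat 0,.ofNat 0,.ofNat 0,.ofNat 0,.ofNat 0,.ofNat 0,.ofNat 0,.ofNat 0,.ofNat 6,.ofNat 16,.ofNat 6,.ofNat 0,.ofNat 0,.ofNat 0,.ofNat 0,.ofNat 0,.ofNat 0,.ofNat 0,.ofNat 0,.ofNat 0,.ofNat 0,.ofNat 0,.ofNat 0,.ofNat 0,.ofNat 0,.ofNat 0,.negSucc 143,.negSucc 527,.negSucc 527,.negSucc 143,.ofNat 0,.ofNat 0,.ofNat 0,.ofNat 0,.ofNat 0,.ofNat 0,.ofNat 0,.ofNat 0,.ofNat 0,.ofNat 0,.ofNat 0,.ofNat 0,.ofNat 6,.negSucc 143,.negSucc 817,.negSucc 655,.ofNat 4,.negSucc 655,.negSucc 817,.negSucc 143,.ofNat 6,.ofNat 0,.ofNat 0,.ofNat 0,.ofNat 0,.ofNat 0,.ofNat 0,.ofNat 0,.ofNat 0,.ofNat 0,.ofNat 16,.negSucc 527,.negSucc 655,.ofNat 736,.ofNat 1536,.ofNat 1536,.ofNat 736,.negSucc 655,.negSucc 527,.ofNat 16,.ofNat 0,.ofNat 0,.ofNat 0,.ofNat 0,.ofNat 0,.ofNat 0,.ofNat 0,.ofNat 0,.ofNat 6,.negSucc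 527,.ofNat 4,.ofNat 1536,.ofNat 2876,.ofNat 3056,.ofNat 2876,.ofNat 1536,.ofNat 4,.negSucc 527,.ofNat 6,.ofNat 0,.ofNat 0,.ofNat 0,.ofNat 0,.ofNat 0,.ofNat 0,.ofNat 0,.ofNat 0,.negSucc 143,.negSucc 655,.ofNat 1536,.ofNat 3056,.ofNat 3776,.ofNat 3776,.ofNat 3056,.ofNat 1536,.negSucc 655,.negSucc 143,.ofNat 0,.ofNat 0,.ofNat 0,.ofNat 0,.ofNat 0,.ofNat 0,.ofNat 0,.ofNat 0,.ofNat 0,.negSucc 817,.ofNat 736,.ofNat 2876,.ofNat 3776,.ofNat 4316,.ofNat 3776,.ofNat 2876,.ofNat 736,.negSucc 817,.ofNat 0,.ofNat 0,.ofNat 0,.ofNat 0,.ofNat 0,.ofNat 0,.ofNat 0,.ofNat 0,.ofNat 0,.negSucc 143,.negSucc 655,.ofNat 1536,.ofNat 3056,.ofNat 3776,.ofNat 3776,.ofNat 3056,.ofNat 1536,.negSucc 655,.negSucc 143,.ofNat 0,.ofNat 0,.ofNat 0,.ofNat 0,.ofNat 0,.ofNat 0,.ofNat 0,.ofNat 0,.ofNat 6,.negSucc 527,.ofNat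 4,.ofNat 1536,.ofNat 2876,.ofNat 3056,.ofNat 2876,.ofNat 1536,.ofNat 4,.negSucc 527,.ofNat 6,.ofNat 0,.ofNat 0,.ofNat 0,.ofNat 0,.ofNat 0,.ofNat 0,.ofNat 0,.ofNat 0,.ofNat 16,.negSucc 527,.negSucc 655,.ofNat 736,.ofNat 1536,.ofNat 1536,.ofNat 736,.negSucc 655,.negSucc 527,.ofNat 16,.ofNat 0,.ofNat 0,.ofNat 0,.ofNat 0,.ofNat 0,.ofNat 0,.ofNat 0,.ofNat 0,.ofNat 0,.ofNat 6,.negSucc 143,.negSucc 817,.negSucc 655,.ofNat 4,.negSucc 655,.negSucc 817,.negSucc 143,.ofNat 6,.ofNat 0,.ofNat 0,.ofNat 0,.ofNat 0,.ofNat 0,.ofNat 0,.ofNat 0,.ofNat 0,.ofNat 0,.ofNat 0,.ofNat 0,.ofNat 0,.negSucc 143,.negSucc 527,.negSucc 527,.negSucc 143,.ofNat 0,.ofNat 0,.ofNat 0,.ofNat 0,.ofNat 0,.ofNat 0,.ofNat 0,.ofNat 0,.ofNat 0,.ofNat 0,.ofNat 0,.ofNat 0,.ofNat 0,.ofNat 0,.ofNat 0,.ofNat 6,.ofNat 16,.ofNat 6,.ofNat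 0,.ofNat 0]
  | 7 => [.ofNat 0,.ofNat 0,.ofNat 0,.ofNat 0,.ofNat 0,.ofNat 0,.ofNat 0,.ofNat 0,.ofNat 0,.ofNat 0,.negSucc 3,.negSucc 3,.ofNat 0,.ofNat 0,.ofNat 0,.ofNat 0,.ofNat 0,.ofNat 0,.ofNat 0,.ofNat 0,.ofNat 0,.ofNat 0,.ofNat 0,.ofNat 0,.ofNat 0,.ofNat 0,.ofNat 0,.ofNat 40,.ofNat 336,.ofNat 592,.ofNat 336,.ofNat 40,.ofNat 0,.ofNat 0,.ofNat 0,.ofNat 0,.ofNat 0,.ofNat 0,.ofNat 0,.ofNat 0,.ofNat 0,.ofNat 0,.ofNat 0,.ofNat 0,.ofNat 40,.ofNat 460,.negSucc 67,.negSucc 2671,.negSucc 2671,.negSucc 67,.ofNat 460,.ofNat 40,.ofNat 0,.ofNat 0,.ofNat 0,.ofNat 0,.ofNat 0,.ofNat 0,.ofNat 0,.ofNat 0,.ofNat 0,.negSucc 3,.ofNat 336,.negSucc 67,.negSucc 4855,.negSucc 7559,.negSucc 6463,.negSucc 7559,.negSucc 4855,.negSucc 67,.ofNat 336,.negSucc 3,.ofNat 0,.ofNat 0,.ofNat 0,.ofNat 0,.ofNat 0,.ofNat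 0,.ofNat 0,.negSucc 3,.ofNat 592,.negSucc 2671,.negSucc 7559,.negSucc 7339,.negSucc 5847,.negSucc 5847,.negSucc 7339,.negSucc 7559,.negSucc 2671,.ofNat 592,.negSucc 3,.ofNat 0,.ofNat 0,.ofNat 0,.ofNat 0,.ofNat 0,.ofNat 0,.ofNat 0,.ofNat 336,.negSucc 2671,.negSucc 6463,.negSucc 5847,.negSucc 2639,.negSucc 2639,.negSucc 2639,.negSucc 5847,.negSucc 6463,.negSucc 2671,.ofNat 336,.ofNat 0,.ofNat 0,.ofNat 0,.ofNat 0,.ofNat 0,.ofNat 0,.ofNat 0,.ofNat 40,.negSucc 67,.negSucc 7559,.negSucc 5847,.negSucc 2639,.negSucc 923,.negSucc 923,.negSucc 2639,.negSucc 5847,.negSucc 7559,.negSucc 67,.ofNat 40,.ofNat 0,.ofNat 0,.ofNat 0,.ofNat 0,.ofNat 0,.ofNat 0,.ofNat 0,.ofNat 460,.negSucc 4855,.negSucc 7339,.negSucc 2639,.negSucc 923,.ofNat 792,.negSucc 923,.negSucc 2639,.negSucc 7339,.negSucc 4855,.ofNat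 460,.ofNat 0,.ofNat 0,.ofNat 0,.ofNat 0,.ofNat 0,.ofNat 0,.ofNat 0,.ofNat 40,.negSucc 67,.negSucc 7559,.negSucc 5847,.negSucc 2639,.negSucc 923,.negSucc 923,.negSucc 2639,.negSucc 5847,.negSucc 7559,.negSucc 67,.ofNat 40,.ofNat 0,.ofNat 0,.ofNat 0,.ofNat 0,.ofNat 0,.ofNat 0,.ofNat 0,.ofNat 336,.negSucc 2671,.negSucc 6463,.negSucc 5847,.negSucc 2639,.negSucc 2639,.negSucc 2639,.negSucc 5847,.negSucc 6463,.negSucc 2671,.ofNat 336,.ofNat 0,.ofNat 0,.ofNat 0,.ofNat 0,.ofNat 0,.ofNat 0,.ofNat 0,.negSucc 3,.ofNat 592,.negSucc 2671,.negSucc 7559,.negSucc 7339,.negSucc 5847,.negSucc 5847,.negSucc 7339,.negSucc 7559,.negSucc 2671,.ofNat 592,.negSucc 3,.ofNat 0,.ofNat 0,.ofNat 0,.ofNat 0,.ofNat 0,.ofNat 0,.ofNat 0,.negSucc 3,.ofNat 336,.negSucc 67,.negSucc 4855,.negSucc 7559,.negSucc 6463,.negSucc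 7559,.negSucc 4855,.negSucc 67,.ofNat 336,.negSucc 3,.ofNat 0,.ofNat 0,.ofNat 0,.ofNat 0,.ofNat 0,.ofNat 0,.ofNat 0,.ofNat 0,.ofNat 0,.ofNat 40,.ofNat 460,.negSucc 67,.negSucc 2671,.negSucc 2671,.negSucc 67,.ofNat 460,.ofNat 40,.ofNat 0,.ofNat 0,.ofNat 0,.ofNat 0,.ofNat 0,.ofNat 0,.ofNat 0,.ofNat 0,.ofNat 0,.ofNat 0,.ofNat 0,.ofNat 0,.ofNat 40,.ofNat 336,.ofNat 592,.ofNat 336,.ofNat 40,.ofNat 0,.ofNat 0,.ofNat 0,.ofNat 0,.ofNat 0,.ofNat 0,.ofNat 0,.ofNat 0,.ofNat 0,.ofNat 0,.ofNat 0,.ofNat 0,.ofNat 0,.ofNat 0,.ofNat 0,.negSucc 3,.negSucc 3,.ofNat 0,.ofNat 0,.ofNat 0]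
  | 8 => [.ofNat 0,.ofNat 0,.ofNat 0,.ofNat 0,.ofNat 0,.ofNat 0,.ofNat 0,.ofNat 0,.ofNat 0,.ofNat 0,.ofNat 0,.ofNat 0,.ofNat 1,.ofNat 0,.ofNat 0,.ofNat 0,.ofNat 0,.ofNat 0,.ofNat 0,.ofNat 0,.ofNat 0,.ofNat 0,.ofNat 0,.ofNat 0,.ofNat 0,.ofNat 0,.ofNat 0,.ofNat 0,.ofNat 0,.negSucc 79,.negSucc 303,.negSucc 303,.negSucc 79,.ofNat 0,.ofNat 0,.ofNat 0,.ofNat 0,.ofNat 0,.ofNat 0,.ofNat 0,.ofNat 0,.ofNat 0,.ofNat 0,.ofNat 0,.ofNat 0,.ofNat 0,.negSucc 99,.ofNat 336,.ofNat 3872,.ofNat 6912,.ofNat 3872,.ofNat 336,.negSucc 99,.ofNat 0,.ofNat 0,.ofNat 0,.ofNat 0,.ofNat 0,.ofNat 0,.ofNat 0,.ofNat 0,.ofNat 0,.ofNat 0,.negSucc 79,.ofNat 336,.ofNat 6432,.ofNat 10368,.ofNat 1088,.ofNat 1088,.ofNat 10368,.ofNat 6432,.ofNat 336,.negSucc 79,.ofNat 0,.ofNat 0,.ofNat 0,.ofNat 0,.ofNat 0,.ofNat 0,.ofNat 0,.ofNat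 1,.negSucc 303,.ofNat 3872,.ofNat 10368,.negSucc 5426,.negSucc 22159,.negSucc 22423,.negSucc 22159,.negSucc 5426,.ofNat 10368,.ofNat 3872,.negSucc 303,.ofNat 1,.ofNat 0,.ofNat 0,.ofNat 0,.ofNat 0,.ofNat 0,.ofNat 0,.negSucc 303,.ofNat 6912,.ofNat 1088,.negSucc 22159,.negSucc 37311,.negSucc 38335,.negSucc 38335,.negSucc 37311,.negSucc 22159,.ofNat 1088,.ofNat 6912,.negSucc 303,.ofNat 0,.ofNat 0,.ofNat 0,.ofNat 0,.ofNat 0,.ofNat 0,.negSucc 79,.ofNat 3872,.ofNat 1088,.negSucc 22423,.negSucc 38335,.negSucc 36371,.negSucc 40095,.negSucc 36371,.negSucc 38335,.negSucc 22423,.ofNat 1088,.ofNat 3872,.negSucc 79,.ofNat 0,.ofNat 0,.ofNat 0,.ofNat 0,.ofNat 0,.ofNat 0,.ofNat 336,.ofNat 10368,.negSucc 22159,.negSucc 38335,.negSucc 40095,.negSucc 40831,.negSucc 40831,.negSucc 40095,.negSucc 38335,.negSucc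 22159,.ofNat 10368,.ofNat 336,.ofNat 0,.ofNat 0,.ofNat 0,.ofNat 0,.ofNat 0,.ofNat 0,.negSucc 99,.ofNat 6432,.negSucc 5426,.negSucc 37311,.negSucc 36371,.negSucc 40831,.negSucc 37843,.negSucc 40831,.negSucc 36371,.negSucc 37311,.negSucc 5426,.ofNat 6432,.negSucc 99,.ofNat 0,.ofNat 0,.ofNat 0,.ofNat 0,.ofNat 0,.ofNat 0,.ofNat 336,.ofNat 10368,.negSucc 22159,.negSucc 38335,.negSucc 40095,.negSucc 40831,.negSucc 40831,.negSucc 40095,.negSucc 38335,.negSucc 22159,.ofNat 10368,.ofNat 336,.ofNat 0,.ofNat 0,.ofNat 0,.ofNat 0,.ofNat 0,.ofNat 0,.negSucc 79,.ofNat 3872,.ofNat 1088,.negSucc 22423,.negSucc 38335,.negSucc 36371,.negSucc 40095,.negSucc 36371,.negSucc 38335,.negSucc 22423,.ofNat 1088,.ofNat 3872,.negSucc 79,.ofNat 0,.ofNat 0,.ofNat 0,.ofNat 0,.ofNat 0,.ofNat 0,.negSucc 303,.ofNat 6912,.ofNat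 1088,.negSucc 22159,.negSucc 37311,.negSucc 38335,.negSucc 38335,.negSucc 37311,.negSucc 22159,.ofNat 1088,.ofNat 6912,.negSucc 303,.ofNat 0,.ofNat 0,.ofNat 0,.ofNat 0,.ofNat 0,.ofNat 0,.ofNat 1,.negSucc 303,.ofNat 3872,.ofNat 10368,.negSucc 5426,.negSucc 22159,.negSucc 22423,.negSucc 22159,.negSucc 5426,.ofNat 10368,.ofNat 3872,.negSucc 303,.ofNat 1,.ofNat 0,.ofNat 0,.ofNat 0,.ofNat 0,.ofNat 0,.ofNat 0,.ofNat 0,.negSucc 79,.ofNat 336,.ofNat 6432,.ofNat 10368,.ofNat 1088,.ofNat 1088,.ofNat 10368,.ofNat 6432,.ofNat 336,.negSucc 79,.ofNat 0,.ofNat 0,.ofNat 0,.ofNat 0,.ofNat 0,.ofNat 0,.ofNat 0,.ofNat 0,.ofNat 0,.ofNat 0,.negSucc 99,.ofNat 336,.ofNat 3872,.ofNat 6912,.ofNat 3872,.ofNat 336,.negSucc 99,.ofNat 0,.ofNat 0,.ofNat 0,.ofNat 0,.ofNat 0,.ofNat 0,.ofNat 0,.ofNat 0,.ofNat 0,.ofNat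 0,.ofNat 0,.ofNat 0,.ofNat 0,.negSucc 79,.negSucc 303,.negSucc 303,.negSucc 79,.ofNat 0,.ofNat 0,.ofNat 0,.ofNat 0,.ofNat 0,.ofNat 0,.ofNat 0,.ofNat 0,.ofNat 0,.ofNat 0,.ofNat 0,.ofNat 0,.ofNat 0,.ofNat 0,.ofNat 0,.ofNat 0,.ofNat 1,.ofNat 0,.ofNat 0,.ofNat 0,.ofNat 0]
  | _ => []

/-- The check of the recursion in degree `n`. -/
def chkR (n : ℕ) : Bool := sumS aS bS n Fl == (Kl n).map ((-(n : ℤ)) * ·)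

/-- The check of the definition of `F_n`. -/
def chkF (n : ℕ) : Bool := Fl n == addL (Kl n) (mulT (newT (aS n) (bS n) n) [1])

/-- The check of the multiplicities. -/
def chkM (n : ℕ) : Bool :=
  (tau (fun μ => (Kl n).getD (enc (n, μ)) 0) == bS n) &&
    (tau' (fun μ => (Kl n).getD (enc (n, μ)) 0) == aS n)

/-- The characters of the new terms. -/
def chkX (n : ℕ) : Bool :=
  (tau (fun μ => ((List.finRange 8).map (fun l => if enc (n, μ) = enc (n, sw l) then 1 else 0)).sum) == 0) &&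
  (tau' (fun μ => ((List.finRange 8).map (fun l => if enc (n, μ) = enc (n, sw l) then 1 else 0)).sum) == 1) &&
  (tau (fun μ => if enc (n, μ) = enc (n, 0) then 1 else 0) == 1) &&
  (tau' (fun μ => if enc (n, μ) = enc (n, 0) then 1 else 0) == 0)

theorem chkR1 : chkR 1 = true := by decide +kernel
theorem chkR2 : chkR 2 = true := by decide +kernel
theorem chkR3 : chkR 3 = true := by decide +kernel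
theorem chkR4 : chkR 4 = true := by decide +kernel
theorem chkR5 : chkR 5 = true := by decide +kernel
theorem chkR6 : chkR 6 = true := by decide +kernel
theorem chkR7 : chkR 7 = true := by decide +kernel
theorem chkR8 : chkR 8 = true := by decide +kernel
theorem chkR9 : chkR 9 = true := by decide +kernel

theorem chkF1 : chkF 1 = true := by decide +kernel
theorem chkF2 : chkF 2 = true := by decide +kernel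
theorem chkF3 : chkF 3 = true := by decide +kernel
theorem chkF4 : chkF 4 = true := by decide +kernel
theorem chkF5 : chkF 5 = true := by decide +kernel
theorem chkF6 : chkF 6 = true := by decide +kernel
theorem chkF7 : chkF 7 = true := by decide +kernel
theorem chkF8 : chkF 8 = true := by decide +kernel

theorem chkM_all : ∀ n ∈ Finset.Icc 2 9, chkM n = true := by decide +kernel

theorem chkX_all : ∀ n ∈ Finset.Icc 2 9, chkX n = true := by decide +kernel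

end Pool.Agent.K7.H90.ABG
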