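import Pool.Agent.K7.H90.ABG.H1
import Pool.Agent.K7.H90.ABG.LogDer
import Pool.Agent.K7.H90.ABG.Tab

/-!
# Euler characteristics and the recursion for the dimensions
-/

namespace Pool.Agent.K7.H90.ABG

set_option linter.unusedSectionVars false
set_option linter.unusedSimpArgs false

open Polynomial

theorem toP_foldr {ι : Type*} (g : ι → List ℤ) (z : List ℤ) (L : List ι) :
    toP (L.foldr (fun i acc => addL (g i) acc) z) = (L.map (fun i => toP (g i))).sum + toP z := by
  induction L with
  | nil => simp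
  | cons i L ih => rw [List.foldr_cons, toP_add, ih, List.map_cons, List.sum_cons, add_assoc]

theorem sum_map_range {M : Type*} [AddCommMonoid M] (f : ℕ → M) (n : ℕ) :
    ((List.range n).map f).sum = ∑ i ∈ Finset.range n, f i := by
  induction n with
  | zero => simp
  | succ n ih => rw [List.range_succ, List.map_append, List.sum_append, ih, Finset.sum_range_succ]; simp

theorem sum_map_fin {M : Type*} [AddCommMonoid M] (f : Fin 8 → M) :
    ((List.finRange 8).map f).sum = ∑ i, f i := by
  rw [← List.ofFn_eq_map, List.sum_ofFn]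

theorem toP_sumS (a b : ℕ → ℤ) (n : ℕ) (F : ℕ → List ℤ) : toP (sumS a b n F) =
    ∑ i ∈ Finset.range (n - 1), evT (termsL a b (i + 1) (i + 1)) * toP (F (n - 1 - i))
      + evT (termsL a b n (n - 1)) := by
  rw [sumS, toP_foldr, sum_map_range, toP_mulT]
  congr 1
  · exact Finset.sum_congr rfl (fun i _ => toP_mulT _ _)
  · simp [toP]

theorem evT_append (l m : List (ℤ × ℕ)) : evT (l ++ m) = evT l + evT m := by
  simp [evT]

theorem evT_termD (a b : ℕ → ℤ) (m d : ℕ) (h : d ∣ m) : evT (termD a b m d) =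
    (d : ℤ[X]) * (C (a d) * (∑ l : Fin 8, X ^ (enc (d, sw l) * (m / d)))
      + C (b d) * X ^ (enc (d, 0) * (m / d))) := by
  rw [termD, if_pos h, evT_append]
  simp only [evT, List.map_map, List.map_cons, List.map_nil, List.sum_cons, List.sum_nil, add_zero]
  rw [sum_map_fin]
  simp only [Function.comp_apply, C_mul, Finset.mul_sum, mul_add]
  simp only [mul_assoc, eq_intCast, Int.cast_natCast]

theorem evT_termD' (a b : ℕ → ℤ) (m d : ℕ) (h : ¬ d ∣ m) : evT (termD a b m d) = 0 := by
  rw [termD, if_neg h]; simp [evT]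

theorem evT_newT (x y : ℤ) (n : ℕ) : evT (newT x y n) =
    - (C x * (∑ l : Fin 8, X ^ (enc (n, sw l))) + C y * X ^ (enc (n, 0))) := by
  rw [newT, evT_append]
  simp only [evT, List.map_map, List.map_cons, List.map_nil, List.sum_cons, List.sum_nil, add_zero]
  rw [sum_map_fin]
  simp only [Function.comp_apply, C_neg, Finset.mul_sum]
  rw [neg_add, ← Finset.sum_neg_distrib]
  congr 1
  · exact Finset.sum_congr rfl (fun l _ => by ring)
  · ring

theorem evT_termsL (a b : ℕ → ℤ) (m D : ℕ) : evT (termsL a b m D) =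
    ∑ d ∈ Finset.range D, evT (termD a b m (d + 1)) := by
  induction D with
  | zero => simp [termsL, evT]
  | succ D ih => rw [termsL, evT_append, ih, Finset.sum_range_succ, add_comm]

theorem termsL_congr {a b a' b' : ℕ → ℤ} (m D : ℕ)
    (h : ∀ d, 1 ≤ d → d ≤ D → a d = a' d ∧ b d = b' d) : termsL a b m D = termsL a' b' m D := by
  induction D with
  | zero => rfl
  | succ D ih =>
    rw [termsL, termsL, ih (fun d h1 h2 => h d h1 (by omega)), termD, termD,
      (h (D + 1) (by omega) le_rfl).1, (h (D + 1) (by omega) le_rfl).2]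

namespace GrData

variable {k A J J' : Type*} [Field k] [CharZero k] [NonUnitalNonAssocRing A] [Module k A]
  [IsScalarTower k A A] [SMulCommClass k A A] (G : GrData k A J J')

/-- The number of basis elements of `A` in degree `n`. -/
noncomputable def na (n : ℕ) : ℕ := (G.finA n).toFinset.card

/-- The number of basis elements of `B(A)` in degree `n`. -/
noncomputable def nb (n : ℕ) : ℕ := (G.finB n).toFinset.card

theorem sum_In {M : Type*} [AddCommMonoid M] (N : ℕ) (g : ℕ × (ℤ × ℤ) → M) :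
    ∑ i ∈ G.In N, g (G.gL i) = ∑ d ∈ Finset.range (N + 1),
      (G.na d • ∑ l : Fin 8, g (d, sw l) + G.nb d • g (d, 0)) := by
  classical
  rw [← Finset.sum_fiberwise_of_maps_to (s := G.In N) (t := Finset.range (N + 1))
    (g := fun i => (G.gL i).1) (fun i hi => by
      rw [Finset.mem_range]; have := G.mem_In.1 hi; omega)]
  refine Finset.sum_congr rfl (fun d hd => ?_)
  have hd' : d ≤ N := by rw [Finset.mem_range] at hd; omega
  have e : (G.In N).filter (fun i => (G.gL i).1 = d) =
      ((Finset.univ : Finset (Fin 8)) ×ˢ (G.finA d).toFinset).disjSum (G.finB d).toFinset := by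
    ext i
    rcases i with ⟨l, j⟩ | j
    · simp only [Finset.mem_filter, mem_In, Finset.inl_mem_disjSum, Finset.mem_product,
        Finset.mem_univ, true_and, Set.Finite.mem_toFinset, Set.mem_ofPred_eq]
      change G.dA j ≤ N ∧ G.dA j = d ↔ G.dA j = d
      exact ⟨fun h => h.2, fun h => ⟨by omega, h⟩⟩
    · simp only [Finset.mem_filter, mem_In, Finset.inr_mem_disjSum,
        Set.Finite.mem_toFinset, Set.mem_ofPred_eq]
      change G.dB j ≤ N ∧ G.dB j = d ↔ G.dB j = d
      exact ⟨fun h => h.2, fun h => ⟨by omega, h⟩⟩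
  rw [e, Finset.sum_disjSum, Finset.sum_product]
  congr 1
  · rw [Finset.smul_sum]
    refine Finset.sum_congr rfl (fun l _ => ?_)
    have : ∀ j ∈ (G.finA d).toFinset, g (G.gL (Sum.inl (l, j))) = g (d, sw l) := by
      intro j hj
      have : G.dA j = d := by simpa using hj
      change g (G.dA j, sw l) = _
      rw [this]
    rw [Finset.sum_congr rfl this, Finset.sum_const, na]
  · have : ∀ j ∈ (G.finB d).toFinset, g (G.gL (Sum.inr j)) = g (d, 0) := by
      intro j hj
      have : G.dB j = d := by simpa using hj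
      change g (G.dB j, 0) = _
      rw [this]
    rw [Finset.sum_congr rfl this, Finset.sum_const, nb]

/-- The monomial of a basis element. -/
noncomputable def cX (i : (Fin 8 × J) ⊕ J') : ℤ[X] := X ^ (enc (G.gL i))

/-- The coefficient of `T^n` of the product. -/
noncomputable def FF (N n : ℕ) : ℤ[X] :=
  PowerSeries.coeff n (PP (fun i => (G.gL i).1) G.cX (G.In N))

theorem FF_zero (N : ℕ) : G.FF N 0 = 1 := by
  rw [FF, PowerSeries.coeff_zero_eq_constantCoeff_apply, PP, map_prod]
  apply Finset.prod_eq_one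
  intro i _
  have h := (G.gL_bound i).1
  rw [map_sub, map_one, ← PowerSeries.coeff_zero_eq_constantCoeff_apply,
    PowerSeries.coeff_monomial, if_neg (by omega), sub_zero]

/-- The contribution of a label to the logarithmic derivative. -/
noncomputable def gC (m : ℕ) (γ : ℕ × (ℤ × ℤ)) : ℤ[X] :=
  if 1 ≤ m ∧ γ.1 ∣ m then ((γ.1 : ℤ[X])) * (X ^ (enc γ)) ^ (m / γ.1) else 0

theorem gC_pos {m : ℕ} (hm : 1 ≤ m) {d : ℕ} (hd : d ∣ m) (ν : ℤ × ℤ) :
    gC m (d, ν) = (d : ℤ[X]) * X ^ (enc (d, ν) * (m / d)) := by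
  rw [gC, if_pos ⟨hm, hd⟩, ← pow_mul]

theorem gC_neg {m : ℕ} {d : ℕ} (hd : ¬ d ∣ m) (ν : ℤ × ℤ) : gC m (d, ν) = 0 := by
  rw [gC, if_neg (fun h => hd h.2)]

theorem gC_term {m : ℕ} (hm : 1 ≤ m) (d : ℕ) :
    G.na d • ∑ l : Fin 8, gC m (d, sw l) + G.nb d • gC m (d, 0) =
      evT (termD (fun n => (G.na n : ℤ)) (fun n => (G.nb n : ℤ)) m d) := by
  by_cases hd : d ∣ m
  · rw [evT_termD _ _ _ _ hd, gC_pos hm hd]
    simp_rw [gC_pos hm hd]
    rw [← Finset.mul_sum, nsmul_eq_mul, nsmul_eq_mul]
    simp only [eq_intCast, Int.cast_natCast]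
    ring
  · rw [evT_termD' _ _ _ _ hd, gC_neg hd]
    simp_rw [gC_neg hd]
    simp

theorem CC_eq {N m : ℕ} (hm : 1 ≤ m) (hmN : m ≤ N) :
    CC (fun i => (G.gL i).1) G.cX (G.In N) m =
      evT (termsL (fun n => (G.na n : ℤ)) (fun n => (G.nb n : ℤ)) m m) := by
  have h := G.sum_In N (gC m)
  have h' : CC (fun i => (G.gL i).1) G.cX (G.In N) m = ∑ i ∈ G.In N, gC m (G.gL i) := rfl
  rw [h', h, evT_termsL]
  rw [Finset.sum_congr rfl (fun d _ => G.gC_term hm d), Finset.sum_range_succ',
    evT_termD' _ _ m 0 (by omega), add_zero]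
  symm
  apply Finset.sum_subset
  · intro x hx; rw [Finset.mem_range] at hx ⊢; omega
  · intro d _ hd
    apply evT_termD'
    intro h'
    have := Nat.le_of_dvd (by omega) h'
    rw [Finset.mem_range] at hd; omega

/-- The recursion, before the dimensions in degree `n` are known. -/
theorem FF_step {N n : ℕ} (hn : 1 ≤ n) (hnN : n ≤ N)
    (hF : ∀ m, m < n → G.FF N m = toP (Fl m))
    (hab : ∀ m, 1 ≤ m → m < n → (G.na m : ℤ) = aS m ∧ (G.nb m : ℤ) = bS m)
    (hc : chkR n = true) :
    G.FF N n = toP (Kl n) + evT (newT (G.na n) (G.nb n) n) := by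
  have hrec := PP_rec (fun i => (G.gL i).1) G.cX (G.In N) (fun i _ => (G.gL_bound i).1) n
  have hCC0 : CC (fun i => (G.gL i).1) G.cX (G.In N) 0 = 0 := by simp [CC]
  have h1 : ∑ p ∈ Finset.HasAntidiagonal.antidiagonal n,
      CC (fun i => (G.gL i).1) G.cX (G.In N) p.1 * PowerSeries.coeff p.2
        (PP (fun i => (G.gL i).1) G.cX (G.In N)) =
      ∑ i ∈ Finset.range (n - 1), evT (termsL aS bS (i + 1) (i + 1)) * toP (Fl (n - 1 - i))
        + evT (termsL (fun n => (G.na n : ℤ)) (fun n => (G.nb n : ℤ)) n n) := by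
    have := Finset.Nat.sum_antidiagonal_eq_sum_range_succ_mk (fun p : ℕ × ℕ =>
      CC (fun i => (G.gL i).1) G.cX (G.In N) p.1 * PowerSeries.coeff p.2
        (PP (fun i => (G.gL i).1) G.cX (G.In N))) n
    rw [this, Finset.sum_range_succ', hCC0, zero_mul, add_zero]
    obtain ⟨m, rfl⟩ : ∃ m, n = m + 1 := ⟨n - 1, by omega⟩
    rw [Finset.sum_range_succ, Nat.add_sub_cancel]
    congr 1
    · refine Finset.sum_congr rfl (fun i hi => ?_)
      rw [Finset.mem_range] at hi
      have e1 : m + 1 - (i + 1) = m - i := by omega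
      have e2 : PowerSeries.coeff (m + 1 - (i + 1)) (PP (fun i => (G.gL i).1) G.cX (G.In N)) =
          toP (Fl (m - i)) := by
        rw [e1]; exact hF _ (by omega)
      simp only
      rw [G.CC_eq (by omega) (by omega), e2]
      congr 2
      exact termsL_congr _ _ (fun d h1 h2 => hab d h1 (by omega))
    · simp only
      have e2 : PowerSeries.coeff (m + 1 - (m + 1)) (PP (fun i => (G.gL i).1) G.cX (G.In N)) =
          1 := by
        rw [Nat.sub_self]; exact G.FF_zero N
      rw [G.CC_eq (by omega) hnN, e2, mul_one]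
  rw [h1] at hrec
  have h2 : evT (termsL (fun n => (G.na n : ℤ)) (fun n => (G.nb n : ℤ)) n n) =
      - ((n : ℤ[X]) * evT (newT (G.na n) (G.nb n) n)) + evT (termsL aS bS n (n - 1)) := by
    obtain ⟨m, rfl⟩ : ∃ m, n = m + 1 := ⟨n - 1, by omega⟩
    rw [termsL, evT_append, evT_termD _ _ _ _ dvd_rfl, evT_newT, Nat.add_sub_cancel,
      Nat.div_self (by omega),
      termsL_congr (a' := aS) (b' := bS) (m + 1) m (fun d h1 h2 => hab d h1 (by omega))]
    simp only [mul_one]
    ring
  have h3 : toP (sumS aS bS n Fl) = - ((n : ℤ[X]) * toP (Kl n)) := by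
    have : sumS aS bS n Fl = (Kl n).map ((-(n : ℤ)) * ·) := by
      unfold chkR at hc
      exact eq_of_beq hc
    rw [this, toP_smul]
    simp
  rw [toP_sumS] at h3
  rw [h2, ← add_assoc, add_right_comm, h3] at hrec
  have hn0 : (n : ℤ[X]) ≠ 0 := by
    rw [Ne, Nat.cast_eq_zero]; omega
  apply mul_left_cancel₀ hn0
  change (n : ℤ[X]) * G.FF N n = _ at hrec
  rw [hrec]
  ring

theorem FF_known {N n : ℕ} (hFn : G.FF N n = toP (Kl n) + evT (newT (G.na n) (G.nb n) n))
    (ha : (G.na n : ℤ) = aS n) (hb : (G.nb n : ℤ) = bS n) (hc : chkF n = true) :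
    G.FF N n = toP (Fl n) := by
  have : Fl n = addL (Kl n) (mulT (newT (aS n) (bS n) n) [1]) := by
    unfold chkF at hc
    exact eq_of_beq hc
  rw [this, toP_add, toP_mulT, hFn, ha, hb]
  simp [toP]

end GrData

end Pool.Agent.K7.H90.ABG
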