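import Pool.Agent.K7.H90.ABG.Count

/-!
# The numerical contradiction
-/

namespace Pool.Agent.K7.H90.ABG

set_option linter.unusedSectionVars false
set_option linter.unusedSimpArgs false

open Polynomial

namespace GrData

variable {k A J J' : Type*} [Field k] [CharZero k] [NonUnitalNonAssocRing A] [Module k A]
  [IsScalarTower k A A] [SMulCommClass k A A] (G : GrData k A J J')

/-- The Euler number of a label. -/
noncomputable def eul (N n : ℕ) (μ : ℤ × ℤ) : ℤ :=
  ∑ S ∈ (G.In N).powerset, if ∑ i ∈ S, G.gL i = (n, μ) then (-1 : ℤ) ^ S.card else 0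

theorem enc_cast (i : (Fin 8 × J) ⊕ J') : (enc (G.gL i) : ℤ) =
    20 * ((G.gL i).1 : ℤ) + 19 * (G.gL i).2.1 + (G.gL i).2.2 := by
  have h := G.gL_bound i
  have h1 := abs_le.1 h.2.1
  have h2 := abs_le.1 h.2.2
  rw [enc, Int.toNat_of_nonneg]
  linarith

theorem enc_sum (S : Finset ((Fin 8 × J) ⊕ J')) : ((∑ i ∈ S, enc (G.gL i) : ℕ) : ℤ) =
    20 * ((∑ i ∈ S, G.gL i).1 : ℤ) + 19 * (∑ i ∈ S, G.gL i).2.1 + (∑ i ∈ S, G.gL i).2.2 := by
  classical
  induction S using Finset.induction_on with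
  | empty => simp
  | insert i S h ih =>
    rw [Finset.sum_insert h, Finset.sum_insert h]
    simp only [Prod.fst_add, Prod.snd_add]
    push_cast at ih ⊢
    rw [ih, G.enc_cast]
    ring

theorem FF_coeff {N n : ℕ} (hn : 2 ≤ n) (hn9 : n ≤ 9) {μ : ℤ × ℤ} (h1 : -1 ≤ μ.1)
    (h3 : -3 ≤ μ.2) (h4 : μ.2 ≤ 3) : (G.FF N n).coeff (enc (n, μ)) = G.eul N n μ := by
  have hμ : (enc (n, μ) : ℤ) = 20 * (n : ℤ) + 19 * μ.1 + μ.2 := by
    rw [enc, Int.toNat_of_nonneg]
    simp only
    omega
  rw [FF, PP_expand, map_sum, finsetSum_coeff, eul]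
  refine Finset.sum_congr rfl (fun S _ => ?_)
  have e1 := G.enc_sum S
  have hb := G.sum_bound S
  have hd : ∑ i ∈ S, (G.gL i).1 = (∑ i ∈ S, G.gL i).1 := Prod.fst_sum.symm
  rw [PowerSeries.coeff_monomial, hd]
  simp only [cX]
  rw [Finset.prod_pow_eq_pow_sum]
  have hC : ((-1 : ℤ[X]) ^ S.card) = C ((-1) ^ S.card) := by simp
  by_cases h : n = (∑ i ∈ S, G.gL i).1
  · rw [if_pos h, hC, coeff_C_mul_X_pow]
    rw [← h] at hb e1
    have hb1 := abs_le.1 hb.1
    have hb2 := abs_le.1 hb.2.1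
    have hiff : enc (n, μ) = ∑ i ∈ S, enc (G.gL i) ↔ ∑ i ∈ S, G.gL i = (n, μ) := by
      constructor
      · intro h'
        have h'' : (enc (n, μ) : ℤ) = ((∑ i ∈ S, enc (G.gL i) : ℕ) : ℤ) := by rw [h']
        rw [hμ, e1] at h''
        have q1 : (∑ i ∈ S, G.gL i).2.1 = μ.1 := by omega
        have q2 : (∑ i ∈ S, G.gL i).2.2 = μ.2 := by omega
        exact Prod.ext h.symm (Prod.ext q1 q2)
      · intro h'
        rw [h'] at e1
        have : (enc (n, μ) : ℤ) = ((∑ i ∈ S, enc (G.gL i) : ℕ) : ℤ) := by rw [hμ, e1]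
        exact_mod_cast this
    by_cases h' : enc (n, μ) = ∑ i ∈ S, enc (G.gL i)
    · rw [if_pos h', if_pos (hiff.1 h')]
    · rw [if_neg h', if_neg (fun h'' => h' (hiff.2 h''))]
  · rw [if_neg h, coeff_zero, if_neg]
    intro h'
    apply h
    rw [h']

variable [Fact (IsAlt A)] [LinearOrder ((Fin 8 × J) ⊕ J')]

theorem eul_eq {N n : ℕ} (hnN : n ≤ N) (μ : ℤ × ℤ) :
    ∑ m ∈ Finset.range (n + 1), (-1 : ℤ) ^ m * (Module.finrank k ((G.extFam m n).W μ) : ℤ) =
      G.eul N n μ := by
  classical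
  have h1 : ∀ m, (Module.finrank k ((G.extFam m n).W μ) : ℤ) =
      ∑ S ∈ (G.In N).powerset, if lab G.gL S = (m, (n, μ)) then (1 : ℤ) else 0 := by
    intro m
    have e := finrank_piece G.bL.ExteriorAlgebra (lab G.gL) (G.finLab m n μ)
    change Module.finrank k ((G.extFam m n).W μ) = _ at e
    rw [e]
    have e2 : (G.finLab m n μ).toFinset =
        (G.In N).powerset.filter (fun S => lab G.gL S = (m, (n, μ))) := by
      ext S
      rw [Set.Finite.mem_toFinset, Finset.mem_filter]
      constructor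
      · intro h
        refine ⟨?_, h⟩
        have h2 := G.sub_In (Prod.mk.inj (show lab G.gL S = (m, (n, μ)) from h)).2
        rw [Finset.mem_powerset] at h2 ⊢
        intro i hi
        have := G.mem_In.1 (h2 hi)
        exact G.mem_In.2 (by omega)
      · intro h; exact h.2
    rw [e2, Finset.card_filter]
    push_cast
    rfl
  simp_rw [h1, Finset.mul_sum]
  rw [Finset.sum_comm, eul]
  refine Finset.sum_congr rfl (fun S _ => ?_)
  by_cases h : ∑ i ∈ S, G.gL i = (n, μ)
  · rw [if_pos h]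
    have hb := (G.sum_bound S).2.2
    rw [h] at hb
    simp only at hb
    rw [Finset.sum_eq_single S.card]
    · rw [if_pos (by rw [lab, h]), mul_one]
    · intro m _ hm
      rw [if_neg, mul_zero]
      intro h'
      exact hm (Prod.mk.inj h').1.symm
    · intro h'
      rw [Finset.mem_range] at h'
      omega
  · rw [if_neg h]
    apply Finset.sum_eq_zero
    intro m _
    rw [if_neg, mul_zero]
    intro h'
    exact h (Prod.mk.inj h').2

theorem tau_triv {N n : ℕ} (hn : 2 ≤ n) (hnN : n ≤ N)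
    (hT : ∀ m, 2 ≤ m → m ≤ n → NoTriv k A m) :
    tau (G.eul N n) = 0 := by
  have h := G.alt_triv hn (G.h1van hn) hT
  refine Eq.trans ?_ h
  rw [tau, ← G.eul_eq hnN, ← G.eul_eq hnN, ← G.eul_eq hnN, ← G.eul_eq hnN, ← G.eul_eq hnN,
    ← G.eul_eq hnN, ← Finset.sum_sub_distrib, ← Finset.sum_sub_distrib,
    ← Finset.sum_add_distrib, ← Finset.sum_add_distrib, ← Finset.sum_sub_distrib]
  refine Finset.sum_congr rfl (fun m _ => ?_)
  rw [(G.extFam m n).mult_triv]
  ring

theorem tau_adj {N n : ℕ} (hn : 2 ≤ n) (hnN : n ≤ N)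
    (hT : ∀ m, 2 ≤ m → m ≤ n → NoAdj k A m) :
    tau' (G.eul N n) = 0 := by
  have h := G.alt_adj hn (G.h1van hn) hT
  have e : ∀ μ, ((List.finRange 8).map (fun l => G.eul N n (μ + sw l))).sum =
      ∑ m ∈ Finset.range (n + 1),
        (-1 : ℤ) ^ m * (Module.finrank k ((homFam (G.extFam m n)).W μ) : ℤ) := by
    intro μ
    rw [sum_map_fin]
    simp_rw [← G.eul_eq hnN]
    rw [Finset.sum_comm]
    refine Finset.sum_congr rfl (fun m _ => ?_)
    rw [homFam_finrank, ← Finset.mul_sum]
    push_cast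
    rfl
  refine Eq.trans ?_ h
  rw [tau', tau, e, e, e, e, e, e, ← Finset.sum_sub_distrib, ← Finset.sum_sub_distrib,
    ← Finset.sum_add_distrib, ← Finset.sum_add_distrib, ← Finset.sum_sub_distrib]
  refine Finset.sum_congr rfl (fun m _ => ?_)
  rw [(homFam (G.extFam m n)).mult_triv]
  ring

theorem coeff_formula {N n : ℕ}
    (hFn : G.FF N n = toP (Kl n) + evT (newT (G.na n) (G.nb n) n)) (e : ℕ) :
    (G.FF N n).coeff e = (Kl n).getD e 0
      - (G.na n : ℤ) * ((List.finRange 8).map (fun l => if e = enc (n, sw l) then 1 else 0)).sum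
      - (G.nb n : ℤ) * (if e = enc (n, 0) then 1 else 0) := by
  rw [hFn, coeff_add, toP_coeff, evT_newT, coeff_neg, coeff_add, coeff_C_mul, coeff_C_mul,
    finsetSum_coeff, coeff_X_pow, sum_map_fin]
  simp only [coeff_X_pow]
  ring

/-- The dimensions in degree `n` are determined. -/
theorem dims_step {N n : ℕ} (hn : 2 ≤ n) (hn9 : n ≤ 9) (hnN : n ≤ N)
    (hT : ∀ m, 2 ≤ m → m ≤ 9 → NoTriv k A m) (hA : ∀ m, 2 ≤ m → m ≤ 9 → NoAdj k A m)
    (hFn : G.FF N n = toP (Kl n) + evT (newT (G.na n) (G.nb n) n)) :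
    (G.na n : ℤ) = aS n ∧ (G.nb n : ℤ) = bS n := by
  have t1 := G.tau_triv hn hnN (fun m h1 h2 => hT m h1 (by omega))
  have t2 := G.tau_adj hn hnN (fun m h1 h2 => hA m h1 (by omega))
  have hM := chkM_all n (by rw [Finset.mem_Icc]; omega)
  have hX := chkX_all n (by rw [Finset.mem_Icc]; omega)
  simp only [chkM, chkX, Bool.and_eq_true, beq_iff_eq] at hM hX
  have c : ∀ μ : ℤ × ℤ, -1 ≤ μ.1 → -3 ≤ μ.2 → μ.2 ≤ 3 → G.eul N n μ =
      (Kl n).getD (enc (n, μ)) 0
      - (G.na n : ℤ) * ((List.finRange 8).map (fun l => if enc (n, μ) = enc (n, sw l) then 1 else 0)).sum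
      - (G.nb n : ℤ) * (if enc (n, μ) = enc (n, 0) then 1 else 0) := by
    intro μ h1 h3 h4
    rw [← G.FF_coeff hn hn9 h1 h3 h4, G.coeff_formula hFn]
  obtain ⟨⟨⟨x1, x2⟩, x3⟩, x4⟩ := hX
  obtain ⟨m1, m2⟩ := hM
  have lin : ∀ f g h e : ℤ × ℤ → ℤ, (∀ μ : ℤ × ℤ, -1 ≤ μ.1 → -3 ≤ μ.2 → μ.2 ≤ 3 →
      e μ = f μ - (G.na n : ℤ) * g μ - (G.nb n : ℤ) * h μ) →
      tau e = tau f - (G.na n : ℤ) * tau g - (G.nb n : ℤ) * tau h ∧
      tau' e = tau' f - (G.na n : ℤ) * tau' g - (G.nb n : ℤ) * tau' h := by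
    intro f g h e he
    constructor
    · simp only [tau]
      rw [he 0 (by decide) (by decide) (by decide), he (1, -1) (by decide) (by decide) (by decide),
        he (0, 1) (by decide) (by decide) (by decide), he (2, -1) (by decide) (by decide) (by decide),
        he (1, 1) (by decide) (by decide) (by decide), he (2, 0) (by decide) (by decide) (by decide)]
      ring
    · have key : ∀ ν : ℤ × ℤ, 0 ≤ ν.1 → -1 ≤ ν.2 → ν.2 ≤ 1 →
          ((List.finRange 8).map (fun l => e (ν + sw l))).sum =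
          ((List.finRange 8).map (fun l => f (ν + sw l))).sum
          - (G.na n : ℤ) * ((List.finRange 8).map (fun l => g (ν + sw l))).sum
          - (G.nb n : ℤ) * ((List.finRange 8).map (fun l => h (ν + sw l))).sum := by
        intro ν h1 h2 h3
        simp only [sum_map_fin]
        rw [Finset.mul_sum, Finset.mul_sum, ← Finset.sum_sub_distrib, ← Finset.sum_sub_distrib]
        refine Finset.sum_congr rfl (fun l _ => ?_)
        have hs : ∀ l : Fin 8, -1 ≤ (sw l).1 ∧ -1 ≤ (sw l).2 ∧ (sw l).2 ≤ 1 := by decide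
        have hl := hs l
        apply he
        · simp only [Prod.fst_add]; linarith [hl.1]
        · simp only [Prod.snd_add]; linarith [hl.2.1]
        · simp only [Prod.snd_add]; linarith [hl.2.2]
      simp only [tau', tau]
      rw [key 0 (by decide) (by decide) (by decide), key (1, -1) (by decide) (by decide) (by decide),
        key (0, 1) (by decide) (by decide) (by decide), key (2, -1) (by decide) (by decide) (by decide),
        key (1, 1) (by decide) (by decide) (by decide), key (2, 0) (by decide) (by decide) (by decide)]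
      ring
  obtain ⟨r1, r2⟩ := lin _ _ _ _ c
  rw [t1, m1, x1, x3] at r1
  rw [t2, m2, x2, x4] at r2
  constructor <;> linarith

/-- Everything up to degree eight is determined, and the dimension in degree nine. -/
theorem dim_nine (h1a : G.na 1 = 4) (h1b : G.nb 1 = 0)
    (hT : ∀ m, 2 ≤ m → m ≤ 9 → NoTriv k A m) (hA : ∀ m, 2 ≤ m → m ≤ 9 → NoAdj k A m) :
    G.na 9 = 261176 := by
  have step : ∀ n, 1 ≤ n → n ≤ 9 → (∀ m, m < n → G.FF 9 m = toP (Fl m)) →
      (∀ m, 1 ≤ m → m < n → (G.na m : ℤ) = aS m ∧ (G.nb m : ℤ) = bS m) → chkR n = true →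
      (G.FF 9 n = toP (Kl n) + evT (newT (G.na n) (G.nb n) n)) ∧
      (G.na n : ℤ) = aS n ∧ (G.nb n : ℤ) = bS n := by
    intro n hn hn9 hF hab hc
    have h1 := G.FF_step hn hn9 hF hab hc
    refine ⟨h1, ?_⟩
    rcases eq_or_lt_of_le hn with rfl | hn2
    · rw [h1a, h1b]; exact ⟨rfl, rfl⟩
    · exact G.dims_step hn2 hn9 hn9 hT hA h1
  have all : ∀ n, n ≤ 8 → (∀ m, m ≤ n → G.FF 9 m = toP (Fl m)) ∧
      (∀ m, 1 ≤ m → m ≤ n → (G.na m : ℤ) = aS m ∧ (G.nb m : ℤ) = bS m) := by
    intro n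
    induction n with
    | zero =>
      intro _
      refine ⟨fun m hm => ?_, fun m h1 h2 => by omega⟩
      have : m = 0 := by omega
      subst this
      rw [G.FF_zero]
      simp [Fl, toP]
    | succ n ih =>
      intro hn
      obtain ⟨ih1, ih2⟩ := ih (by omega)
      have hn' : n < 8 := by omega
      have hR : chkR (n + 1) = true := by
        interval_cases n
        · exact chkR1
        · exact chkR2
        · exact chkR3
        · exact chkR4
        · exact chkR5
        · exact chkR6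
        · exact chkR7
        · exact chkR8
      have hF : chkF (n + 1) = true := by
        interval_cases n
        · exact chkF1
        · exact chkF2
        · exact chkF3
        · exact chkF4
        · exact chkF5
        · exact chkF6
        · exact chkF7
        · exact chkF8
      obtain ⟨s1, s2, s3⟩ := step (n + 1) (by omega) (by omega) (fun m hm => ih1 m (by omega))
        (fun m h1 h2 => ih2 m h1 (by omega)) hR
      have s4 := G.FF_known s1 s2 s3 hF
      constructor
      · intro m hm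
        rcases Nat.lt_or_ge m (n + 1) with h | h
        · exact ih1 m (by omega)
        · have : m = n + 1 := by omega
          subst this; exact s4
      · intro m h1 hm
        rcases Nat.lt_or_ge m (n + 1) with h | h
        · exact ih2 m h1 (by omega)
        · have : m = n + 1 := by omega
          subst this; exact ⟨s2, s3⟩
  obtain ⟨a1, a2⟩ := all 8 le_rfl
  obtain ⟨_, s2, _⟩ := step 9 (by omega) le_rfl (fun m hm => a1 m (by omega))
    (fun m h1 h2 => a2 m h1 (by omega)) chkR9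
  have : (G.na 9 : ℤ) = 261176 := s2
  exact_mod_cast this

end GrData

end Pool.Agent.K7.H90.ABG
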