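import Pool.Agent.K7.H90.ABG.LB

/-!
# The weight families on the exterior algebra and on `Hom(sl₃, -)`
-/

namespace Pool.Agent.K7.H90.ABG

set_option linter.unusedSectionVars false
set_option linter.unusedSimpArgs false

open TensorProduct

namespace GrData

variable {k A J J' : Type*} [Field k] [CharZero k] [NonUnitalNonAssocRing A] [Module k A]
  [IsScalarTower k A A] [SMulCommClass k A A] (G : GrData k A J J')

theorem gL_bound (i : (Fin 8 × J) ⊕ J') :
    1 ≤ (G.gL i).1 ∧ |(G.gL i).2.1| ≤ (G.gL i).1 ∧ |(G.gL i).2.2| ≤ (G.gL i).1 := by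
  have hs : ∀ l : Fin 8, |(sw l).1| ≤ 1 ∧ |(sw l).2| ≤ 1 := by decide
  rcases i with ⟨l, j⟩ | j
  · have h := G.posA j
    have h' : (1 : ℤ) ≤ G.dA j := by exact_mod_cast h
    exact ⟨h, (hs l).1.trans h', (hs l).2.trans h'⟩
  · have h := G.posB j
    have h' : (1 : ℤ) ≤ G.dB j := by exact_mod_cast h
    refine ⟨h, ?_, ?_⟩
    · change |(0 : ℤ)| ≤ (G.dB j : ℤ); rw [abs_zero]; linarith
    · change |(0 : ℤ)| ≤ (G.dB j : ℤ); rw [abs_zero]; linarith

theorem sum_bound (S : Finset ((Fin 8 × J) ⊕ J')) :
    |(∑ i ∈ S, G.gL i).2.1| ≤ (∑ i ∈ S, G.gL i).1 ∧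
    |(∑ i ∈ S, G.gL i).2.2| ≤ (∑ i ∈ S, G.gL i).1 ∧ S.card ≤ (∑ i ∈ S, G.gL i).1 := by
  classical
  induction S using Finset.induction_on with
  | empty => simp
  | insert i S h ih =>
    rw [Finset.sum_insert h, Finset.card_insert_of_notMem h]
    have hb := G.gL_bound i
    simp only [Prod.fst_add, Prod.snd_add]
    push_cast
    refine ⟨(abs_add_le _ _).trans (add_le_add hb.2.1 ih.1),
      (abs_add_le _ _).trans (add_le_add hb.2.2 ih.2.1), ?_⟩
    have := hb.1
    have := ih.2.2
    omega

theorem mem_le {S : Finset ((Fin 8 × J) ⊕ J')} {i : (Fin 8 × J) ⊕ J'} (hi : i ∈ S) :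
    (G.gL i).1 ≤ (∑ i ∈ S, G.gL i).1 := by
  rw [Prod.fst_sum]
  exact Finset.single_le_sum (f := fun i => (G.gL i).1) (fun _ _ => Nat.zero_le _) hi

theorem finI (n : ℕ) : {i | (G.gL i).1 ≤ n}.Finite := by
  have hA : {j | G.dA j ≤ n}.Finite := by
    have : {j | G.dA j ≤ n} = ⋃ m ∈ Finset.range (n + 1), {j | G.dA j = m} := by
      ext j; simp [Nat.lt_succ_iff]
    rw [this]
    exact Set.Finite.biUnion (Finset.finite_toSet _) (fun m _ => G.finA m)
  have hB : {j | G.dB j ≤ n}.Finite := by
    have : {j | G.dB j ≤ n} = ⋃ m ∈ Finset.range (n + 1), {j | G.dB j = m} := by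
      ext j; simp [Nat.lt_succ_iff]
    rw [this]
    exact Set.Finite.biUnion (Finset.finite_toSet _) (fun m _ => G.finB m)
  have h1 : {i | (G.gL i).1 ≤ n} ⊆ (Sum.inl '' (Set.univ ×ˢ {j | G.dA j ≤ n})) ∪
      (Sum.inr '' {j | G.dB j ≤ n}) := by
    rintro (⟨l, j⟩ | j) h
    · exact Or.inl ⟨(l, j), ⟨trivial, h⟩, rfl⟩
    · exact Or.inr ⟨j, h, rfl⟩
  exact (((Set.finite_univ.prod hA).image _).union (hB.image _)).subset h1

/-- The finite set of indices of degree at most `n`. -/
noncomputable def In (n : ℕ) : Finset ((Fin 8 × J) ⊕ J') := (G.finI n).toFinset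

theorem mem_In {n : ℕ} {i : (Fin 8 × J) ⊕ J'} : i ∈ G.In n ↔ (G.gL i).1 ≤ n := by
  simp [In]

theorem sub_In {n : ℕ} {μ : ℤ × ℤ} {S : Finset ((Fin 8 × J) ⊕ J')}
    (h : ∑ i ∈ S, G.gL i = (n, μ)) : S ∈ (G.In n).powerset := by
  rw [Finset.mem_powerset]
  intro i hi
  rw [mem_In]
  have := G.mem_le hi
  rwa [h] at this

theorem finLab (m n : ℕ) (μ : ℤ × ℤ) : {S | lab G.gL S = (m, (n, μ))}.Finite := by
  apply (Finset.finite_toSet (G.In n).powerset).subset
  intro S hS
  exact G.sub_In (Prod.mk.inj hS).2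

variable [Fact (IsAlt A)] [LinearOrder ((Fin 8 × J) ⊕ J')]

/-- The weight family on the exterior algebra. -/
noncomputable def extFam (m n : ℕ) : WtFam k (ExteriorAlgebra k (AbgLie k A)) where
  E i j := der (eL i j)
  W μ := ep G.bL G.gL m (n, μ)
  comm i j p q := by
    have h : ∀ (c : Prop) [Decidable c] (T : Module.End k (AbgLie k A)),
        der (if c then T else 0) = if c then der T else 0 := by
      intro c _ T
      split_ifs
      · rfl
      · exact map_zero derL
    apply LinearMap.ext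
    intro x
    have h1 := der_comm (eL i j) (eL p q) x
    rw [LinearMap.sub_apply, Module.End.mul_apply, Module.End.mul_apply, ← h1, eL_comm,
      ← h, ← h]
    exact LinearMap.congr_fun (map_sub derL _ _) x
  shift i j μ v hv := by
    have h := der_mem G.bL G.gL (T := eL i j) (σ := (0, rt i j))
      (fun l => G.eL_piece i j (basis_mem_piece _ _ l)) hv
    have e : ((0, rt i j) : ℕ × (ℤ × ℤ)) + (n, μ) = (n, μ + rt i j) := by
      rw [Prod.mk_add_mk, zero_add, add_comm μ]
    rwa [e] at h
  diag p μ v hv := by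
    have h := eig_of_mem_piece G.bL.ExteriorAlgebra (lab G.gL) (der (eL p p))
      (fun γ => (wt p γ.2.2 : k)) (by
        intro S
        rw [der_diag G.bL (T := eL p p) (t := fun i => (wt p (G.gL i).2 : k)) (G.eL_diag p)]
        congr 1
        have : ∀ S : Finset ((Fin 8 × J) ⊕ J'),
            ∑ i ∈ S, (wt p (G.gL i).2 : k) = (wt p (∑ i ∈ S, G.gL i).2 : k) := by
          intro S
          induction S using Finset.induction_on with
          | empty => simp; fin_cases p <;> simp [wt]
          | insert i S h ih =>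
            rw [Finset.sum_insert h, Finset.sum_insert h, ih, Prod.snd_add, wt_add]
            push_cast; rfl
        exact this S) hv
    exact h
  fd μ := finite_piece _ _ (G.finLab m n μ)
  B := n
  bdd μ h := by
    change piece _ _ _ = ⊥
    rw [piece]
    have : {j | lab G.gL j = (m, (n, μ))} = ∅ := by
      rw [Set.eq_empty_iff_forall_notMem]
      intro S hS
      have hS' := (Prod.mk.inj hS).2
      have hb := G.sum_bound S
      rw [hS'] at hb
      rcases h with h | h
      · exact absurd hb.1 (not_le.2 h)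
      · exact absurd hb.2.1 (not_le.2 h)
    rw [this]
    simp

end GrData

section Hom

variable {k Λ : Type*} [Field k] [CharZero k] [AddCommGroup Λ] [Module k Λ]

theorem eS_piece (i j : Fin 3) (l : Fin 8) :
    eS (k := k) i j (sb l) ∈ piece (sb (k := k)) sw (sw l + rt i j) := by
  apply mem_piece_of_eig (sb (k := k)) sw (fun p : Fin 3 => eS p p) (fun p μ => (wt p μ : k))
    (fun p l => eS_diag p l)
  · intro γ γ' h
    have e1 : (wt 0 γ : k) = (wt 0 γ' : k) := h 0
    have e2 : (wt 1 γ : k) = (wt 1 γ' : k) := h 1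
    have h1 : wt 0 γ = wt 0 γ' := by exact_mod_cast e1
    have h2 : wt 1 γ = wt 1 γ' := by exact_mod_cast e2
    exact Prod.ext h1 h2
  · intro p
    have h := LinearMap.congr_fun (eS_comm (k := k) p p i j) (sb l)
    simp only [LinearMap.sub_apply, Module.End.mul_apply] at h
    have h1 : ∀ (c : Prop) [Decidable c] (T : Module.End k (S3 k)), (if c then T else 0) (sb l) =
        (if c then (1 : k) else 0) • T (sb l) := by
      intro c _ T; split_ifs <;> simp
    rw [h1, h1, eS_diag, map_smul] at h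
    have h2 : ((if p = i then (1 : k) else 0) • (eS (k := k) p j (sb l))) =
        (if p = i then (1 : k) else 0) • eS i j (sb l) := by
      split_ifs with h'
      · subst h'; rfl
      · simp
    have h3 : ((if j = p then (1 : k) else 0) • (eS (k := k) i p (sb l))) =
        (if j = p then (1 : k) else 0) • eS i j (sb l) := by
      split_ifs with h'
      · subst h'; rfl
      · simp
    rw [h2, h3] at h
    have h4 : (wt p (rt i j) : k) = (if p = i then (1 : k) else 0) - (if j = p then (1 : k) else 0) := by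
      rw [← wt_rt]
      push_cast
      simp only [eq_comm]
    rw [GrData.wt_add, Int.cast_add, h4]
    linear_combination (norm := module) h

/-- The `gl₃`-operators on `Hom(sl₃, Λ)`. -/
noncomputable def homE (F : WtFam k Λ) (i j : Fin 3) : Module.End k (S3 k →ₗ[k] Λ) where
  toFun φ := (F.E i j).comp φ - φ.comp (eS i j)
  map_add' φ ψ := by
    apply LinearMap.ext; intro Y
    simp only [LinearMap.sub_apply, LinearMap.comp_apply, LinearMap.add_apply, map_add]; abel
  map_smul' c φ := by
    apply LinearMap.ext; intro Y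
    simp only [LinearMap.sub_apply, LinearMap.comp_apply, LinearMap.smul_apply, map_smul,
      RingHom.id_apply, smul_sub]

theorem homE_apply (F : WtFam k Λ) (i j : Fin 3) (φ : S3 k →ₗ[k] Λ) (Y : S3 k) :
    homE F i j φ Y = F.E i j (φ Y) - φ (eS i j Y) := rfl

/-- The weight spaces of `Hom(sl₃, Λ)`. -/
def homW (F : WtFam k Λ) (μ : ℤ × ℤ) : Submodule k (S3 k →ₗ[k] Λ) where
  carrier := {φ | ∀ l, φ (sb l) ∈ F.W (μ + sw l)}
  add_mem' := fun ha hb l => Submodule.add_mem _ (ha l) (hb l)
  zero_mem' := fun l => Submodule.zero_mem _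
  smul_mem' := fun c x hx l => Submodule.smul_mem _ _ (hx l)

theorem homW_piece (F : WtFam k Λ) {μ ν : ℤ × ℤ} {φ : S3 k →ₗ[k] Λ} (hφ : φ ∈ homW F μ)
    {Y : S3 k} (hY : Y ∈ piece (sb (k := k)) sw ν) : φ Y ∈ F.W (μ + ν) := by
  induction hY using Submodule.span_induction with
  | mem y hy => obtain ⟨l, hl, rfl⟩ := hy; rw [← show sw l = ν from hl]; exact hφ l
  | zero => rw [map_zero]; exact Submodule.zero_mem _
  | add y z _ _ hy hz => rw [map_add]; exact Submodule.add_mem _ hy hz
  | smul c y _ hy => rw [map_smul]; exact Submodule.smul_mem _ _ hy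

/-- The weight space of `Hom(sl₃, Λ)` is a product of weight spaces. -/
noncomputable def homEquiv (F : WtFam k Λ) (μ : ℤ × ℤ) :
    homW F μ ≃ₗ[k] (∀ l : Fin 8, F.W (μ + sw l)) where
  toFun φ l := ⟨φ.1 (sb l), φ.2 l⟩
  invFun v := ⟨sb.constr k (fun l => (v l : Λ)), fun l => by
    rw [Module.Basis.constr_basis]; exact (v l).2⟩
  map_add' φ ψ := rfl
  map_smul' c φ := rfl
  left_inv φ := by
    apply Subtype.ext
    apply sb.ext
    intro l
    rw [Module.Basis.constr_basis]
  right_inv v := by
    funext l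
    apply Subtype.ext
    exact Module.Basis.constr_basis _ _ _ _

theorem bdd_iff (F : WtFam k Λ) (μ : ℤ × ℤ) (h : ((F.B + 1 : ℕ) : ℤ) < |μ.1| ∨ ((F.B + 1 : ℕ) : ℤ) < |μ.2|)
    (l : Fin 8) : F.W (μ + sw l) = ⊥ := by
  apply F.bdd
  have hs : ∀ l : Fin 8, |(sw l).1| ≤ 1 ∧ |(sw l).2| ≤ 1 := by decide
  simp only [Prod.fst_add, Prod.snd_add]
  have h1 := abs_le.1 (hs l).1
  have h2 := abs_le.1 (hs l).2
  push_cast at h
  rw [lt_abs, lt_abs] at h ⊢
  omega

/-- The weight family on `Hom(sl₃, Λ)`. -/
noncomputable def homFam (F : WtFam k Λ) : WtFam k (S3 k →ₗ[k] Λ) where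
  E i j := homE F i j
  W μ := homW F μ
  comm i j p q := by
    apply LinearMap.ext; intro φ
    apply LinearMap.ext; intro Y
    have h1 := LinearMap.congr_fun (F.comm i j p q) (φ Y)
    have h2 := congrArg φ (LinearMap.congr_fun (eS_comm (k := k) i j p q) Y)
    have e1 : ∀ (c : Prop) [Decidable c] (T : Module.End k Λ) (x : Λ), (if c then T else 0) x =
        if c then T x else 0 := by
      intro c _ T x; split_ifs <;> simp
    have e2 : ∀ (c : Prop) [Decidable c] (T : Module.End k (S3 k)) (x : S3 k),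
        (if c then T else 0) x = if c then T x else 0 := by
      intro c _ T x; split_ifs <;> simp
    have e3 : ∀ (c : Prop) [Decidable c] (T : Module.End k (S3 k →ₗ[k] Λ)) (x : S3 k →ₗ[k] Λ),
        (if c then T else 0) x = if c then T x else 0 := by
      intro c _ T x; split_ifs <;> simp
    have e4 : ∀ (c : Prop) [Decidable c] (x : S3 k →ₗ[k] Λ), (if c then x else 0) Y =
        if c then x Y else 0 := by
      intro c _ x; split_ifs <;> simp
    simp only [LinearMap.sub_apply, Module.End.mul_apply, map_sub, e1, e2] at h1 h2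
    simp only [LinearMap.sub_apply, Module.End.mul_apply, homE_apply, map_sub, e3, e4]
    by_cases c1 : j = p <;> by_cases c2 : q = i <;>
      simp only [c1, c2, if_true, if_false, homE_apply, map_zero, sub_zero, zero_sub] at h1 h2 ⊢ <;>
      linear_combination (norm := abel) h1 - h2
  shift i j μ φ hφ l := by
    rw [homE_apply]
    have e : μ + sw l + rt i j = μ + rt i j + sw l := by abel
    have e' : μ + (sw l + rt i j) = μ + rt i j + sw l := by abel
    refine Submodule.sub_mem _ ?_ ?_
    · rw [← e]; exact F.shift i j _ _ (hφ l)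
    · rw [← e']; exact homW_piece F hφ (eS_piece i j l)
  diag p μ φ hφ := by
    apply sb.ext
    intro l
    rw [homE_apply, LinearMap.smul_apply, F.diag p _ _ (hφ l), eS_diag, map_smul, GrData.wt_add]
    push_cast
    module
  fd μ := by
    have : ∀ l, FiniteDimensional k (F.W (μ + sw l)) := fun l => F.fd _
    exact Module.Finite.equiv (homEquiv F μ).symm
  B := F.B + 1
  bdd μ h := by
    rw [eq_bot_iff]
    intro φ hφ
    rw [Submodule.mem_bot]
    apply sb.ext
    intro l
    have := hφ l
    rw [bdd_iff F μ h l] at this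
    simpa using this

theorem homFam_finrank (F : WtFam k Λ) (μ : ℤ × ℤ) :
    Module.finrank k ((homFam F).W μ) = ∑ l : Fin 8, Module.finrank k (F.W (μ + sw l)) := by
  have : ∀ l, FiniteDimensional k (F.W (μ + sw l)) := fun l => F.fd _
  change Module.finrank k (homW F μ) = _
  rw [(homEquiv F μ).finrank_eq, Module.finrank_pi_fintype]

end Hom

end Pool.Agent.K7.H90.ABG
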