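import Pool.Agent.K7.H90.ABG.EW

/-!
# Exactness of the complexes of invariants and the Euler characteristic
-/

namespace Pool.Agent.K7.H90.ABG

set_option linter.unusedSectionVars false
set_option linter.unusedSimpArgs false

open TensorProduct

section alt

variable {k Λ : Type*} [Field k] [AddCommGroup Λ] [Module k Λ]

theorem altsum_zero (d : Λ →ₗ[k] Λ) (I : ℕ → Submodule k Λ)
    (hfd : ∀ m, FiniteDimensional k (I m)) (N : ℕ) (h0 : I 0 = ⊥) (hN : I (N + 1) = ⊥)
    (hd : ∀ m, ∀ x ∈ I (m + 1), d x ∈ I m) (hdd : ∀ x, d (d x) = 0)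
    (hex : ∀ m, 1 ≤ m → ∀ x ∈ I m, d x = 0 → ∃ y ∈ I (m + 1), d y = x) :
    ∑ m ∈ Finset.range (N + 1), (-1 : ℤ) ^ m * (Module.finrank k (I m) : ℤ) = 0 := by
  have step : ∀ m, 1 ≤ m → Module.finrank k (I m) =
      Module.finrank k ((I m).map d) + Module.finrank k ((I (m + 1)).map d) := by
    intro m hm
    have := hfd m
    have h1 := LinearMap.finrank_range_add_finrank_ker (d.domRestrict (I m))
    have h2 : LinearMap.range (d.domRestrict (I m)) = (I m).map d := by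
      ext x
      constructor
      · rintro ⟨y, rfl⟩; exact ⟨y, y.2, rfl⟩
      · rintro ⟨y, hy, rfl⟩; exact ⟨⟨y, hy⟩, rfl⟩
    have h3 : (LinearMap.ker (d.domRestrict (I m))).map (I m).subtype = (I (m + 1)).map d := by
      ext x
      constructor
      · rintro ⟨y, hy, rfl⟩
        obtain ⟨z, hz, hzy⟩ := hex m hm y y.2 (LinearMap.mem_ker.1 hy)
        exact ⟨z, hz, hzy⟩
      · rintro ⟨z, hz, rfl⟩
        refine ⟨⟨d z, hd m z hz⟩, ?_, rfl⟩
        exact hdd z
    have h4 := Submodule.finrank_map_subtype_eq (I m) (LinearMap.ker (d.domRestrict (I m)))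
    rw [h3] at h4
    rw [h2] at h1
    omega
  have tel : ∀ M, ∑ m ∈ Finset.range (M + 1), (-1 : ℤ) ^ m * (Module.finrank k (I m) : ℤ) =
      (-1) ^ M * (Module.finrank k ((I (M + 1)).map d) : ℤ) := by
    intro M
    induction M with
    | zero =>
      rw [Finset.sum_range_one, h0]
      have : (I 1).map d = ⊥ := by
        rw [eq_bot_iff]
        rintro _ ⟨y, hy, rfl⟩
        have := hd 0 y hy
        rwa [h0] at this
      rw [zero_add, this]
    | succ M ih =>
      rw [Finset.sum_range_succ, ih, step (M + 1) (by omega)]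
      push_cast
      ring
  rw [tel, hN, Submodule.map_bot, finrank_bot]
  simp

end alt

namespace GrData

variable {k A J J' : Type*} [Field k] [CharZero k] [NonUnitalNonAssocRing A] [Module k A]
  [IsScalarTower k A A] [SMulCommClass k A A] (G : GrData k A J J') [Fact (IsAlt A)]
  [LinearOrder ((Fin 8 × J) ⊕ J')]

theorem ep_le (m : ℕ) (γ : ℕ × (ℤ × ℤ)) : ep G.bL G.gL m γ ≤ ⋀[k]^m (AbgLie k A) := by
  rw [ep, piece, Submodule.span_le]
  rintro _ ⟨S, hS, rfl⟩
  have hc : S.card = m := (Prod.mk.inj hS).1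
  rw [ExteriorAlgebra.basis_apply_ofCard G.bL hc, SetLike.mem_coe,
    ← ExteriorAlgebra.ιMulti_span_fixedDegree]
  exact Submodule.subset_span ⟨_, rfl⟩

theorem bd_ep {m : ℕ} {γ : ℕ × (ℤ × ℤ)} {x : ExteriorAlgebra k (AbgLie k A)}
    (hx : x ∈ ep G.bL G.gL (m + 1) γ) : bd x ∈ ep G.bL G.gL m γ := by
  have h := bd_mem G.bL G.gL G.lie_bL (n := m + 1) (γ := γ) hx
  rw [Nat.add_sub_cancel] at h
  exact h

theorem proj_ep {m : ℕ} (hm : 1 ≤ m) {γ : ℕ × (ℤ × ℤ)} {z : ExteriorAlgebra k (AbgLie k A)}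
    (hz : z ∈ ep G.bL G.gL m γ) (h : z ∈ LinearMap.range (bd (k := k) (L := AbgLie k A))) :
    ∃ y ∈ ep G.bL G.gL (m + 1) γ, bd y = z := by
  obtain ⟨y, rfl⟩ := h
  refine ⟨pr G.bL.ExteriorAlgebra (lab G.gL) (m + 1, γ) y, pr_mem _ _ _ _, ?_⟩
  have h1 := pr_comm G.bL.ExteriorAlgebra (lab G.gL) G.bL.ExteriorAlgebra (lab G.gL)
    (f := bd) (fun p => (p.1 - 1, p.2)) (fun S => by
      have := bd_mem G.bL G.gL G.lie_bL (x := G.bL.ExteriorAlgebra S) (n := (lab G.gL S).1)
        (γ := (lab G.gL S).2) (basis_mem_piece _ _ S)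
      exact this) (γ := (m + 1, γ)) (by
      intro S hS
      have e1 : (lab G.gL S).1 - 1 = m := by
        have := congrArg Prod.fst hS
        simpa using this
      have e2 : (lab G.gL S).2 = γ := congrArg Prod.snd hS
      exact Prod.ext (by simp only; omega) e2) y
  rw [← h1]
  exact pr_of_mem _ _ hz

/-- The statement that `H_m` has no trivial component. -/
def NoTriv (k A : Type*) [Field k] [CharZero k] [NonUnitalNonAssocRing A] [Module k A]
    [IsScalarTower k A A] [SMulCommClass k A A] [Fact (IsAlt A)] (m : ℕ) : Prop :=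
  ∀ z ∈ ⋀[k]^m (AbgLie k A), bd z = 0 →
    (∀ X : S3 k, der (glL X.1) z ∈ (⋀[k]^(m + 1) (AbgLie k A)).map bd) →
    z ∈ (⋀[k]^(m + 1) (AbgLie k A)).map bd

/-- The statement that `H_m` has no adjoint component. -/
def NoAdj (k A : Type*) [Field k] [CharZero k] [NonUnitalNonAssocRing A] [Module k A]
    [IsScalarTower k A A] [SMulCommClass k A A] [Fact (IsAlt A)] (m : ℕ) : Prop :=
  ∀ φ : S3 k →ₗ[k] ExteriorAlgebra k (AbgLie k A), (∀ Y, φ Y ∈ ⋀[k]^m (AbgLie k A)) →
    (∀ Y, bd (φ Y) = 0) →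
    (∀ X Y : S3 k, der (glL X.1) (φ Y) - φ (brS X Y) ∈ (⋀[k]^(m + 1) (AbgLie k A)).map bd) →
    ∀ Y, φ Y ∈ (⋀[k]^(m + 1) (AbgLie k A)).map bd

theorem all_gl {N : Type*} [AddCommGroup N] [Module k N] (f g : Matrix (Fin 3) (Fin 3) k →ₗ[k] N)
    (h : ∀ i j, f (Matrix.single i j 1) = g (Matrix.single i j 1)) (M : Matrix (Fin 3) (Fin 3) k) :
    f M = g M := by
  rw [Matrix.matrix_eq_sum_single M, map_sum, map_sum]
  refine Finset.sum_congr rfl (fun i _ => ?_)
  rw [map_sum, map_sum]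
  refine Finset.sum_congr rfl (fun j _ => ?_)
  have : Matrix.single i j (M i j) = (M i j) • Matrix.single i j (1 : k) := by
    rw [Matrix.smul_single, smul_eq_mul, mul_one]
  rw [this, map_smul, map_smul, h]

theorem kill_of_inv {x : ExteriorAlgebra k (AbgLie k A)}
    (h : ∀ i j, der (eL i j) x = 0) (M : Matrix (Fin 3) (Fin 3) k) : der (glL M) x = 0 := by
  have := all_gl ((LinearMap.applyₗ x).comp ((derL (k := k) (M := AbgLie k A)).comp glLL)) 0
    (fun i j => h i j) M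
  exact this

theorem homkill_of_inv {φ : S3 k →ₗ[k] ExteriorAlgebra k (AbgLie k A)}
    (h : ∀ i j Y, der (eL i j) (φ Y) = φ (eS i j Y)) (M : Matrix (Fin 3) (Fin 3) k) (Y : S3 k) :
    der (glL M) (φ Y) = φ (adM M Y) := by
  have := all_gl ((LinearMap.applyₗ (φ Y)).comp ((derL (k := k) (M := AbgLie k A)).comp glLL))
    (φ.comp ((LinearMap.applyₗ Y).comp adM))
    (fun i j => h i j Y) M
  exact this

/-- The vanishing of `H₁` in degree `n`. -/
def H1van (n : ℕ) : Prop := ∀ μ, ∀ z ∈ ep G.bL G.gL 1 (n, μ),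
  z ∈ LinearMap.range (bd (k := k) (L := AbgLie k A))

theorem bd_derL (i j : Fin 3) (v : ExteriorAlgebra k (AbgLie k A)) :
    bd (der (eL i j) v) = der (eL i j) (bd v) :=
  bd_der _ (fun x y => glL_lie _ x y) v

theorem exact_inv {n : ℕ} (h1 : G.H1van n) (m : ℕ) (hT : 2 ≤ m → NoTriv k A m) (hm : 1 ≤ m)
    (x : ExteriorAlgebra k (AbgLie k A)) (hx : x ∈ (G.extFam m n).Inv) (hbx : bd x = 0) :
    ∃ y ∈ (G.extFam (m + 1) n).Inv, bd y = x := by
  have hr : x ∈ LinearMap.range (bd (k := k) (L := AbgLie k A)) := by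
    rcases eq_or_lt_of_le hm with rfl | hm2
    · exact h1 0 x hx.1
    · have := hT hm2 x (G.ep_le m _ hx.1) hbx (fun X => by
        rw [kill_of_inv hx.2]; exact Submodule.zero_mem _)
      obtain ⟨y, _, hy⟩ := this
      exact ⟨y, hy⟩
  obtain ⟨y, hy, rfl⟩ := G.proj_ep hm hx.1 hr
  exact WtFam.lift_inv (G.extFam (m + 1) n) (G.extFam m n) bd
    (fun i j v => bd_derL i j v) (fun v hv => G.bd_ep hv) hy hx

/-- The differential on `Hom(sl₃, Λ)`. -/
noncomputable def bdH (k A : Type*) [Field k] [CharZero k] [NonUnitalNonAssocRing A] [Module k A]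
    [IsScalarTower k A A] [SMulCommClass k A A] [Fact (IsAlt A)] :
    (S3 k →ₗ[k] ExteriorAlgebra k (AbgLie k A)) →ₗ[k]
      (S3 k →ₗ[k] ExteriorAlgebra k (AbgLie k A)) where
  toFun φ := bd.comp φ
  map_add' φ ψ := by apply LinearMap.ext; intro Y; simp
  map_smul' c φ := by apply LinearMap.ext; intro Y; simp

theorem bdH_apply (φ : S3 k →ₗ[k] ExteriorAlgebra k (AbgLie k A)) (Y : S3 k) :
    bdH k A φ Y = bd (φ Y) := rfl

theorem bdH_mem {m n : ℕ} {μ : ℤ × ℤ} {φ : S3 k →ₗ[k] ExteriorAlgebra k (AbgLie k A)}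
    (hφ : φ ∈ (homFam (G.extFam (m + 1) n)).W μ) : bdH k A φ ∈ (homFam (G.extFam m n)).W μ :=
  fun l => G.bd_ep (hφ l)

theorem bdH_E (F F' : WtFam k (ExteriorAlgebra k (AbgLie k A))) (hF : ∀ i j, F.E i j = der (eL i j))
    (hF' : ∀ i j, F'.E i j = der (eL i j)) (i j : Fin 3)
    (φ : S3 k →ₗ[k] ExteriorAlgebra k (AbgLie k A)) :
    bdH k A ((homFam F).E i j φ) = (homFam F').E i j (bdH k A φ) := by
  apply LinearMap.ext
  intro Y
  change bd (F.E i j (φ Y) - φ (eS i j Y)) = F'.E i j (bd (φ Y)) - bd (φ (eS i j Y))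
  rw [map_sub, hF, hF', bd_derL]

theorem exact_hom {n : ℕ} (h1 : G.H1van n) (m : ℕ) (hT : 2 ≤ m → NoAdj k A m) (hm : 1 ≤ m)
    (φ : S3 k →ₗ[k] ExteriorAlgebra k (AbgLie k A)) (hφ : φ ∈ (homFam (G.extFam m n)).Inv)
    (hbφ : bdH k A φ = 0) :
    ∃ ψ ∈ (homFam (G.extFam (m + 1) n)).Inv, bdH k A ψ = φ := by
  have hb : ∀ Y, bd (φ Y) = 0 := fun Y => LinearMap.congr_fun hbφ Y
  have hmem : ∀ Y, φ Y ∈ ⋀[k]^m (AbgLie k A) := by
    intro Y
    refine basis_ind sb (P := fun Y => φ Y ∈ ⋀[k]^m (AbgLie k A)) ?_ ?_ ?_ ?_ Y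
    · intro l; exact G.ep_le m _ (hφ.1 l)
    · rw [map_zero]; exact Submodule.zero_mem _
    · intro x y hx hy; rw [map_add]; exact Submodule.add_mem _ hx hy
    · intro c x hx; rw [map_smul]; exact Submodule.smul_mem _ _ hx
  have hE : ∀ i j Y, der (eL i j) (φ Y) = φ (eS i j Y) := by
    intro i j Y
    exact sub_eq_zero.1 (LinearMap.congr_fun (hφ.2 i j) Y)
  have hr : ∀ l, φ (sb l) ∈ LinearMap.range (bd (k := k) (L := AbgLie k A)) := by
    intro l
    rcases eq_or_lt_of_le hm with rfl | hm2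
    · exact h1 _ _ (hφ.1 l)
    · have := hT hm2 φ hmem hb (fun X Y => by
        rw [homkill_of_inv hE]
        have : adM X.1 Y = brS X Y := S3.ext rfl
        rw [this, sub_self]; exact Submodule.zero_mem _) (sb l)
      obtain ⟨y, _, hy⟩ := this
      exact ⟨y, hy⟩
  have hy : ∀ l, ∃ y ∈ ep G.bL G.gL (m + 1) (n, 0 + sw l), bd y = φ (sb l) :=
    fun l => G.proj_ep hm (hφ.1 l) (hr l)
  choose y hy1 hy2 using hy
  set ψ : S3 k →ₗ[k] ExteriorAlgebra k (AbgLie k A) := sb.constr k y with hψ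
  have hψl : ∀ l, ψ (sb l) = y l := fun l => Module.Basis.constr_basis _ _ _ _
  have hψW : ψ ∈ (homFam (G.extFam (m + 1) n)).W 0 := by
    intro l
    rw [hψl]; exact hy1 l
  have hψb : bdH k A ψ = φ := by
    apply sb.ext
    intro l
    rw [bdH_apply, hψl, hy2]
  have := WtFam.lift_inv (homFam (G.extFam (m + 1) n)) (homFam (G.extFam m n)) (bdH k A)
    (fun i j v => bdH_E _ _ (fun _ _ => rfl) (fun _ _ => rfl) i j v)
    (fun v hv => G.bdH_mem hv) hψW (by rw [hψb]; exact hφ)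
  rwa [hψb] at this

theorem ep_bot_zero {n : ℕ} (hn : 1 ≤ n) (μ : ℤ × ℤ) : ep G.bL G.gL 0 (n, μ) = ⊥ := by
  rw [ep, piece]
  have : {j | lab G.gL j = (0, (n, μ))} = ∅ := by
    rw [Set.eq_empty_iff_forall_notMem]
    intro S hS
    have h1 := (Prod.mk.inj hS).1
    have h2 := (Prod.mk.inj hS).2
    rw [Finset.card_eq_zero] at h1
    subst h1
    rw [Finset.sum_empty] at h2
    have := congrArg Prod.fst h2
    simp only [Prod.fst_zero] at this
    omega
  rw [this]
  simp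

theorem ep_bot_big {m n : ℕ} (hn : n < m) (μ : ℤ × ℤ) : ep G.bL G.gL m (n, μ) = ⊥ := by
  rw [ep, piece]
  have : {j | lab G.gL j = (m, (n, μ))} = ∅ := by
    rw [Set.eq_empty_iff_forall_notMem]
    intro S hS
    have h1 := (Prod.mk.inj hS).1
    have h2 := (Prod.mk.inj hS).2
    have hb := (G.sum_bound S).2.2
    rw [h2] at hb
    simp only at hb
    omega
  rw [this]
  simp

theorem inv_bot {F : WtFam k (ExteriorAlgebra k (AbgLie k A))} (h : F.W 0 = ⊥) : F.Inv = ⊥ := by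
  rw [eq_bot_iff]
  intro x hx
  have := hx.1
  rwa [h] at this

theorem hominv_bot {F : WtFam k (ExteriorAlgebra k (AbgLie k A))} (h : ∀ μ, F.W μ = ⊥) :
    (homFam F).Inv = ⊥ := by
  rw [eq_bot_iff]
  intro φ hφ
  rw [Submodule.mem_bot]
  apply sb.ext
  intro l
  have : φ (sb l) ∈ F.W (0 + sw l) := hφ.1 l
  rw [h] at this
  simpa using this

theorem inv_fd {Λ : Type*} [AddCommGroup Λ] [Module k Λ] (F : WtFam k Λ) :
    FiniteDimensional k F.Inv := by
  have := F.fd 0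
  exact Submodule.finiteDimensional_of_le (S₂ := F.W 0) (fun x hx => hx.1)

/-- The alternating sum of the multiplicities of the trivial representation vanishes. -/
theorem alt_triv {n : ℕ} (hn : 2 ≤ n) (h1 : G.H1van n)
    (hT : ∀ m, 2 ≤ m → m ≤ n → NoTriv k A m) :
    ∑ m ∈ Finset.range (n + 1),
      (-1 : ℤ) ^ m * (Module.finrank k (G.extFam m n).Inv : ℤ) = 0 := by
  apply altsum_zero bd (fun m => (G.extFam m n).Inv) (fun m => inv_fd _) n
  · exact inv_bot (G.ep_bot_zero (by omega) 0)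
  · exact inv_bot (G.ep_bot_big (by omega) 0)
  · intro m x hx
    refine ⟨G.bd_ep hx.1, fun i j => ?_⟩
    have : der (eL i j) (bd x) = 0 := by
      rw [← bd_derL, show der (eL i j) x = 0 from hx.2 i j, map_zero]
    exact this
  · exact bd_bd
  · intro m hm x hx hbx
    rcases le_or_gt m n with h | h
    · exact G.exact_inv h1 m (fun h2 => hT m h2 h) hm x hx hbx
    · rw [inv_bot (G.ep_bot_big h 0), Submodule.mem_bot] at hx
      exact ⟨0, Submodule.zero_mem _, by rw [hx, map_zero]⟩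

/-- The alternating sum of the multiplicities of the adjoint representation vanishes. -/
theorem alt_adj {n : ℕ} (hn : 2 ≤ n) (h1 : G.H1van n)
    (hT : ∀ m, 2 ≤ m → m ≤ n → NoAdj k A m) :
    ∑ m ∈ Finset.range (n + 1),
      (-1 : ℤ) ^ m * (Module.finrank k (homFam (G.extFam m n)).Inv : ℤ) = 0 := by
  apply altsum_zero (bdH k A) (fun m => (homFam (G.extFam m n)).Inv) (fun m => inv_fd _) n
  · exact hominv_bot (fun μ => G.ep_bot_zero (by omega) μ)
  · exact hominv_bot (fun μ => G.ep_bot_big (by omega) μ)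
  · intro m x hx
    refine ⟨G.bdH_mem hx.1, fun i j => ?_⟩
    rw [← bdH_E (G.extFam (m + 1) n) (G.extFam m n) (fun _ _ => rfl) (fun _ _ => rfl), hx.2 i j,
      map_zero]
  · intro x
    apply LinearMap.ext
    intro Y
    exact bd_bd _
  · intro m hm x hx hbx
    rcases le_or_gt m n with h | h
    · exact G.exact_hom h1 m (fun h2 => hT m h2 h) hm x hx hbx
    · rw [hominv_bot (fun μ => G.ep_bot_big h μ), Submodule.mem_bot] at hx
      exact ⟨0, Submodule.zero_mem _, by rw [hx, map_zero]⟩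

end GrData

end Pool.Agent.K7.H90.ABG
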