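import Pool.Agent.K7.H90.ABG.BB

/-!
# The free (nonunital) alternative algebra
-/

namespace Pool.Agent.K7.H90.ABG

set_option linter.unusedSectionVars false
set_option linter.unusedSimpArgs false

noncomputable section

variable (k X : Type*) [Field k]

/-- The equivalence relation generated by this relation defines the free alternative algebra. -/
inductive RelA : FreeNonUnitalNonAssocAlgebra k X → FreeNonUnitalNonAssocAlgebra k X → Prop
  | left (p q : FreeNonUnitalNonAssocAlgebra k X) : RelA ((p * p) * q) (p * (p * q))
  | right (p q : FreeNonUnitalNonAssocAlgebra k X) : RelA ((q * p) * p) (q * (p * p))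
  | smul (t : k) {a b : FreeNonUnitalNonAssocAlgebra k X} : RelA a b → RelA (t • a) (t • b)
  | add_right {a b : FreeNonUnitalNonAssocAlgebra k X} (c : FreeNonUnitalNonAssocAlgebra k X) :
      RelA a b → RelA (a + c) (b + c)
  | mul_left (a : FreeNonUnitalNonAssocAlgebra k X) {b c : FreeNonUnitalNonAssocAlgebra k X} :
      RelA b c → RelA (a * b) (a * c)
  | mul_right {a b : FreeNonUnitalNonAssocAlgebra k X} (c : FreeNonUnitalNonAssocAlgebra k X) :
      RelA a b → RelA (a * c) (b * c)

/-- The free (nonunital) alternative algebra on `X`. -/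
def FreeAlt : Type _ := Quot (RelA k X)

variable {k X}

namespace RelA

theorem addLeft (a : FreeNonUnitalNonAssocAlgebra k X) {b c : FreeNonUnitalNonAssocAlgebra k X}
    (h : RelA k X b c) : RelA k X (a + b) (a + c) := by
  rw [add_comm _ b, add_comm _ c]; exact h.add_right _

theorem neg {a b : FreeNonUnitalNonAssocAlgebra k X} (h : RelA k X a b) : RelA k X (-a) (-b) := by
  simpa only [neg_one_smul] using h.smul (-1)

theorem subLeft (a : FreeNonUnitalNonAssocAlgebra k X) {b c : FreeNonUnitalNonAssocAlgebra k X}
    (h : RelA k X b c) : RelA k X (a - b) (a - c) := by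
  simpa only [sub_eq_add_neg] using h.neg.addLeft a

theorem subRight {a b : FreeNonUnitalNonAssocAlgebra k X} (c : FreeNonUnitalNonAssocAlgebra k X)
    (h : RelA k X a b) : RelA k X (a - c) (b - c) := by
  simpa only [sub_eq_add_neg] using h.add_right (-c)

theorem smulOfTower {S : Type*} [Monoid S] [DistribMulAction S k] [IsScalarTower S k k] (t : S)
    (a b : FreeNonUnitalNonAssocAlgebra k X) (h : RelA k X a b) : RelA k X (t • a) (t • b) := by
  rw [← smul_one_smul k t a, ← smul_one_smul k t b]
  exact h.smul _

end RelA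

namespace FreeAlt

instance {S : Type*} [Monoid S] [DistribMulAction S k] [IsScalarTower S k k] :
    SMul S (FreeAlt k X) where smul t := Quot.map (t • ·) (RelA.smulOfTower t)

instance : Zero (FreeAlt k X) where zero := Quot.mk _ 0

instance : Add (FreeAlt k X) where
  add := Quot.map₂ (· + ·) (fun _ _ _ => RelA.addLeft _) fun _ _ _ => RelA.add_right _

instance : Neg (FreeAlt k X) where neg := Quot.map Neg.neg fun _ _ => RelA.neg

instance : Sub (FreeAlt k X) where
  sub := Quot.map₂ Sub.sub (fun _ _ _ => RelA.subLeft _) fun _ _ _ => RelA.subRight _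

instance : Mul (FreeAlt k X) where
  mul := Quot.map₂ (· * ·) (fun _ _ _ => RelA.mul_left _) fun _ _ _ => RelA.mul_right _

instance : NonUnitalNonAssocRing (FreeAlt k X) :=
  Function.Surjective.nonUnitalNonAssocRing (Quot.mk (RelA k X)) Quot.mk_surjective rfl
    (fun _ _ => rfl) (fun _ _ => rfl) (fun _ => rfl) (fun _ _ => rfl) (fun _ _ => rfl)
    (fun _ _ => rfl)

instance {S : Type*} [Semiring S] [Module S k] [IsScalarTower S k k] :
    Module S (FreeAlt k X) :=
  Function.Surjective.module S ⟨⟨Quot.mk (RelA k X), rfl⟩, fun _ _ => rfl⟩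
    Quot.mk_surjective (fun _ _ => rfl)

instance : IsScalarTower k (FreeAlt k X) (FreeAlt k X) where
  smul_assoc t := by
    rintro ⟨a⟩ ⟨b⟩
    change Quot.mk _ ((t • a) * b) = Quot.mk _ (t • (a * b))
    rw [smul_mul_assoc]

instance : SMulCommClass k (FreeAlt k X) (FreeAlt k X) where
  smul_comm t := by
    rintro ⟨a⟩ ⟨b⟩
    change Quot.mk _ (t • (a * b)) = Quot.mk _ (a * (t • b))
    rw [mul_smul_comm]

theorem isAlt : IsAlt (FreeAlt k X) :=
  ⟨by rintro ⟨p⟩ ⟨q⟩; exact Quot.sound (RelA.left p q),
   by rintro ⟨p⟩ ⟨q⟩; exact Quot.sound (RelA.right p q)⟩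

instance : Fact (IsAlt (FreeAlt k X)) := ⟨isAlt⟩

/-- The quotient map. -/
def mk : FreeNonUnitalNonAssocAlgebra k X →ₙₐ[k] FreeAlt k X where
  toFun := Quot.mk (RelA k X)
  map_smul' _ _ := rfl
  map_zero' := rfl
  map_add' _ _ := rfl
  map_mul' _ _ := rfl

theorem mk_surj : Function.Surjective (mk (k := k) (X := X)) := Quot.mk_surjective

theorem mk_eq {a b : FreeNonUnitalNonAssocAlgebra k X} (h : RelA k X a b) : mk a = mk b :=
  Quot.sound h

/-- The universal property. -/
theorem lift_rel {B : Type*} [NonUnitalNonAssocRing B] [Module k B] [IsScalarTower k B B]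
    [SMulCommClass k B B] (hB : IsAlt B) (f : FreeNonUnitalNonAssocAlgebra k X →ₙₐ[k] B)
    {a b : FreeNonUnitalNonAssocAlgebra k X} (h : RelA k X a b) : f a = f b := by
  induction h with
  | left p q => simp only [map_mul]; exact hB.1 _ _
  | right p q => simp only [map_mul]; exact hB.2 _ _
  | smul t _ h => simp only [map_smul, h]
  | add_right c _ h => simp only [map_add, h]
  | mul_left a _ h => simp only [map_mul, h]
  | mul_right c _ h => simp only [map_mul, h]

/-- The homomorphism from the free alternative algebra to an alternative algebra. -/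
def lift {B : Type*} [NonUnitalNonAssocRing B] [Module k B] [IsScalarTower k B B]
    [SMulCommClass k B B] (hB : IsAlt B) (f : FreeNonUnitalNonAssocAlgebra k X →ₙₐ[k] B) :
    FreeAlt k X →ₙₐ[k] B where
  toFun := Quot.lift f (fun _ _ h => lift_rel hB f h)
  map_smul' t := by rintro ⟨a⟩; exact map_smul f t a
  map_zero' := map_zero f
  map_add' := by rintro ⟨a⟩ ⟨b⟩; exact map_add f a b
  map_mul' := by rintro ⟨a⟩ ⟨b⟩; exact map_mul f a b

theorem lift_mk {B : Type*} [NonUnitalNonAssocRing B] [Module k B] [IsScalarTower k B B]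
    [SMulCommClass k B B] (hB : IsAlt B) (f : FreeNonUnitalNonAssocAlgebra k X →ₙₐ[k] B)
    (a : FreeNonUnitalNonAssocAlgebra k X) : lift hB f (mk a) = f a := rfl

/-- The class of a monomial. -/
def mon (w : FreeMagma X) : FreeAlt k X := mk (MonoidAlgebra.single w 1)

theorem mon_mul (v w : FreeMagma X) : (mon (v * w) : FreeAlt k X) = mon v * mon w := by
  rw [mon, mon, mon, ← map_mul, MonoidAlgebra.single_mul_single, one_mul]

theorem span_mon : Submodule.span k (Set.range (mon (k := k) (X := X))) = ⊤ := by
  rw [eq_top_iff]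
  intro x _
  obtain ⟨a, rfl⟩ := mk_surj x
  refine MonoidAlgebra.induction_linear (motive := fun a => mk a ∈
    Submodule.span k (Set.range (mon (k := k) (X := X)))) a ?_ ?_ ?_
  · simp
  · intro a b ha hb; rw [map_add]; exact Submodule.add_mem _ ha hb
  · intro w r
    have : (MonoidAlgebra.single w r : FreeNonUnitalNonAssocAlgebra k X) =
        r • MonoidAlgebra.single w 1 := by
      rw [MonoidAlgebra.smul_single', mul_one]
    rw [this, map_smul]
    exact Submodule.smul_mem _ _ (Submodule.subset_span ⟨w, rfl⟩)

/-- The Euler operator on the free nonassociative algebra. -/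
def eF : Module.End k (FreeNonUnitalNonAssocAlgebra k X) :=
  (MonoidAlgebra.basis (FreeMagma X) k).constr k
    (fun w => (w.length : k) • MonoidAlgebra.single w 1)

theorem eF_single (w : FreeMagma X) : eF (k := k) (MonoidAlgebra.single w 1) =
    (w.length : k) • MonoidAlgebra.single w 1 := by
  have := (MonoidAlgebra.basis (FreeMagma X) k).constr_basis k
    (fun w => (w.length : k) • MonoidAlgebra.single w (1 : k)) w
  rwa [MonoidAlgebra.basis_apply] at this

theorem ind_single {P : FreeNonUnitalNonAssocAlgebra k X → Prop} (h0 : P 0)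
    (ha : ∀ a b, P a → P b → P (a + b)) (hs : ∀ (c : k) a, P a → P (c • a))
    (h1 : ∀ w, P (MonoidAlgebra.single w 1)) (a : FreeNonUnitalNonAssocAlgebra k X) : P a := by
  refine MonoidAlgebra.induction_linear (motive := P) a h0 ha ?_
  intro w r
  have : (MonoidAlgebra.single w r : FreeNonUnitalNonAssocAlgebra k X) =
      r • MonoidAlgebra.single w 1 := by
    rw [MonoidAlgebra.smul_single', mul_one]
  rw [this]
  exact hs _ _ (h1 w)

theorem length_mul (v w : FreeMagma X) : (v * w).length = v.length + w.length := rfl

theorem eF_mul (a b : FreeNonUnitalNonAssocAlgebra k X) :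
    eF (a * b) = eF a * b + a * eF b := by
  refine ind_single (P := fun a => eF (a * b) = eF a * b + a * eF b) ?_ ?_ ?_ ?_ a
  · simp
  · intro a a' h h'; simp only [add_mul, map_add, h, h']; abel
  · intro c a h; simp only [smul_mul_assoc, map_smul, h, smul_add]
  · intro v
    refine ind_single (P := fun b => eF (MonoidAlgebra.single v 1 * b) =
      eF (MonoidAlgebra.single v 1) * b + MonoidAlgebra.single v 1 * eF b) ?_ ?_ ?_ ?_ b
    · simp
    · intro a a' h h'; simp only [mul_add, map_add, h, h']; abel
    · intro c a h; simp only [mul_smul_comm, map_smul, h, smul_add]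
    · intro w
      rw [MonoidAlgebra.single_mul_single, one_mul, eF_single, eF_single, eF_single,
        smul_mul_assoc, mul_smul_comm, MonoidAlgebra.single_mul_single, one_mul, ← add_smul,
        length_mul, Nat.cast_add]

theorem eF_rel {a b : FreeNonUnitalNonAssocAlgebra k X} (h : RelA k X a b) :
    mk (eF a) = mk (eF b) := by
  induction h with
  | left p q =>
    simp only [eF_mul, map_add, map_mul, add_mul, mul_add]
    have h1 := isAlt.hl (mk (k := k) (eF p)) (mk p) (mk q)
    have h2 := isAlt.1 (mk (k := k) p) (mk (eF q))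
    rw [h2]
    linear_combination (norm := abel) h1
  | right p q =>
    simp only [eF_mul, map_add, map_mul, add_mul, mul_add]
    have h1 := isAlt.hr (mk (k := k) (eF p)) (mk p) (mk q)
    have h2 := isAlt.2 (mk (k := k) p) (mk (eF q))
    rw [h2]
    linear_combination (norm := abel) h1
  | smul t _ h => simp only [map_smul, h]
  | add_right c _ h => simp only [map_add, h]
  | mul_left a h0 h => simp only [eF_mul, map_add, map_mul, h, mk_eq h0]
  | mul_right c h0 h => simp only [eF_mul, map_add, map_mul, h, mk_eq h0]

/-- The Euler derivation. -/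
def eA : Der k (FreeAlt k X) :=
  ⟨{ toFun := Quot.lift (fun a => mk (eF a)) (fun _ _ h => eF_rel h)
     map_add' := by
       rintro ⟨a⟩ ⟨b⟩
       change mk (eF (a + b)) = mk (eF a) + mk (eF b)
       rw [map_add, map_add]
     map_smul' := by
       rintro t ⟨a⟩
       change mk (eF (t • a)) = t • mk (eF a)
       rw [map_smul, map_smul] }, by
    rintro ⟨a⟩ ⟨b⟩
    change mk (eF (a * b)) = mk (eF a) * mk b + mk a * mk (eF b)
    rw [eF_mul, map_add, map_mul, map_mul]⟩

theorem eA_mon (w : FreeMagma X) : (eA (k := k)).1 (mon w) = (w.length : k) • mon w := by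
  change mk (eF (MonoidAlgebra.single w 1)) = _
  rw [eF_single, map_smul]
  rfl

/-- The graded pieces. -/
def gr (k X : Type*) [Field k] (n : ℕ) : Submodule k (FreeAlt k X) :=
  Submodule.span k (mon '' {w | w.length = n})

theorem finite_length [Finite X] (n : ℕ) : {w : FreeMagma X | w.length = n}.Finite := by
  induction n using Nat.strong_induction_on with
  | _ n ih =>
    have hsub : {w : FreeMagma X | w.length = n} ⊆ Set.range FreeMagma.of ∪
        ⋃ i ∈ Finset.range n, ⋃ j ∈ Finset.range n,
          Set.image2 (fun v w => v * w) {w : FreeMagma X | w.length = i}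
            {w : FreeMagma X | w.length = j} := by
      intro w hw
      cases w with
      | of x => exact Or.inl ⟨x, rfl⟩
      | mul v w =>
        right
        have h1 := v.length_pos
        have h2 := w.length_pos
        have h3 : v.length + w.length = n := hw
        simp only [Set.mem_iUnion, Finset.mem_range]
        exact ⟨v.length, by omega, w.length, by omega, v, rfl, w, rfl, rfl⟩
    refine Set.Finite.subset (Set.Finite.union (Set.finite_range _) ?_) hsub
    refine Set.Finite.biUnion (Finset.finite_toSet _) (fun i hi => ?_)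
    refine Set.Finite.biUnion (Finset.finite_toSet _) (fun j hj => ?_)
    rw [SetLike.mem_coe, Finset.mem_range] at hi hj
    exact Set.Finite.image2 _ (ih i hi) (ih j hj)

instance gr_fd [Finite X] (n : ℕ) : FiniteDimensional k (gr k X n) :=
  FiniteDimensional.span_of_finite k ((finite_length n).image _)

theorem gr_le (n : ℕ) : gr k X n ≤ Module.End.eigenspace (eA (k := k) (X := X)).1 (n : k) := by
  rw [gr, Submodule.span_le]
  rintro _ ⟨w, hw, rfl⟩
  rw [SetLike.mem_coe, Module.End.mem_eigenspace_iff, eA_mon, show w.length = n from hw]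

variable [CharZero k]

theorem gr_indep : iSupIndep (gr k X) := by
  have h := Module.End.eigenspaces_iSupIndep (eA (k := k) (X := X)).1
  have h2 := h.comp (f := fun n : ℕ => (n : k)) Nat.cast_injective
  exact h2.mono (fun n => gr_le n)

theorem gr_top : iSup (gr k X) = ⊤ := by
  rw [eq_top_iff, ← span_mon, Submodule.span_le]
  rintro _ ⟨w, rfl⟩
  exact Submodule.mem_iSup_of_mem w.length (Submodule.subset_span ⟨w, rfl, rfl⟩)

theorem gr_internal : DirectSum.IsInternal (gr k X) :=
  DirectSum.isInternal_submodule_of_iSupIndep_of_iSup_eq_top gr_indep gr_top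

theorem gr_zero : gr k X 0 = ⊥ := by
  rw [gr, Submodule.span_eq_bot]
  rintro _ ⟨w, hw, rfl⟩
  exact absurd (show w.length = 0 from hw) w.length_pos.ne'

theorem mul_mem_gr {i j : ℕ} {a b : FreeAlt k X} (ha : a ∈ gr k X i) (hb : b ∈ gr k X j) :
    a * b ∈ gr k X (i + j) := by
  induction ha using Submodule.span_induction with
  | mem y hy =>
    obtain ⟨v, hv, rfl⟩ := hy
    induction hb using Submodule.span_induction with
    | mem z hz =>
      obtain ⟨w, hw, rfl⟩ := hz
      rw [← mon_mul]
      refine Submodule.subset_span ⟨v * w, ?_, rfl⟩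
      change (v * w).length = i + j
      rw [length_mul, show v.length = i from hv, show w.length = j from hw]
    | zero => rw [mul_zero]; exact Submodule.zero_mem _
    | add y z _ _ hy hz => rw [mul_add]; exact Submodule.add_mem _ hy hz
    | smul c y _ hy => rw [mul_smul_comm]; exact Submodule.smul_mem _ _ hy
  | zero => rw [zero_mul]; exact Submodule.zero_mem _
  | add y z _ _ hy hz => rw [add_mul]; exact Submodule.add_mem _ hy hz
  | smul c y _ hy => rw [smul_mul_assoc]; exact Submodule.smul_mem _ _ hy

theorem gr_gen {n : ℕ} (hn : 2 ≤ n) :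
    gr k X n ≤ Submodule.span k {x | ∃ p q : FreeAlt k X, x = p * q} := by
  rw [gr, Submodule.span_le]
  rintro _ ⟨w, hw, rfl⟩
  have hw' : w.length = n := hw
  cases w with
  | of x => change 1 = n at hw'; omega
  | mul v w => exact Submodule.subset_span ⟨mon v, mon w, mon_mul v w⟩

end FreeAlt

end

end Pool.Agent.K7.H90.ABG
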