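import Pool.Agent.K7.H90.ABG.FreeAlt
import Pool.Agent.K7.H90.ABG.Count2

/-!
# Grading data for the free alternative algebra, and its dimensions
-/

namespace Pool.Agent.K7.H90.ABG

set_option linter.unusedSectionVars false
set_option linter.unusedSimpArgs false

noncomputable section

namespace FreeAlt

variable {k X : Type*} [Field k]

/-- The graded pieces of `B(A)`. -/
def gB (k X : Type*) [Field k] (n : ℕ) : Submodule k (BB k (FreeAlt k X)) :=
  ⨆ i : Fin (n + 1), Submodule.map₂ (wd k (FreeAlt k X)) (gr k X i) (gr k X (n - i))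

instance gB_fd [Finite X] (n : ℕ) : FiniteDimensional k (gB k X n) := by
  have : ∀ i : Fin (n + 1), FiniteDimensional k
      (Submodule.map₂ (wd k (FreeAlt k X)) (gr k X i) (gr k X (n - i))) := by
    intro i
    rw [← Submodule.fg_iff_finiteDimensional]
    exact Submodule.FG.map₂ _ (Submodule.fg_iff_finiteDimensional _ |>.2 inferInstance)
      (Submodule.fg_iff_finiteDimensional _ |>.2 inferInstance)
  exact Submodule.finiteDimensional_iSup _

theorem gB_le (n : ℕ) :
    gB k X n ≤ Module.End.eigenspace (derB (eA (k := k) (X := X))) (n : k) := by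
  rw [gB, iSup_le_iff]
  intro i
  rw [Submodule.map₂_le]
  intro a ha b hb
  have h1 := Module.End.mem_eigenspace_iff.1 (gr_le _ ha)
  have h2 := Module.End.mem_eigenspace_iff.1 (gr_le _ hb)
  rw [Module.End.mem_eigenspace_iff, derB_wd, h1, h2, map_smul, map_smul, LinearMap.smul_apply,
    ← add_smul, ← Nat.cast_add]
  congr 2
  omega

theorem wd_mem_gB {i j n : ℕ} (h : i + j = n) {a b : FreeAlt k X} (ha : a ∈ gr k X i)
    (hb : b ∈ gr k X j) : wd k (FreeAlt k X) a b ∈ gB k X n := by
  refine Submodule.mem_iSup_of_mem (⟨i, by omega⟩ : Fin (n + 1)) ?_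
  apply Submodule.apply_mem_map₂ _ ha
  have : n - i = j := by omega
  simpa [this] using hb

theorem gB_top : iSup (gB k X) = ⊤ := by
  rw [eq_top_iff]
  intro b hb
  clear hb
  induction b using BB.induction with
  | h0 => exact Submodule.zero_mem _
  | ha x y hx hy => exact Submodule.add_mem _ hx hy
  | hw p q =>
    have hp : p ∈ Submodule.span k (Set.range (mon (k := k) (X := X))) := by
      rw [span_mon]; trivial
    have hq : q ∈ Submodule.span k (Set.range (mon (k := k) (X := X))) := by
      rw [span_mon]; trivial
    induction hp using Submodule.span_induction with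
    | mem y hy =>
      obtain ⟨v, rfl⟩ := hy
      induction hq using Submodule.span_induction with
      | mem z hz =>
        obtain ⟨w, rfl⟩ := hz
        exact Submodule.mem_iSup_of_mem (v.length + w.length)
          (wd_mem_gB rfl (Submodule.subset_span ⟨v, rfl, rfl⟩)
            (Submodule.subset_span ⟨w, rfl, rfl⟩))
      | zero => rw [map_zero]; exact Submodule.zero_mem _
      | add y z _ _ hy hz => rw [map_add]; exact Submodule.add_mem _ hy hz
      | smul c y _ hy => rw [map_smul]; exact Submodule.smul_mem _ _ hy
    | zero => rw [map_zero]; exact Submodule.zero_mem _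
    | add y z _ _ hy hz => rw [map_add]; exact Submodule.add_mem _ hy hz
    | smul c y _ hy => rw [map_smul]; exact Submodule.smul_mem _ _ hy

variable [CharZero k]

theorem gB_indep : iSupIndep (gB k X) := by
  have h := Module.End.eigenspaces_iSupIndep (derB (eA (k := k) (X := X)))
  have h2 := h.comp (f := fun n : ℕ => (n : k)) Nat.cast_injective
  exact h2.mono (fun n => gB_le n)

theorem gB_internal : DirectSum.IsInternal (gB k X) :=
  DirectSum.isInternal_submodule_of_iSupIndep_of_iSup_eq_top gB_indep gB_top

theorem gB_zero : gB k X 0 = ⊥ := by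
  rw [eq_bot_iff, gB, iSup_le_iff]
  intro i
  have : (i : ℕ) = 0 := by omega
  rw [this, gr_zero, Submodule.map₂_bot_left]

theorem gB_one : gB k X 1 = ⊥ := by
  rw [eq_bot_iff, gB, iSup_le_iff]
  intro i
  rcases Nat.eq_zero_or_pos (i : ℕ) with h | h
  · rw [h, gr_zero, Submodule.map₂_bot_left]
  · have : 1 - (i : ℕ) = 0 := by omega
    rw [this, gr_zero, Submodule.map₂_bot_right]

variable [Finite X]

/-- The indices of the basis of `A`. -/
abbrev JA (k X : Type*) [Field k] : Type := Σ n : ℕ, Fin (Module.finrank k (gr k X n))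

/-- The indices of the basis of `B(A)`. -/
abbrev JB (k X : Type*) [Field k] : Type := Σ n : ℕ, Fin (Module.finrank k (gB k X n))

theorem fin_fst (r : ℕ → ℕ) (n : ℕ) : {j : Σ n : ℕ, Fin (r n) | j.1 = n}.Finite := by
  have : {j : Σ n : ℕ, Fin (r n) | j.1 = n} = Set.range (fun i : Fin (r n) => ⟨n, i⟩) := by
    ext ⟨m, i⟩
    constructor
    · intro h
      have h' : m = n := h
      subst h'; exact ⟨i, rfl⟩
    · rintro ⟨i', h⟩
      exact (congrArg Sigma.fst h).symm
  rw [this]
  exact Set.finite_range _

theorem card_fst (r : ℕ → ℕ) (n : ℕ) (h : {j : Σ n : ℕ, Fin (r n) | j.1 = n}.Finite) :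
    h.toFinset.card = r n := by
  classical
  have : h.toFinset = Finset.univ.image (fun i : Fin (r n) => (⟨n, i⟩ : Σ n : ℕ, Fin (r n))) := by
    ext ⟨m, i⟩
    rw [Set.Finite.mem_toFinset, Finset.mem_image]
    constructor
    · intro h
      have h' : m = n := h
      subst h'; exact ⟨i, Finset.mem_univ _, rfl⟩
    · rintro ⟨i', _, h⟩
      exact (congrArg Sigma.fst h).symm
  rw [this, Finset.card_image_of_injective, Finset.card_univ, Fintype.card_fin]
  intro a b hab
  simpa using hab

/-- The homogeneous basis of `A`. -/
def bAa (k X : Type*) [Field k] [CharZero k] [Finite X] : Module.Basis (JA k X) k (FreeAlt k X) :=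
  gr_internal.collectedBasis (fun n => Module.finBasis k (gr k X n))

/-- The homogeneous basis of `B(A)`. -/
def bBa (k X : Type*) [Field k] [CharZero k] [Finite X] :
    Module.Basis (JB k X) k (BB k (FreeAlt k X)) :=
  gB_internal.collectedBasis (fun n => Module.finBasis k (gB k X n))

theorem bAa_mem (j : JA k X) : bAa k X j ∈ gr k X j.1 := by
  rw [bAa, DirectSum.IsInternal.collectedBasis_coe]
  exact Subtype.mem _

theorem bBa_mem (j : JB k X) : bBa k X j ∈ gB k X j.1 := by
  rw [bBa, DirectSum.IsInternal.collectedBasis_coe]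
  exact Subtype.mem _

/-- The grading data of the free alternative algebra. -/
def grd (k X : Type*) [Field k] [CharZero k] [Finite X] :
    GrData k (FreeAlt k X) (JA k X) (JB k X) where
  bA := bAa k X
  dA := Sigma.fst
  T := eA
  hT j := Module.End.mem_eigenspace_iff.1 (gr_le _ (bAa_mem j))
  bB := bBa k X
  dB := Sigma.fst
  hB j := Module.End.mem_eigenspace_iff.1 (gB_le _ (bBa_mem j))
  posA j := by
    rcases Nat.eq_zero_or_pos j.1 with h | h
    · exfalso
      have h0 : Module.finrank k (gr k X j.1) = 0 := by rw [h, gr_zero, finrank_bot]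
      have := j.2.isLt
      omega
    · exact h
  posB j := by
    rcases Nat.eq_zero_or_pos j.1 with h | h
    · exfalso
      have h0 : Module.finrank k (gB k X j.1) = 0 := by rw [h, gB_zero, finrank_bot]
      have := j.2.isLt
      omega
    · exact h
  finA n := fin_fst _ n
  finB n := fin_fst _ n
  gen j hj := gr_gen hj (bAa_mem j)

theorem na_grd (n : ℕ) : (grd k X).na n = Module.finrank k (gr k X n) := card_fst _ n _

theorem nb_grd (n : ℕ) : (grd k X).nb n = Module.finrank k (gB k X n) := card_fst _ n _

theorem nb_one : (grd k X).nb 1 = 0 := by rw [nb_grd, gB_one, finrank_bot]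

/-- The free associative algebra, as a monoid algebra. -/
abbrev FAs (k X : Type*) [Field k] : Type _ := MonoidAlgebra k (FreeMonoid X)

/-- The homomorphism to the free associative algebra. -/
def toFAs (k X : Type*) [Field k] : FreeAlt k X →ₙₐ[k] FAs k X :=
  lift ⟨fun p q => mul_assoc p p q, fun p q => mul_assoc q p p⟩
    (FreeNonUnitalNonAssocAlgebra.lift k (fun x => MonoidAlgebra.single (FreeMonoid.of x) 1))

/-- The word of a monomial. -/
def word : FreeMagma X → FreeMonoid X
  | FreeMagma.of x => FreeMonoid.of x
  | FreeMagma.mul v w => word v * word w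

theorem toFAs_mon (w : FreeMagma X) : toFAs k X (mon w) = MonoidAlgebra.single (word w) 1 := by
  induction w with
  | ih1 x =>
    change FreeNonUnitalNonAssocAlgebra.lift k
      (fun x => (MonoidAlgebra.single (FreeMonoid.of x) 1 : FAs k X))
        (FreeNonUnitalNonAssocAlgebra.of k x) = _
    rw [FreeNonUnitalNonAssocAlgebra.lift_of_apply]
    rfl
  | ih2 v w hv hw =>
    rw [mon_mul, map_mul, hv, hw, MonoidAlgebra.single_mul_single, one_mul]
    rfl

/-- Right-nested monomials. -/
def monR : X → List X → FreeMagma X
  | a, [] => FreeMagma.of a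
  | a, b :: l => FreeMagma.mul (FreeMagma.of a) (monR b l)

theorem monR_length (a : X) (l : List X) : (monR a l).length = l.length + 1 := by
  induction l generalizing a with
  | nil => rfl
  | cons b l ih =>
    change (FreeMagma.of a).length + (monR b l).length = _
    rw [ih]
    change 1 + (l.length + 1) = l.length + 1 + 1
    omega

theorem monR_word (a : X) (l : List X) : word (monR a l) = FreeMonoid.ofList (a :: l) := by
  induction l generalizing a with
  | nil => rfl
  | cons b l ih =>
    change FreeMonoid.of a * word (monR b l) = _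
    rw [ih]
    rfl

theorem finrank_ge [Fintype X] (n : ℕ) :
    Fintype.card X ^ (n + 1) ≤ Module.finrank k (gr k X (n + 1)) := by
  classical
  let u : (Fin (n + 1) → X) → gr k X (n + 1) := fun f =>
    ⟨mon (monR (f 0) (List.ofFn (fun i : Fin n => f i.succ))),
      Submodule.subset_span ⟨_, by
        change (monR _ _).length = n + 1
        rw [monR_length, List.length_ofFn], rfl⟩⟩
  have hu : LinearIndependent k u := by
    have hv : LinearIndependent k (fun f : Fin (n + 1) → X =>
        (MonoidAlgebra.single (FreeMonoid.ofList (List.ofFn f)) 1 : FAs k X)) := by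
      have hb := (MonoidAlgebra.basis (FreeMonoid X) k).linearIndependent
      have h2 := hb.comp (fun f : Fin (n + 1) → X => FreeMonoid.ofList (List.ofFn f)) (by
        intro f g hfg
        exact List.ofFn_injective (FreeMonoid.ofList.injective hfg))
      convert h2 using 1
      funext f
      simp
    have h3 : (fun f : Fin (n + 1) → X =>
        (MonoidAlgebra.single (FreeMonoid.ofList (List.ofFn f)) 1 : FAs k X)) =
        ((toFAs k X : FreeAlt k X →ₗ[k] FAs k X).comp (gr k X (n + 1)).subtype) ∘ u := by
      funext f
      change _ = toFAs k X (mon _)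
      rw [toFAs_mon, monR_word, List.ofFn_succ]
    rw [h3] at hv
    exact LinearIndependent.of_comp _ hv
  have := hu.fintype_card_le_finrank
  simpa using this

theorem finrank_one_le [Fintype X] : Module.finrank k (gr k X 1) ≤ Fintype.card X := by
  have : gr k X 1 = Submodule.span k (Set.range (fun x : X => mon (k := k) (FreeMagma.of x))) := by
    rw [gr]
    congr 1
    ext y
    constructor
    · rintro ⟨w, hw, rfl⟩
      cases w with
      | of x => exact ⟨x, rfl⟩
      | mul v w =>
        have h1 := v.length_pos
        have h2 := w.length_pos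
        have h3 : v.length + w.length = 1 := hw
        omega
    · rintro ⟨x, rfl⟩
      exact ⟨FreeMagma.of x, rfl, rfl⟩
  rw [this]
  exact finrank_range_le_card _

theorem na_one : (grd k (Fin 4)).na 1 = 4 := by
  rw [na_grd]
  have h1 := finrank_one_le (k := k) (X := Fin 4)
  have h2 := finrank_ge (k := k) (X := Fin 4) 0
  change _ ≤ Module.finrank k (gr k (Fin 4) 1) at h2
  simp only [Fintype.card_fin, zero_add, pow_one] at h1 h2
  omega

theorem na_nine : 4 ^ 9 ≤ (grd k (Fin 4)).na 9 := by
  rw [na_grd]
  have h2 := finrank_ge (k := k) (X := Fin 4) 8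
  simpa using h2

/-- The key result: some homology has a trivial or adjoint component. -/
theorem key : ¬ ((∀ m, 2 ≤ m → m ≤ 9 → GrData.NoTriv k (FreeAlt k (Fin 4)) m) ∧
    (∀ m, 2 ≤ m → m ≤ 9 → GrData.NoAdj k (FreeAlt k (Fin 4)) m)) := by
  rintro ⟨hT, hA⟩
  let _ : LinearOrder ((Fin 8 × JA k (Fin 4)) ⊕ JB k (Fin 4)) :=
    IsWellOrder.linearOrder WellOrderingRel
  have h := (grd k (Fin 4)).dim_nine na_one nb_one hT hA
  have h9 := na_nine (k := k)
  rw [h] at h9
  norm_num at h9

end FreeAlt

end

end Pool.Agent.K7.H90.ABG
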