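import Pool.Agent.K7.H90.ABG.MT

/-!
# The multiplicity of the trivial representation as an alternating sum of weight multiplicities
-/

namespace Pool.Agent.K7.H90.ABG

set_option linter.unusedSectionVars false
set_option linter.unusedSimpArgs false

namespace WtFam

variable {k Λ : Type*} [Field k] [CharZero k] [AddCommGroup Λ] [Module k Λ] (F : WtFam k Λ)

theorem d0_id (v : Λ) : F.E 0 1 (F.E 1 2 v) - F.E 1 2 (F.E 0 1 v) - F.E 0 2 v = 0 := by
  have e := F.comm' 0 1 1 2 v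
  simp only [if_pos] at e
  rw [e, if_neg (by decide)]
  abel

theorem comm0 {i j p q : Fin 3} (h1 : j ≠ p) (h2 : q ≠ i) (v : Λ) :
    F.E i j (F.E p q v) = F.E p q (F.E i j v) := by
  rw [F.comm', if_neg h1, if_neg h2, sub_zero, add_zero]

theorem comm1 {i j q : Fin 3} (h2 : q ≠ i) (v : Λ) :
    F.E i j (F.E j q v) = F.E j q (F.E i j v) + F.E i q v := by
  rw [F.comm', if_pos rfl, if_neg h2, sub_zero]

theorem comm2 {i j p : Fin 3} (h2 : j ≠ p) (v : Λ) :
    F.E i j (F.E p i v) = F.E p i (F.E i j v) - F.E p j v := by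
  rw [F.comm', if_neg h2, if_pos rfl, zero_sub, sub_eq_add_neg]

theorem comm3 {i j : Fin 3} {μ : ℤ × ℤ} {v : Λ} (hv : v ∈ F.W μ) :
    F.E i j (F.E j i v) = F.E j i (F.E i j v) + ((wt i μ - wt j μ : ℤ) : k) • v := by
  rw [F.comm', if_pos rfl, if_pos rfl, F.diag i μ v hv, F.diag j μ v hv]
  push_cast
  module

/-- First homotopy identity. -/
theorem h1_1 {m1 m2 m3 : Λ} (w1 : m1 ∈ F.W (1, -1)) (w2 : m2 ∈ F.W (0, 1))
    (w3 : m3 ∈ F.W (1, 0)) (h12 : F.E 0 1 m2 - F.E 1 2 m1 - m3 = 0)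
    (h13 : F.E 0 1 m3 - F.E 0 2 m1 = 0) (h23 : F.E 1 2 m3 - F.E 0 2 m2 = 0) :
    F.Om m1 = (2 : k) • F.E 0 1 (F.E 1 0 m1 + F.E 2 1 m2 + F.E 2 0 m3) ∧
    F.Om m2 = (2 : k) • F.E 1 2 (F.E 1 0 m1 + F.E 2 1 m2 + F.E 2 0 m3) ∧
    F.Om m3 = (2 : k) • F.E 0 2 (F.E 1 0 m1 + F.E 2 1 m2 + F.E 2 0 m3) := by
  have a12 := fun i j => congrArg (F.E i j) h12
  have a13 := fun i j => congrArg (F.E i j) h13
  have a23 := fun i j => congrArg (F.E i j) h23
  simp only [map_sub, map_zero] at a12 a13 a23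
  refine ⟨?_, ?_, ?_⟩
  · rw [F.Om_normal w1]
    simp only [map_add]
    rw [F.comm3 (i := 0) (j := 1) w1,
      F.comm0 (i := 0) (j := 1) (p := 2) (q := 1) (by decide) (by decide) m2,
      F.comm2 (i := 0) (j := 1) (p := 2) (by decide) m3]
    simp [wt]
    linear_combination (norm := module) (-2 : k) • a12 2 1 + (-2 : k) • a13 2 0
  · rw [F.Om_normal w2]
    simp only [map_add]
    rw [F.comm3 (i := 1) (j := 2) w2,
      F.comm0 (i := 1) (j := 2) (p := 1) (q := 0) (by decide) (by decide) m1,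
      F.comm1 (i := 1) (j := 2) (q := 0) (by decide) m3]
    simp [wt]
    linear_combination (norm := module) (2 : k) • a12 1 0 + (-2 : k) • a23 2 0
  · rw [F.Om_normal w3]
    simp only [map_add]
    rw [F.comm3 (i := 0) (j := 2) w3, F.comm2 (i := 0) (j := 2) (p := 1) (by decide) m1,
      F.comm1 (i := 0) (j := 2) (q := 1) (by decide) m2]
    simp [wt]
    linear_combination (norm := module) (2 : k) • a13 1 0 + (2 : k) • a23 2 1 - (2 : k) • h12

/-- Second homotopy identity. -/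
theorem h2_2 {p12 p13 p23 : Λ} (w1 : p12 ∈ F.W (1, 0)) (w2 : p13 ∈ F.W (2, -1))
    (w3 : p23 ∈ F.W (1, 1)) (h : F.E 0 1 p23 - F.E 1 2 p13 + F.E 0 2 p12 = 0) :
    F.Om p12 = (2 : k) • (F.E 0 1 (F.E 1 0 p12 - F.E 2 0 p23)
      - F.E 1 2 (-F.E 2 1 p12 - F.E 2 0 p13) - (F.E 1 0 p13 + F.E 2 1 p23 - p12)) ∧
    F.Om p13 = (2 : k) • (F.E 0 1 (F.E 1 0 p13 + F.E 2 1 p23 - p12)
      - F.E 0 2 (-F.E 2 1 p12 - F.E 2 0 p13)) ∧
    F.Om p23 = (2 : k) • (F.E 1 2 (F.E 1 0 p13 + F.E 2 1 p23 - p12)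
      - F.E 0 2 (F.E 1 0 p12 - F.E 2 0 p23)) := by
  have a := fun i j => congrArg (F.E i j) h
  simp only [map_sub, map_add, map_zero] at a
  refine ⟨?_, ?_, ?_⟩
  · rw [F.Om_normal w1]
    simp only [map_add, map_sub, map_neg]
    rw [F.comm3 (i := 0) (j := 1) w1, F.comm3 (i := 1) (j := 2) w1,
      F.comm2 (i := 0) (j := 1) (p := 2) (by decide) p23,
      F.comm1 (i := 1) (j := 2) (q := 0) (by decide) p13]
    simp [wt]
    linear_combination (norm := module) (2 : k) • a 2 0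
  · rw [F.Om_normal w2]
    simp only [map_add, map_sub, map_neg]
    rw [F.comm3 (i := 0) (j := 1) w2, F.comm3 (i := 0) (j := 2) w2,
      F.comm0 (i := 0) (j := 1) (p := 2) (q := 1) (by decide) (by decide) p23,
      F.comm1 (i := 0) (j := 2) (q := 1) (by decide) p12]
    simp [wt]
    linear_combination (norm := module) (-2 : k) • a 2 1
  · rw [F.Om_normal w3]
    simp only [map_add, map_sub, map_neg]
    rw [F.comm3 (i := 1) (j := 2) w3, F.comm3 (i := 0) (j := 2) w3,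
      F.comm0 (i := 1) (j := 2) (p := 1) (q := 0) (by decide) (by decide) p13,
      F.comm2 (i := 0) (j := 2) (p := 1) (by decide) p12]
    simp [wt]
    linear_combination (norm := module) (2 : k) • a 1 0

/-- Third homotopy identity. -/
theorem h3_3 {c : Λ} (w : c ∈ F.W (2, 0)) :
    F.Om c = (2 : k) • (F.E 0 1 (F.E 1 0 c) - F.E 1 2 (-F.E 2 1 c) + F.E 0 2 (F.E 2 0 c)) := by
  rw [F.Om_normal w]
  simp only [map_neg]
  rw [F.comm3 (i := 0) (j := 1) w, F.comm3 (i := 0) (j := 2) w, F.comm3 (i := 1) (j := 2) w]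
  simp [wt]
  module

/-- The operator `E i j` between weight spaces. -/
noncomputable def Er {i j : Fin 3} {μ ν : ℤ × ℤ} (h : μ + rt i j = ν) : F.W μ →ₗ[k] F.W ν :=
  (F.E i j).restrict (fun _ hv => F.shift' h hv)

theorem Er_coe {i j : Fin 3} {μ ν : ℤ × ℤ} (h : μ + rt i j = ν) (v : F.W μ) :
    (F.Er h v : Λ) = F.E i j v := rfl

theorem Er_Om {i j : Fin 3} {μ ν : ℤ × ℤ} (h : μ + rt i j = ν) (v : F.W μ) :
    F.Er h (F.OmW μ v) = F.OmW ν (F.Er h v) := by
  apply Subtype.ext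
  rw [Er_coe, OmW_coe, OmW_coe, Er_coe, Om_comm']

/-- The first term of the complex. -/
abbrev K1 : Type _ := F.W (1, -1) × F.W (0, 1) × F.W (1, 0)

/-- The second term of the complex. -/
abbrev K2 : Type _ := F.W (1, 0) × F.W (2, -1) × F.W (1, 1)

noncomputable def D0 : F.W 0 →ₗ[k] F.K1 :=
  (F.Er (i := 0) (j := 1) (ν := (1, -1)) (by decide)).prod
    ((F.Er (i := 1) (j := 2) (ν := (0, 1)) (by decide)).prod
      (F.Er (i := 0) (j := 2) (ν := (1, 0)) (by decide)))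

noncomputable def D1 : F.K1 →ₗ[k] F.K2 :=
  ((F.Er (i := 0) (j := 1) (μ := (0, 1)) (ν := (1, 0)) (by decide)).comp
      ((LinearMap.fst k _ _).comp (LinearMap.snd k _ _))
    - (F.Er (i := 1) (j := 2) (μ := (1, -1)) (ν := (1, 0)) (by decide)).comp (LinearMap.fst k _ _)
    - (LinearMap.snd k _ _).comp (LinearMap.snd k _ _)).prod
  (((F.Er (i := 0) (j := 1) (μ := (1, 0)) (ν := (2, -1)) (by decide)).comp
      ((LinearMap.snd k _ _).comp (LinearMap.snd k _ _))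
    - (F.Er (i := 0) (j := 2) (μ := (1, -1)) (ν := (2, -1)) (by decide)).comp
      (LinearMap.fst k _ _)).prod
  ((F.Er (i := 1) (j := 2) (μ := (1, 0)) (ν := (1, 1)) (by decide)).comp
      ((LinearMap.snd k _ _).comp (LinearMap.snd k _ _))
    - (F.Er (i := 0) (j := 2) (μ := (0, 1)) (ν := (1, 1)) (by decide)).comp
      ((LinearMap.fst k _ _).comp (LinearMap.snd k _ _))))

noncomputable def D2 : F.K2 →ₗ[k] F.W (2, 0) :=
  (F.Er (i := 0) (j := 1) (μ := (1, 1)) (ν := (2, 0)) (by decide)).comp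
      ((LinearMap.snd k _ _).comp (LinearMap.snd k _ _))
    - (F.Er (i := 1) (j := 2) (μ := (2, -1)) (ν := (2, 0)) (by decide)).comp
      ((LinearMap.fst k _ _).comp (LinearMap.snd k _ _))
    + (F.Er (i := 0) (j := 2) (μ := (1, 0)) (ν := (2, 0)) (by decide)).comp (LinearMap.fst k _ _)

theorem D0_apply (v : F.W 0) : F.D0 v = (F.Er (i := 0) (j := 1) (by decide) v,
    F.Er (i := 1) (j := 2) (by decide) v, F.Er (i := 0) (j := 2) (by decide) v) := rfl

theorem D1_apply (m : F.K1) : F.D1 m =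
    (F.Er (i := 0) (j := 1) (by decide) m.2.1 - F.Er (i := 1) (j := 2) (by decide) m.1 - m.2.2,
     F.Er (i := 0) (j := 1) (by decide) m.2.2 - F.Er (i := 0) (j := 2) (by decide) m.1,
     F.Er (i := 1) (j := 2) (by decide) m.2.2 - F.Er (i := 0) (j := 2) (by decide) m.2.1) := rfl

theorem D2_apply (p : F.K2) : F.D2 p =
    F.Er (i := 0) (j := 1) (by decide) p.2.2 - F.Er (i := 1) (j := 2) (by decide) p.2.1
      + F.Er (i := 0) (j := 2) (by decide) p.1 := rfl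

theorem D1_D0 (v : F.W 0) : F.D1 (F.D0 v) = 0 := by
  rw [D1_apply, D0_apply]
  refine Prod.ext (Subtype.ext ?_) (Prod.ext (Subtype.ext ?_) (Subtype.ext ?_))
  · exact F.d0_id v
  · change F.E 0 1 (F.E 0 2 v) - F.E 0 2 (F.E 0 1 v) = 0
    rw [F.comm0 (by decide) (by decide), sub_self]
  · change F.E 1 2 (F.E 0 2 v) - F.E 0 2 (F.E 1 2 v) = 0
    rw [F.comm0 (by decide) (by decide), sub_self]

theorem D2_D1 (m : F.K1) : F.D2 (F.D1 m) = 0 := by
  rw [D2_apply, D1_apply]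
  refine Subtype.ext ?_
  change F.E 0 1 (F.E 1 2 m.2.2 - F.E 0 2 m.2.1) - F.E 1 2 (F.E 0 1 m.2.2 - F.E 0 2 m.1)
    + F.E 0 2 (F.E 0 1 m.2.1 - F.E 1 2 m.1 - m.2.2) = 0
  have h := F.d0_id (m.2.2 : Λ)
  simp only [map_sub]
  rw [F.comm0 (i := 0) (j := 1) (p := 0) (q := 2) (by decide) (by decide) _,
    F.comm0 (i := 1) (j := 2) (p := 0) (q := 2) (by decide) (by decide) _]
  linear_combination (norm := abel) h

theorem S1_mem {m1 m2 m3 : Λ} (w1 : m1 ∈ F.W (1, -1)) (w2 : m2 ∈ F.W (0, 1))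
    (w3 : m3 ∈ F.W (1, 0)) : F.E 1 0 m1 + F.E 2 1 m2 + F.E 2 0 m3 ∈ F.W 0 :=
  Submodule.add_mem _ (Submodule.add_mem _ (F.shift' (by decide) w1) (F.shift' (by decide) w2))
    (F.shift' (by decide) w3)

theorem ker_D1 : LinearMap.ker F.D1 = LinearMap.range F.D0 := by
  apply le_antisymm
  · rintro m hm
    obtain ⟨m1, hm1⟩ := F.OmW_surj (by decide : ((1, -1) : ℤ × ℤ) ≠ 0) m.1
    obtain ⟨m2, hm2⟩ := F.OmW_surj (by decide : ((0, 1) : ℤ × ℤ) ≠ 0) m.2.1
    obtain ⟨m3, hm3⟩ := F.OmW_surj (by decide : ((1, 0) : ℤ × ℤ) ≠ 0) m.2.2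
    have hm' := LinearMap.mem_ker.1 hm
    rw [D1_apply, ← hm1, ← hm2, ← hm3] at hm'
    simp only [Er_Om, ← map_sub] at hm'
    have e1 := congrArg Prod.fst hm'
    have e2 := congrArg (fun x => x.2.1) hm'
    have e3 := congrArg (fun x => x.2.2) hm'
    simp only [Prod.fst_zero, Prod.snd_zero] at e1 e2 e3
    have f1 := (injective_iff_map_eq_zero _).1 (F.OmW_inj (by decide)) _ e1
    have f2 := (injective_iff_map_eq_zero _).1 (F.OmW_inj (by decide)) _ e2
    have f3 := (injective_iff_map_eq_zero _).1 (F.OmW_inj (by decide)) _ e3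
    have g := F.h1_1 m1.2 m2.2 m3.2 (congrArg Subtype.val f1) (congrArg Subtype.val f2)
      (congrArg Subtype.val f3)
    refine ⟨(2 : k) • ⟨_, F.S1_mem m1.2 m2.2 m3.2⟩, ?_⟩
    rw [map_smul, D0_apply]
    refine Prod.ext (Subtype.ext ?_) (Prod.ext (Subtype.ext ?_) (Subtype.ext ?_))
    · rw [← hm1, OmW_coe, g.1]; rfl
    · rw [← hm2, OmW_coe, g.2.1]; rfl
    · rw [← hm3, OmW_coe, g.2.2]; rfl
  · rintro _ ⟨v, rfl⟩
    exact F.D1_D0 v

theorem ker_D2 : LinearMap.ker F.D2 = LinearMap.range F.D1 := by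
  apply le_antisymm
  · rintro p hp
    obtain ⟨p1, hp1⟩ := F.OmW_surj (by decide : ((1, 0) : ℤ × ℤ) ≠ 0) p.1
    obtain ⟨p2, hp2⟩ := F.OmW_surj (by decide : ((2, -1) : ℤ × ℤ) ≠ 0) p.2.1
    obtain ⟨p3, hp3⟩ := F.OmW_surj (by decide : ((1, 1) : ℤ × ℤ) ≠ 0) p.2.2
    have hp' := LinearMap.mem_ker.1 hp
    rw [D2_apply, ← hp1, ← hp2, ← hp3] at hp'
    simp only [Er_Om, ← map_sub, ← map_add] at hp'
    have f := (injective_iff_map_eq_zero _).1 (F.OmW_inj (by decide)) _ hp'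
    have g := F.h2_2 p1.2 p2.2 p3.2 (congrArg Subtype.val f)
    have n1 : -F.E 2 1 p1.1 - F.E 2 0 p2.1 ∈ F.W (1, -1) :=
      Submodule.sub_mem _ (Submodule.neg_mem _ (F.shift' (by decide) p1.2))
        (F.shift' (by decide) p2.2)
    have n2 : F.E 1 0 p1.1 - F.E 2 0 p3.1 ∈ F.W (0, 1) :=
      Submodule.sub_mem _ (F.shift' (by decide) p1.2) (F.shift' (by decide) p3.2)
    have n3 : F.E 1 0 p2.1 + F.E 2 1 p3.1 - p1.1 ∈ F.W (1, 0) :=
      Submodule.sub_mem _ (Submodule.add_mem _ (F.shift' (by decide) p2.2)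
        (F.shift' (by decide) p3.2)) p1.2
    refine ⟨(2 : k) • (⟨_, n1⟩, ⟨_, n2⟩, ⟨_, n3⟩), ?_⟩
    rw [map_smul, D1_apply]
    refine Prod.ext (Subtype.ext ?_) (Prod.ext (Subtype.ext ?_) (Subtype.ext ?_))
    · rw [← hp1, OmW_coe, g.1]; rfl
    · rw [← hp2, OmW_coe, g.2.1]; rfl
    · rw [← hp3, OmW_coe, g.2.2]; rfl
  · rintro _ ⟨v, rfl⟩
    exact F.D2_D1 v

theorem range_D2 : LinearMap.range F.D2 = ⊤ := by
  rw [eq_top_iff]
  intro c _
  obtain ⟨c1, hc1⟩ := F.OmW_surj (by decide : ((2, 0) : ℤ × ℤ) ≠ 0) c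
  have g := F.h3_3 c1.2
  have n1 : F.E 2 0 c1.1 ∈ F.W (1, 0) := by
    have := F.shift' (i := 2) (j := 0) (ν := (1, 0)) (by decide) c1.2
    exact this
  have n2 : -F.E 2 1 c1.1 ∈ F.W (2, -1) := Submodule.neg_mem _ (F.shift' (by decide) c1.2)
  have n3 : F.E 1 0 c1.1 ∈ F.W (1, 1) := F.shift' (by decide) c1.2
  refine ⟨(2 : k) • (⟨_, n1⟩, ⟨_, n2⟩, ⟨_, n3⟩), ?_⟩
  rw [map_smul, D2_apply]
  refine Subtype.ext ?_
  rw [← hc1, OmW_coe, g]; rfl

theorem finrank_Inv : Module.finrank k F.Inv = Module.finrank k (LinearMap.ker F.D0) := by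
  have hle : F.Inv ≤ F.W 0 := fun v hv => hv.1
  have e : F.Inv = (LinearMap.ker F.D0).map (F.W 0).subtype := by
    ext v
    constructor
    · intro hv
      refine ⟨⟨v, hv.1⟩, ?_, rfl⟩
      rw [SetLike.mem_coe, LinearMap.mem_ker, D0_apply]
      refine Prod.ext (Subtype.ext ?_) (Prod.ext (Subtype.ext ?_) (Subtype.ext ?_))
      · exact hv.2 0 1
      · exact hv.2 1 2
      · exact hv.2 0 2
    · rintro ⟨w, hw, rfl⟩
      rw [SetLike.mem_coe, LinearMap.mem_ker, D0_apply] at hw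
      have e1 : F.E 0 1 w = 0 := congrArg (fun x => (x.1 : Λ)) hw
      have e2 : F.E 1 2 w = 0 := congrArg (fun x => (x.2.1 : Λ)) hw
      have e3 : F.E 0 2 w = 0 := congrArg (fun x => (x.2.2 : Λ)) hw
      apply F.Inv_of_Om w.2
      have := F.Om_normal w.2
      rw [e1, e2, e3] at this
      simpa [wt] using this
  rw [e]
  exact Submodule.finrank_map_subtype_eq _ _

/-- The multiplicity of the trivial representation. -/
theorem mult_triv : (Module.finrank k F.Inv : ℤ) = Module.finrank k (F.W 0)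
    - Module.finrank k (F.W (1, -1)) - Module.finrank k (F.W (0, 1))
    + Module.finrank k (F.W (2, -1)) + Module.finrank k (F.W (1, 1))
    - Module.finrank k (F.W (2, 0)) := by
  have i0 := F.fd 0
  have i1 := F.fd (1, -1)
  have i2 := F.fd (0, 1)
  have i3 := F.fd (1, 0)
  have i4 := F.fd (2, -1)
  have i5 := F.fd (1, 1)
  have i6 := F.fd (2, 0)
  have h0 := LinearMap.finrank_range_add_finrank_ker F.D0
  have h1 := LinearMap.finrank_range_add_finrank_ker F.D1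
  have h2 := LinearMap.finrank_range_add_finrank_ker F.D2
  rw [F.ker_D1, Module.finrank_prod, Module.finrank_prod] at h1
  rw [F.ker_D2, F.range_D2, finrank_top, Module.finrank_prod, Module.finrank_prod] at h2
  rw [F.finrank_Inv]
  omega

end WtFam

end Pool.Agent.K7.H90.ABG
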