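import Pool.Agent.K7.H90.ABG.CE

/-!
# Graded pieces of a space with a labelled basis, and of its exterior algebra
-/

namespace Pool.Agent.K7.H90.ABG

set_option linter.unusedSectionVars false
set_option linter.unusedSimpArgs false

section Piece

variable {k V V' J J' Γ Γ' : Type*} [Field k] [AddCommGroup V] [Module k V]
  [AddCommGroup V'] [Module k V']

/-- The span of the basis vectors with label `γ`. -/
def piece (b : Module.Basis J k V) (l : J → Γ) (γ : Γ) : Submodule k V :=
  Submodule.span k (b '' {j | l j = γ})

variable (b : Module.Basis J k V) (l : J → Γ) (b' : Module.Basis J' k V') (l' : J' → Γ')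

theorem basis_mem_piece (j : J) : b j ∈ piece b l (l j) :=
  Submodule.subset_span ⟨j, rfl, rfl⟩

theorem mem_piece_iff (γ : Γ) (x : V) :
    x ∈ piece b l γ ↔ ∀ j, b.repr x j ≠ 0 → l j = γ := by
  rw [piece, Module.Basis.mem_span_image]
  constructor
  · intro h j hj
    exact h (Finsupp.mem_support_iff.2 hj)
  · intro h j hj
    exact h j (Finsupp.mem_support_iff.1 hj)

theorem map_piece {f : V →ₗ[k] V'} {γ : Γ} {γ' : Γ'} (h : ∀ j, l j = γ → f (b j) ∈ piece b' l' γ')
    {x : V} (hx : x ∈ piece b l γ) : f x ∈ piece b' l' γ' := by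
  induction hx using Submodule.span_induction with
  | mem y hy => obtain ⟨j, hj, rfl⟩ := hy; exact h j hj
  | zero => rw [map_zero]; exact Submodule.zero_mem _
  | add y z _ _ hy hz => rw [map_add]; exact Submodule.add_mem _ hy hz
  | smul c y _ hy => rw [map_smul]; exact Submodule.smul_mem _ _ hy

open Classical in
/-- The projection onto the piece of label `γ`. -/
noncomputable def pr (γ : Γ) : V →ₗ[k] V := b.constr k (fun j => if l j = γ then b j else 0)

theorem pr_basis (γ : Γ) (j : J) [Decidable (l j = γ)] :
    pr b l γ (b j) = if l j = γ then b j else 0 := by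
  rw [pr, Module.Basis.constr_basis]
  congr

theorem basis_ind {P : V → Prop} (h : ∀ j, P (b j)) (h0 : P 0)
    (ha : ∀ x y, P x → P y → P (x + y)) (hs : ∀ (c : k) x, P x → P (c • x)) (x : V) : P x := by
  have hx : x ∈ Submodule.span k (Set.range b) := by rw [b.span_eq]; trivial
  induction hx using Submodule.span_induction with
  | mem y hy => obtain ⟨j, rfl⟩ := hy; exact h j
  | zero => exact h0
  | add y z _ _ hy hz => exact ha _ _ hy hz
  | smul c y _ hy => exact hs _ _ hy

theorem pr_mem (γ : Γ) (x : V) : pr b l γ x ∈ piece b l γ := by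
  classical
  refine basis_ind b (P := fun x => pr b l γ x ∈ piece b l γ) ?_ ?_ ?_ ?_ x
  · intro j
    rw [pr_basis]
    split_ifs with h
    · rw [← h]; exact basis_mem_piece b l j
    · exact Submodule.zero_mem _
  · rw [map_zero]; exact Submodule.zero_mem _
  · intro x y hx hy; rw [map_add]; exact Submodule.add_mem _ hx hy
  · intro c x hx; rw [map_smul]; exact Submodule.smul_mem _ _ hx

theorem pr_of_mem {γ : Γ} {x : V} (hx : x ∈ piece b l γ) : pr b l γ x = x := by
  classical
  induction hx using Submodule.span_induction with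
  | mem y hy =>
    obtain ⟨j, hj, rfl⟩ := hy
    have hj' : l j = γ := hj
    rw [pr_basis, if_pos hj']
  | zero => rw [map_zero]
  | add y z _ _ hy hz => rw [map_add, hy, hz]
  | smul c y _ hy => rw [map_smul, hy]

theorem pr_of_mem_ne {γ γ' : Γ} (hne : γ' ≠ γ) {x : V} (hx : x ∈ piece b l γ') :
    pr b l γ x = 0 := by
  classical
  induction hx using Submodule.span_induction with
  | mem y hy =>
    obtain ⟨j, hj, rfl⟩ := hy
    rw [pr_basis, if_neg]
    intro h; exact hne (hj.symm.trans h)
  | zero => rw [map_zero]
  | add y z _ _ hy hz => rw [map_add, hy, hz, add_zero]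
  | smul c y _ hy => rw [map_smul, hy, smul_zero]

/-- A homogeneous map commutes with the projections. -/
theorem pr_comm {f : V →ₗ[k] V'} (φ : Γ → Γ') (hf : ∀ j, f (b j) ∈ piece b' l' (φ (l j)))
    {γ : Γ} (hφ : ∀ j, φ (l j) = φ γ → l j = γ) (x : V) :
    pr b' l' (φ γ) (f x) = f (pr b l γ x) := by
  classical
  refine basis_ind b (P := fun x => pr b' l' (φ γ) (f x) = f (pr b l γ x)) ?_ ?_ ?_ ?_ x
  · intro j
    rw [pr_basis]
    split_ifs with h
    · exact pr_of_mem _ _ (by rw [← h]; exact hf j)
    · rw [map_zero]
      exact pr_of_mem_ne _ _ (fun h' => h (hφ j h')) (hf j)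
  · simp
  · intro x y hx hy; simp only [map_add, hx, hy]
  · intro c x hx; simp only [map_smul, hx]

theorem finite_piece {γ : Γ} (h : {j | l j = γ}.Finite) : FiniteDimensional k (piece b l γ) := by
  rw [piece]
  exact FiniteDimensional.span_of_finite k (h.image b)

theorem finrank_piece {γ : Γ} (h : {j | l j = γ}.Finite) :
    Module.finrank k (piece b l γ) = h.toFinset.card := by
  classical
  have hli : LinearIndependent k (fun j : h.toFinset => b j.1) :=
    b.linearIndependent.comp _ Subtype.val_injective
  have e : piece b l γ = Submodule.span k (Set.range (fun j : h.toFinset => b j.1)) := by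
    rw [piece]
    congr 1
    ext x
    constructor
    · rintro ⟨j, hj, rfl⟩
      exact ⟨⟨j, by simpa using hj⟩, rfl⟩
    · rintro ⟨⟨j, hj⟩, rfl⟩
      exact ⟨j, by simpa using hj, rfl⟩
  rw [e, finrank_span_eq_card hli, Fintype.card_coe]

end Piece

section Ext

variable {k M I Γ : Type*} [Field k] [AddCommGroup M] [Module k M] [LinearOrder I]
  [AddCommMonoid Γ] (b : Module.Basis I k M) (g : I → Γ)

open Set.powersetCard

/-- The label of a basis element of the exterior algebra. -/
def lab (S : Finset I) : ℕ × Γ := (S.card, ∑ i ∈ S, g i)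

/-- The piece of exterior degree `n` and label `γ` of the exterior algebra. -/
noncomputable abbrev ep (n : ℕ) (γ : Γ) : Submodule k (ExteriorAlgebra k M) :=
  piece b.ExteriorAlgebra (lab g) (n, γ)

theorem bE_empty : b.ExteriorAlgebra (∅ : Finset I) = 1 := by
  rw [ExteriorAlgebra.basis_apply_ofCard b Finset.card_empty]
  exact ExteriorAlgebra.ιMulti_zero_apply _

theorem bE_singleton (i : I) : b.ExteriorAlgebra ({i} : Finset I) = ExteriorAlgebra.ι k (b i) := by
  rw [ExteriorAlgebra.basis_apply_ofCard b (Finset.card_singleton i)]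
  have h : (ofFinEmbEquiv.symm (ofCard (Finset.card_singleton i))) 0 = i := by
    have h1 : (ofFinEmbEquiv.symm (ofCard (Finset.card_singleton i))) 0 ∈
        ofCard (Finset.card_singleton i) :=
      (mem_range_ofFinEmbEquiv_symm_iff_mem _ _).1 ⟨0, rfl⟩
    exact Finset.mem_singleton.1 h1
  rw [ExteriorAlgebra.ιMulti_family, ExteriorAlgebra.ιMulti_apply]
  simp [h]

theorem bE_insert {i : I} {S : Finset I} (h : i ∉ S) :
    ∃ u : ℤˣ, b.ExteriorAlgebra (insert i S) = u • (ExteriorAlgebra.ι k (b i) *
      b.ExteriorAlgebra S) := by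
  have hd : Disjoint (ofCard (Finset.card_singleton i)).val (ofCard (rfl : S.card = S.card)).val := by
    simpa using h
  have h1 := ExteriorAlgebra.basis_mul_of_disjoint b _ _ hd
  refine ⟨(permOfDisjoint hd).sign, ?_⟩
  have h2 : ((disjUnion hd : Set.powersetCard I _) : Finset I) = insert i S := by
    rw [coe_disjUnion, Finset.disjUnion_eq_union]
    ext x; simp
  rw [h2] at h1
  have h3 : b.ExteriorAlgebra ((ofCard (Finset.card_singleton i)).val : Finset I)
    = ExteriorAlgebra.ι k (b i) := bE_singleton b i
  have h4 : b.ExteriorAlgebra ((ofCard (rfl : S.card = S.card)).val : Finset I)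
    = b.ExteriorAlgebra S := rfl
  rw [h3, h4] at h1
  rw [h1, smul_smul, Int.units_mul_self, one_smul]

theorem lab_insert {i : I} {S : Finset I} (h : i ∉ S) :
    lab g (insert i S) = ((lab g S).1 + 1, g i + (lab g S).2) := by
  simp only [lab, Finset.card_insert_of_notMem h, Finset.sum_insert h]

theorem lab_empty : lab g (∅ : Finset I) = (0, 0) := by simp [lab]

theorem units_smul_mem {p : Submodule k (ExteriorAlgebra k M)} {x : ExteriorAlgebra k M}
    (hx : x ∈ p) (u : ℤˣ) : u • x ∈ p := by
  rcases Int.units_eq_one_or u with rfl | rfl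
  · simpa using hx
  · simpa using hx

/-- Multiplication by a homogeneous vector. -/
theorem ι_mul_mem {γ γ' : Γ} {n : ℕ} {m : M} (hm : m ∈ piece b g γ) {x : ExteriorAlgebra k M}
    (hx : x ∈ ep b g n γ') : ExteriorAlgebra.ι k m * x ∈ ep b g (n + 1) (γ + γ') := by
  induction hm using Submodule.span_induction with
  | mem y hy =>
    obtain ⟨i, hi, rfl⟩ := hy
    have hi' : g i = γ := hi
    induction hx using Submodule.span_induction with
    | mem z hz =>
      obtain ⟨S, hS, rfl⟩ := hz
      have hS' : lab g S = (n, γ') := hS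
      by_cases h : i ∈ S
      · have h0 : ExteriorAlgebra.ι k (b i) * b.ExteriorAlgebra S = 0 := by
          have hd : ¬ Disjoint (ofCard (Finset.card_singleton i)).val
              (ofCard (rfl : S.card = S.card)).val := by
            simpa using h
          have h1 := ExteriorAlgebra.basis_mul_of_not_disjoint b _ _ hd
          have h3 : b.ExteriorAlgebra ((ofCard (Finset.card_singleton i)).val : Finset I)
            = ExteriorAlgebra.ι k (b i) := bE_singleton b i
          have h4 : b.ExteriorAlgebra ((ofCard (rfl : S.card = S.card)).val : Finset I)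
            = b.ExteriorAlgebra S := rfl
          rw [h3, h4] at h1
          exact h1
        rw [h0]; exact Submodule.zero_mem _
      · obtain ⟨u, hu⟩ := bE_insert b h
        have h1 : ExteriorAlgebra.ι k (b i) * b.ExteriorAlgebra S =
            u • b.ExteriorAlgebra (insert i S) := by
          rw [hu, smul_smul, Int.units_mul_self, one_smul]
        rw [h1]
        apply units_smul_mem
        have h2 := basis_mem_piece b.ExteriorAlgebra (lab g) (insert i S)
        rwa [lab_insert g h, hS', hi'] at h2
    | zero => rw [mul_zero]; exact Submodule.zero_mem _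
    | add z w _ _ hz hw => rw [mul_add]; exact Submodule.add_mem _ hz hw
    | smul c z _ hz => rw [mul_smul_comm]; exact Submodule.smul_mem _ _ hz
  | zero => rw [map_zero, zero_mul]; exact Submodule.zero_mem _
  | add y z _ _ hy hz => rw [map_add, add_mul]; exact Submodule.add_mem _ hy hz
  | smul c y _ hy => rw [map_smul, smul_mul_assoc]; exact Submodule.smul_mem _ _ hy

/-- A homogeneous endomorphism extends to a homogeneous derivation. -/
theorem der_mem {T : Module.End k M} {σ : Γ} (hT : ∀ i, T (b i) ∈ piece b g (σ + g i))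
    {n : ℕ} {γ : Γ} {x : ExteriorAlgebra k M} (hx : x ∈ ep b g n γ) :
    der T x ∈ ep b g n (σ + γ) := by
  refine map_piece b.ExteriorAlgebra (lab g) b.ExteriorAlgebra (lab g) (f := der T)
    (γ := (n, γ)) (γ' := (n, σ + γ)) ?_ hx
  intro S
  clear hx
  induction S using Finset.induction_on generalizing n γ with
  | empty =>
    intro _
    rw [bE_empty, der_one]; exact Submodule.zero_mem _
  | insert i S h ih =>
    intro hS
    rw [lab_insert g h] at hS
    obtain ⟨hn, hγ⟩ := Prod.mk.inj hS
    obtain ⟨u, hu⟩ := bE_insert b h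
    have e1 : der T (u • (ExteriorAlgebra.ι k (b i) * b.ExteriorAlgebra S)) =
        u • der T (ExteriorAlgebra.ι k (b i) * b.ExteriorAlgebra S) := by
      rcases Int.units_eq_one_or u with rfl | rfl <;> simp
    rw [hu, e1]
    apply units_smul_mem
    rw [der_ι_mul, ← hn, ← hγ]
    refine Submodule.add_mem _ ?_ ?_
    · have := ι_mul_mem b g (hT i) (basis_mem_piece b.ExteriorAlgebra (lab g) S)
      rwa [add_assoc] at this
    · have h2 := ih (n := (lab g S).1) (γ := (lab g S).2) rfl
      have := ι_mul_mem b g (basis_mem_piece b g i) h2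
      rwa [← add_assoc, add_comm (g i) σ, add_assoc] at this

/-- A diagonal endomorphism acts diagonally. -/
theorem der_diag {T : Module.End k M} {t : I → k} (hT : ∀ i, T (b i) = t i • b i) (S : Finset I) :
    der T (b.ExteriorAlgebra S) = (∑ i ∈ S, t i) • b.ExteriorAlgebra S := by
  induction S using Finset.induction_on with
  | empty => rw [bE_empty, der_one]; simp
  | insert i S h ih =>
    obtain ⟨u, hu⟩ := bE_insert b h
    have e1 : der T (u • (ExteriorAlgebra.ι k (b i) * b.ExteriorAlgebra S)) =
        u • der T (ExteriorAlgebra.ι k (b i) * b.ExteriorAlgebra S) := by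
      rcases Int.units_eq_one_or u with rfl | rfl <;> simp
    rw [hu, e1, der_ι_mul, ih, hT, Finset.sum_insert h, map_smul, smul_mul_assoc, mul_smul_comm,
      ← add_smul, smul_comm]

end Ext

section BdGraded

variable {k L I Γ : Type*} [Field k] [LieRing L] [LieAlgebra k L] [LinearOrder I]
  [AddCommMonoid Γ] (b : Module.Basis I k L) (g : I → Γ)

/-- The differential is homogeneous. -/
theorem bd_mem (hb : ∀ i j, ⁅b i, b j⁆ ∈ piece b g (g i + g j)) {n : ℕ} {γ : Γ}
    {x : ExteriorAlgebra k L} (hx : x ∈ ep b g n γ) : bd x ∈ ep b g (n - 1) γ := by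
  refine map_piece b.ExteriorAlgebra (lab g) b.ExteriorAlgebra (lab g) (f := bd)
    (γ := (n, γ)) (γ' := (n - 1, γ)) ?_ hx
  intro S
  clear hx
  induction S using Finset.induction_on generalizing n γ with
  | empty =>
    intro _
    rw [bE_empty, bd_one]; exact Submodule.zero_mem _
  | insert i S h ih =>
    intro hS
    rw [lab_insert g h] at hS
    obtain ⟨hn, hγ⟩ := Prod.mk.inj hS
    obtain ⟨u, hu⟩ := bE_insert b h
    have e1 : bd (u • (ExteriorAlgebra.ι k (b i) * b.ExteriorAlgebra S)) =
        u • bd (ExteriorAlgebra.ι k (b i) * b.ExteriorAlgebra S) := by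
      rcases Int.units_eq_one_or u with rfl | rfl <;> simp
    rw [hu, e1]
    apply units_smul_mem
    rw [bd_ι_mul, ← hn, ← hγ, Nat.add_sub_cancel]
    refine Submodule.sub_mem _ ?_ ?_
    · exact der_mem b g (fun j => hb i j) (basis_mem_piece b.ExteriorAlgebra (lab g) S)
    · rcases S.eq_empty_or_nonempty with rfl | hne
      · rw [bE_empty, bd_one, mul_zero]; exact Submodule.zero_mem _
      · have h2 := ih (n := (lab g S).1) (γ := (lab g S).2) rfl
        have := ι_mul_mem b g (basis_mem_piece b g i) h2
        have hc : (lab g S).1 - 1 + 1 = (lab g S).1 := by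
          have : 0 < S.card := Finset.card_pos.2 hne
          simp only [lab]; omega
        rwa [hc] at this

end BdGraded

end Pool.Agent.K7.H90.ABG
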