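import Pool.Agent.K7.H90.ABG.Jacobi
import Pool.Agent.K7.H90.ABG.Piece
import Pool.Agent.K7.H90.ABG.MT2

/-!
# The action of `gl₃` and the weight basis of `sl₃`
-/

namespace Pool.Agent.K7.H90.ABG

set_option linter.unusedSectionVars false
set_option linter.unusedSimpArgs false

open TensorProduct

section adM

variable {k : Type*} [Field k]

/-- The action of `gl₃` on `sl₃` by commutators. -/
noncomputable def adM : Matrix (Fin 3) (Fin 3) k →ₗ[k] Module.End k (S3 k) :=
  LinearMap.mk₂ k (fun M Y => ⟨M * Y.1 - Y.1 * M, by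
      change Matrix.trace (M * Y.1 - Y.1 * M) = 0
      rw [Matrix.trace_sub, Matrix.trace_mul_comm, sub_self]⟩)
    (by intro M N Y; apply S3.ext; simp only [S3.cadd, add_mul, mul_add]; abel)
    (by intro c M Y; apply S3.ext; simp only [S3.csmul, smul_mul_assoc, mul_smul_comm, smul_sub])
    (by intro M X Y; apply S3.ext; simp only [S3.cadd, add_mul, mul_add]; abel)
    (by intro c M Y; apply S3.ext; simp only [S3.csmul, smul_mul_assoc, mul_smul_comm, smul_sub])

theorem adM_coe (M : Matrix (Fin 3) (Fin 3) k) (Y : S3 k) : (adM M Y).1 = M * Y.1 - Y.1 * M := rfl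

theorem adM_comm (M N : Matrix (Fin 3) (Fin 3) k) :
    adM M * adM N - adM N * adM M = adM (M * N - N * M) := by
  apply LinearMap.ext
  intro Y
  apply S3.ext
  simp only [LinearMap.sub_apply, Module.End.mul_apply, S3.csub, adM_coe]
  noncomm_ring

theorem adM_one : adM (1 : Matrix (Fin 3) (Fin 3) k) = 0 := by
  apply LinearMap.ext
  intro Y
  apply S3.ext
  simp [adM_coe, S3.czero]

theorem adM_brS (M : Matrix (Fin 3) (Fin 3) k) (X Y : S3 k) :
    adM M (brS X Y) = brS (adM M X) Y + brS X (adM M Y) := by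
  apply S3.ext
  simp only [S3.cadd, adM_coe, brS_coe]
  noncomm_ring

theorem adM_trS (M : Matrix (Fin 3) (Fin 3) k) (X Y : S3 k) :
    trS (adM M X) Y + trS X (adM M Y) = 0 := by
  simp only [trS_apply, adM_coe, sub_mul, mul_sub, Matrix.trace_sub]
  have h1 : Matrix.trace (M * X.1 * Y.1) = Matrix.trace (X.1 * (Y.1 * M)) := by
    rw [mul_assoc, Matrix.trace_mul_comm, mul_assoc]
  rw [h1, ← mul_assoc X.1 M Y.1]
  ring

theorem adM_syS [CharZero k] (M : Matrix (Fin 3) (Fin 3) k) (X Y : S3 k) :
    adM M (syS X Y) = syS (adM M X) Y + syS X (adM M Y) := by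
  have h := adM_trS M X Y
  simp only [trS_apply] at h
  apply S3.ext
  rw [S3.cadd, adM_coe, syS_coe, syS_coe, syS_coe]
  have h2 : Matrix.trace (X.1 * (adM M Y).1) = - Matrix.trace ((adM M X).1 * Y.1) := by
    linear_combination h
  rw [h2]
  simp only [adM_coe, mul_sub, sub_mul, mul_add, add_mul, mul_smul_comm, smul_mul_assoc, mul_one,
    one_mul, mul_assoc, smul_sub, smul_add]
  module

/-- The linear coordinates of `sl₃`. -/
noncomputable def s3Equiv : S3 k ≃ₗ[k] (Fin 8 → k) where
  toFun X := ![X.1 0 1, X.1 1 2, X.1 0 2, X.1 1 0, X.1 2 1, X.1 2 0, X.1 0 0, X.1 1 1]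
  invFun v := ⟨!![v 6, v 0, v 2; v 3, v 7, v 1; v 5, v 4, -v 6 - v 7], by
    change Matrix.trace (!![v 6, v 0, v 2; v 3, v 7, v 1; v 5, v 4, -v 6 - v 7] :
      Matrix (Fin 3) (Fin 3) k) = 0
    simp [Matrix.trace_fin_three]⟩
  map_add' X Y := by
    ext i; fin_cases i <;> simp [S3.cadd]
  map_smul' c X := by
    ext i; fin_cases i <;> simp [S3.csmul]
  left_inv X := by
    apply S3.ext
    have := S3.tr' X
    ext i j; fin_cases i <;> fin_cases j <;> simp [this]
  right_inv v := by
    ext i; fin_cases i <;> simp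

/-- The weight basis of `sl₃`. -/
noncomputable def sb : Module.Basis (Fin 8) k (S3 k) := Module.Basis.ofEquivFun s3Equiv

/-- The weights of the basis vectors. -/
def sw : Fin 8 → ℤ × ℤ := ![(1, -1), (0, 1), (1, 0), (-1, 1), (0, -1), (-1, 0), (0, 0), (0, 0)]

/-- The operators of `gl₃` on `sl₃`. -/
noncomputable def eS (i j : Fin 3) : Module.End k (S3 k) := adM (Matrix.single i j 1)

theorem sb_coe (l : Fin 8) : (sb (k := k) l).1 = (s3Equiv.symm (Pi.single l 1)).1 := by
  rw [sb, Module.Basis.coe_ofEquivFun]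

theorem eS_diag_coe (p : Fin 3) (Y : S3 k) (a b : Fin 3) :
    (eS p p Y).1 a b = ((if a = p then 1 else 0) - (if b = p then 1 else 0)) * Y.1 a b := by
  rw [eS, adM_coe, Matrix.sub_apply, Matrix.mul_apply, Matrix.mul_apply]
  simp only [Matrix.single_apply, Fin.sum_univ_three]
  fin_cases p <;> fin_cases a <;> fin_cases b <;> simp

theorem sb_supp (l : Fin 8) (a b : Fin 3) (h : sw l ≠ rt a b) : (sb (k := k) l).1 a b = 0 := by
  rw [sb_coe]
  fin_cases l <;> fin_cases a <;> fin_cases b <;>
    first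
      | exact absurd (by decide) h
      | simp [s3Equiv]

theorem wt_rt : ∀ p a b : Fin 3, ((if a = p then 1 else 0) - (if b = p then 1 else 0) : ℤ) =
    wt p (rt a b) := by decide

theorem eS_diag (p : Fin 3) (l : Fin 8) :
    eS p p (sb (k := k) l) = (wt p (sw l) : k) • sb l := by
  apply S3.ext
  ext a b
  rw [eS_diag_coe, S3.csmul, Matrix.smul_apply, smul_eq_mul]
  by_cases h : sw l = rt a b
  · rw [h, ← wt_rt]; push_cast; rfl
  · rw [sb_supp l a b h, mul_zero, mul_zero]

theorem eS_comm (i j p q : Fin 3) : eS (k := k) i j * eS p q - eS p q * eS i j =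
    (if j = p then eS i q else 0) - (if q = i then eS p j else 0) := by
  rw [eS, eS, adM_comm, map_sub]
  congr 1
  · split_ifs with h
    · subst h; rw [Matrix.single_mul_single_same, mul_one]; rfl
    · rw [Matrix.single_mul_single_of_ne _ _ _ _ h, map_zero]
  · split_ifs with h
    · subst h; rw [Matrix.single_mul_single_same, mul_one]; rfl
    · rw [Matrix.single_mul_single_of_ne _ _ _ _ h, map_zero]

end adM

end Pool.Agent.K7.H90.ABG
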