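import Pool.Agent.K7.H90.ABG.Gl

/-!
# The action of `gl₃` and of derivations on the Allison–Benkart–Gao Lie algebra, weight basis
-/

namespace Pool.Agent.K7.H90.ABG

set_option linter.unusedSectionVars false
set_option linter.unusedSimpArgs false

open TensorProduct

section eig

variable {k V J Γ : Type*} [Field k] [AddCommGroup V] [Module k V]

theorem repr_diag (b : Module.Basis J k V) {T : Module.End k V} {c : J → k}
    (hT : ∀ j, T (b j) = c j • b j) (x : V) (j : J) : b.repr (T x) j = c j * b.repr x j := by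
  classical
  refine basis_ind b (P := fun x => b.repr (T x) j = c j * b.repr x j) ?_ ?_ ?_ ?_ x
  · intro i
    rw [hT, map_smul, b.repr_self, Finsupp.smul_apply, smul_eq_mul]
    by_cases h : i = j
    · subst h; rfl
    · rw [Finsupp.single_eq_of_ne (Ne.symm h), mul_zero, mul_zero]
  · simp
  · intro x y hx hy; simp only [map_add, Finsupp.add_apply, hx, hy, mul_add]
  · intro a x hx; simp only [map_smul, Finsupp.smul_apply, smul_eq_mul, hx]; ring

theorem mem_piece_of_eig {t : Type*} (b : Module.Basis J k V) (l : J → Γ)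
    (Θ : t → Module.End k V) (c : t → Γ → k) (hΘ : ∀ s j, Θ s (b j) = c s (l j) • b j)
    (hinj : ∀ γ γ', (∀ s, c s γ = c s γ') → γ = γ') {γ : Γ} {x : V}
    (hx : ∀ s, Θ s x = c s γ • x) : x ∈ piece b l γ := by
  rw [mem_piece_iff]
  intro j hj
  apply hinj
  intro s
  have h1 := repr_diag b (hΘ s) x j
  rw [hx s, map_smul, Finsupp.smul_apply, smul_eq_mul] at h1
  exact (mul_right_cancel₀ hj h1).symm

theorem eig_of_mem_piece (b : Module.Basis J k V) (l : J → Γ)
    (T : Module.End k V) (c : Γ → k) (hT : ∀ j, T (b j) = c (l j) • b j)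
    {γ : Γ} {x : V} (hx : x ∈ piece b l γ) : T x = c γ • x := by
  induction hx using Submodule.span_induction with
  | mem y hy => obtain ⟨j, hj, rfl⟩ := hy; rw [hT, show l j = γ from hj]
  | zero => simp
  | add y z _ _ hy hz => rw [map_add, hy, hz, smul_add]
  | smul a y _ hy => rw [map_smul, hy, smul_comm]

end eig

section gl

variable {k A : Type*} [Field k] [CharZero k] [NonUnitalNonAssocRing A] [Module k A]
  [IsScalarTower k A A] [SMulCommClass k A A]

/-- `gl₃` acts on `sl₃ ⊗ A`. -/
noncomputable def glT (M : Matrix (Fin 3) (Fin 3) k) : Module.End k (S3 k ⊗[k] A) :=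
  LinearMap.rTensor A (adM M)

theorem glT_tmul (M : Matrix (Fin 3) (Fin 3) k) (X : S3 k) (p : A) :
    glT M (X ⊗ₜ p) = adM M X ⊗ₜ p := rfl

theorem glT_b1 (M : Matrix (Fin 3) (Fin 3) k) (s t : S3 k ⊗[k] A) :
    glT M (b1 k A s t) = b1 k A (glT M s) t + b1 k A s (glT M t) := by
  induction s using TensorProduct.induction_on with
  | zero => simp
  | tmul X p =>
    induction t using TensorProduct.induction_on with
    | zero => simp
    | tmul Y q =>
      simp only [glT_tmul, b1_tmul, map_add, adM_brS, adM_syS, add_tmul]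
      abel
    | add x y hx hy => simp only [map_add, LinearMap.add_apply, hx, hy]; abel
  | add x y hx hy => simp only [map_add, LinearMap.add_apply, hx, hy]; abel

theorem glT_b2 (M : Matrix (Fin 3) (Fin 3) k) (s t : S3 k ⊗[k] A) :
    b2 k A (glT M s) t + b2 k A s (glT M t) = 0 := by
  induction s using TensorProduct.induction_on with
  | zero => simp
  | tmul X p =>
    induction t using TensorProduct.induction_on with
    | zero => simp
    | tmul Y q =>
      have h := adM_trS M X Y
      simp only [glT_tmul, b2_tmul]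
      rw [← add_smul, ← mul_add, h, mul_zero, zero_smul]
    | add x y hx hy =>
      simp only [map_add, LinearMap.add_apply]
      linear_combination (norm := abel) hx + hy
  | add x y hx hy =>
    simp only [map_add, LinearMap.add_apply]
    linear_combination (norm := abel) hx + hy

theorem glT_dT (M : Matrix (Fin 3) (Fin 3) k) (T : Der k A) (s : S3 k ⊗[k] A) :
    glT M (dT T s) = dT T (glT M s) := by
  induction s using TensorProduct.induction_on with
  | zero => simp
  | tmul X p => rfl
  | add x y hx hy => simp only [map_add, hx, hy]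

/-- `gl₃` acts on the Allison–Benkart–Gao Lie algebra. -/
noncomputable def glL (M : Matrix (Fin 3) (Fin 3) k) : Module.End k (AbgLie k A) where
  toFun x := (glT M x.1, 0)
  map_add' x y := AbgLie.ext' (by change glT M (x.1 + y.1) = glT M x.1 + glT M y.1; rw [map_add])
    (by change (0 : BB k A) = 0 + 0; rw [add_zero])
  map_smul' c x := AbgLie.ext' (by change glT M (c • x.1) = c • glT M x.1; rw [map_smul])
    (by change (0 : BB k A) = c • 0; rw [smul_zero])

theorem glL_fst (M : Matrix (Fin 3) (Fin 3) k) (x : AbgLie k A) : (glL M x).1 = glT M x.1 := rfl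
theorem glL_snd (M : Matrix (Fin 3) (Fin 3) k) (x : AbgLie k A) : (glL M x).2 = 0 := rfl

/-- Derivations of `A` act on the Allison–Benkart–Gao Lie algebra. -/
noncomputable def dL (T : Der k A) : Module.End k (AbgLie k A) where
  toFun x := (dT T x.1, derB T x.2)
  map_add' x y := AbgLie.ext' (by change dT T (x.1 + y.1) = dT T x.1 + dT T y.1; rw [map_add])
    (by change derB T (x.2 + y.2) = derB T x.2 + derB T y.2; rw [map_add])
  map_smul' c x := AbgLie.ext' (by change dT T (c • x.1) = c • dT T x.1; rw [map_smul])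
    (by change derB T (c • x.2) = c • derB T x.2; rw [map_smul])

theorem dL_fst (T : Der k A) (x : AbgLie k A) : (dL T x).1 = dT T x.1 := rfl
theorem dL_snd (T : Der k A) (x : AbgLie k A) : (dL T x).2 = derB T x.2 := rfl

theorem glL_dL (M : Matrix (Fin 3) (Fin 3) k) (T : Der k A) (x : AbgLie k A) :
    glL M (dL T x) = dL T (glL M x) := by
  apply AbgLie.ext'
  · exact glT_dT M T x.1
  · change (0 : BB k A) = derB T 0
    rw [map_zero]

theorem glT_add (M N : Matrix (Fin 3) (Fin 3) k) (s : S3 k ⊗[k] A) :
    glT (M + N) s = glT M s + glT N s := by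
  rw [glT, glT, glT, map_add, LinearMap.rTensor_add, LinearMap.add_apply]

theorem glT_smul (c : k) (N : Matrix (Fin 3) (Fin 3) k) (s : S3 k ⊗[k] A) :
    glT (c • N) s = c • glT N s := by
  rw [glT, glT, map_smul, LinearMap.rTensor_smul, LinearMap.smul_apply]

/-- `glL` as a linear map. -/
noncomputable def glLL : Matrix (Fin 3) (Fin 3) k →ₗ[k] Module.End k (AbgLie k A) where
  toFun := glL
  map_add' M N := LinearMap.ext fun x => AbgLie.ext' (glT_add M N x.1) (by
    change (0 : BB k A) = 0 + 0; rw [add_zero])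
  map_smul' c N := LinearMap.ext fun x => AbgLie.ext' (glT_smul c N x.1) (by
    change (0 : BB k A) = c • 0; rw [smul_zero])

theorem glT_comm (M N : Matrix (Fin 3) (Fin 3) k) (s : S3 k ⊗[k] A) :
    glT M (glT N s) - glT N (glT M s) = glT (M * N - N * M) s := by
  induction s using TensorProduct.induction_on with
  | zero => simp
  | tmul X p =>
    have h := LinearMap.congr_fun (adM_comm M N) X
    simp only [LinearMap.sub_apply, Module.End.mul_apply] at h
    rw [glT_tmul, glT_tmul, glT_tmul, glT_tmul, glT_tmul, ← sub_tmul, h]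
  | add x y hx hy =>
    simp only [map_add, ← hx, ← hy]
    abel

theorem glL_comm (M N : Matrix (Fin 3) (Fin 3) k) :
    glL (A := A) M * glL N - glL N * glL M = glL (M * N - N * M) := by
  apply LinearMap.ext
  intro x
  apply AbgLie.ext'
  · exact glT_comm M N x.1
  · change (0 : BB k A) - 0 = 0
    rw [sub_zero]

variable [Fact (IsAlt A)]

theorem glL_lie (M : Matrix (Fin 3) (Fin 3) k) (x y : AbgLie k A) :
    glL M ⁅x, y⁆ = ⁅glL M x, y⁆ + ⁅x, glL M y⁆ := by
  have h : IsAlt A := Fact.out
  apply AbgLie.ext'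
  · change glT M (b1 k A x.1 y.1 + act h x.2 y.1 - act h y.2 x.1) =
      (b1 k A (glT M x.1) y.1 + act h 0 y.1 - act h y.2 (glT M x.1))
      + (b1 k A x.1 (glT M y.1) + act h x.2 (glT M y.1) - act h 0 x.1)
    rw [map_sub, map_add, glT_b1, act_eq, act_eq, glT_dT, glT_dT]
    simp only [map_zero, LinearMap.zero_apply, add_zero, sub_zero]
    abel
  · change (0 : BB k A) = (b2 k A (glT M x.1) y.1 + b3 h 0 y.2)
      + (b2 k A x.1 (glT M y.1) + b3 h x.2 0)
    rw [map_zero, map_zero, LinearMap.zero_apply, add_zero, add_zero, glT_b2]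

theorem dL_lie (T : Der k A) (x y : AbgLie k A) :
    dL T ⁅x, y⁆ = ⁅dL T x, y⁆ + ⁅x, dL T y⁆ := by
  have h : IsAlt A := Fact.out
  apply AbgLie.ext'
  · change dT T (b1 k A x.1 y.1 + act h x.2 y.1 - act h y.2 x.1) =
      (b1 k A (dT T x.1) y.1 + act h (derB T x.2) y.1 - act h y.2 (dT T x.1))
      + (b1 k A x.1 (dT T y.1) + act h x.2 (dT T y.1) - act h (derB T y.2) x.1)
    rw [map_sub, map_add, dT_b1, act_derB, act_derB]
    abel
  · change derB T (b2 k A x.1 y.1 + b3 h x.2 y.2) = (b2 k A (dT T x.1) y.1 + b3 h (derB T x.2) y.2)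
      + (b2 k A x.1 (dT T y.1) + b3 h x.2 (derB T y.2))
    rw [map_add, derB_b2, b3_apply, b3_apply, b3_apply, derB_derB]
    abel

end gl

end Pool.Agent.K7.H90.ABG
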