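import Pool.Agent.K7.H90.ABG.Exact

/-!
# Vanishing of the first homology in degree at least two
-/

namespace Pool.Agent.K7.H90.ABG

set_option linter.unusedSectionVars false
set_option linter.unusedSimpArgs false

open TensorProduct

section

variable {k A : Type*} [Field k] [CharZero k] [NonUnitalNonAssocRing A] [Module k A]
  [IsScalarTower k A A] [SMulCommClass k A A]

/-- The matrix unit as an element of `sl₃`. -/
noncomputable def eu {k : Type*} [Field k] (i j : Fin 3) (h : i ≠ j) : S3 k :=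
  ⟨Matrix.single i j 1, by
    change Matrix.trace (Matrix.single i j (1 : k)) = 0
    exact Matrix.trace_single_eq_of_ne _ _ _ h⟩

theorem eu_br {i l j : Fin 3} (h1 : i ≠ l) (h2 : l ≠ j) (h3 : i ≠ j) :
    brS (eu (k := k) i l h1) (eu l j h2) = eu i j h3 := by
  apply S3.ext
  rw [brS_coe]
  simp only [eu]
  rw [Matrix.single_mul_single_same, Matrix.single_mul_single_of_ne _ _ _ _ (Ne.symm h3), mul_one,
    sub_zero]

theorem eu_tr {i l j : Fin 3} (h1 : i ≠ l) (h2 : l ≠ j) (h3 : i ≠ j) :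
    trS (eu (k := k) i l h1) (eu l j h2) = 0 := by
  rw [trS_apply]
  simp only [eu]
  rw [Matrix.single_mul_single_same, Matrix.trace_single_eq_of_ne _ _ _ h3]

theorem eu_sy {i l j : Fin 3} (h1 : i ≠ l) (h2 : l ≠ j) (h3 : i ≠ j) :
    syS (eu (k := k) i l h1) (eu l j h2) = (1/2 : k) • eu i j h3 := by
  have ht := eu_tr (k := k) h1 h2 h3
  rw [trS_apply] at ht
  apply S3.ext
  rw [syS_coe, ht, S3.csmul]
  simp only [eu]
  rw [Matrix.single_mul_single_same, Matrix.single_mul_single_of_ne _ _ _ _ (Ne.symm h3), mul_one,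
    add_zero, mul_zero, zero_smul, sub_zero]

variable (k A) in
/-- The inclusion of `sl₃ ⊗ A`. -/
noncomputable def inlL : (S3 k ⊗[k] A) →ₗ[k] AbgLie k A where
  toFun p := (p, 0)
  map_add' _ _ := AbgLie.ext' rfl (add_zero _).symm
  map_smul' _ _ := AbgLie.ext' rfl (smul_zero _).symm

variable (k A) in
/-- The inclusion of `B(A)`. -/
noncomputable def inrL : BB k A →ₗ[k] AbgLie k A where
  toFun p := (0, p)
  map_add' _ _ := AbgLie.ext' (add_zero _).symm rfl
  map_smul' _ _ := AbgLie.ext' (smul_zero _).symm rfl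

variable (k A) [Fact (IsAlt A)]

/-- The space of boundaries of exterior degree one. -/
noncomputable def DD : Submodule k (AbgLie k A) :=
  (LinearMap.range (bd (k := k) (L := AbgLie k A))).comap (ExteriorAlgebra.ι k)

variable {k A}

theorem lie_mem_DD (x y : AbgLie k A) : ⁅x, y⁆ ∈ DD k A :=
  ⟨ExteriorAlgebra.ι k x * ExteriorAlgebra.ι k y, bd_ι_ι x y⟩

theorem eL_mem_DD (i j : Fin 3) {x : AbgLie k A} (hx : x ∈ DD k A) : GrData.eL i j x ∈ DD k A := by
  obtain ⟨y, hy⟩ := hx
  refine ⟨der (GrData.eL i j) y, ?_⟩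
  rw [GrData.bd_derL, hy, der_ι]

theorem lie_inl (s t : S3 k ⊗[k] A) :
    ⁅inlL k A s, inlL k A t⁆ = inlL k A (b1 k A s t) + inrL k A (b2 k A s t) := by
  have h : IsAlt A := Fact.out
  apply AbgLie.ext'
  · change b1 k A s t + act h 0 t - act h 0 s = b1 k A s t + 0
    simp
  · change b2 k A s t + b3 h 0 0 = 0 + b2 k A s t
    simp

theorem eu_mem_DD {i l j : Fin 3} (h1 : i ≠ l) (h2 : l ≠ j) (h3 : i ≠ j) (p q : A) :
    inlL k A (eu i j h3 ⊗ₜ (p * q)) ∈ DD k A := by
  have h := lie_mem_DD (inlL k A (eu (k := k) i l h1 ⊗ₜ p)) (inlL k A (eu l j h2 ⊗ₜ q))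
  rw [lie_inl, b1_tmul, b2_tmul, eu_br h1 h2 h3, eu_sy h1 h2 h3, eu_tr h1 h2 h3, mul_zero,
    zero_smul, smul_tmul, ← tmul_add, map_zero, add_zero] at h
  have e : jA k A p q + (1/2 : k) • cA k A p q = p * q := by
    rw [jA_apply, cA_apply]; module
  rwa [e] at h

theorem sb_mem_DD (l : Fin 8) (p q : A) : inlL k A (sb l ⊗ₜ (p * q)) ∈ DD k A := by
  have key : ∀ i j : Fin 3, ∀ h : i ≠ j, inlL k A (eu i j h ⊗ₜ (p * q)) ∈ DD k A := by
    intro i j h
    have h' : ∀ i j : Fin 3, i ≠ j → ∃ l, i ≠ l ∧ l ≠ j := by decide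
    obtain ⟨l, h1, h2⟩ := h' i j h
    exact eu_mem_DD h1 h2 h p q
  have dg : ∀ i j : Fin 3, ∀ h : i ≠ j,
      inlL k A (adM (Matrix.single j i 1) (eu i j h) ⊗ₜ (p * q)) ∈ DD k A :=
    fun i j h => eL_mem_DD j i (key i j h)
  have e : ∀ X : S3 k, sb l = X → inlL k A (X ⊗ₜ (p * q)) ∈ DD k A →
      inlL k A (sb l ⊗ₜ (p * q)) ∈ DD k A := fun X h h' => by rw [h]; exact h'
  fin_cases l
  · refine e _ ?_ (key 0 1 (by decide))
    apply S3.ext; rw [sb_coe]; ext a b; fin_cases a <;> fin_cases b <;> simp [s3Equiv, eu, Matrix.single]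
  · refine e _ ?_ (key 1 2 (by decide))
    apply S3.ext; rw [sb_coe]; ext a b; fin_cases a <;> fin_cases b <;> simp [s3Equiv, eu, Matrix.single]
  · refine e _ ?_ (key 0 2 (by decide))
    apply S3.ext; rw [sb_coe]; ext a b; fin_cases a <;> fin_cases b <;> simp [s3Equiv, eu, Matrix.single]
  · refine e _ ?_ (key 1 0 (by decide))
    apply S3.ext; rw [sb_coe]; ext a b; fin_cases a <;> fin_cases b <;> simp [s3Equiv, eu, Matrix.single]
  · refine e _ ?_ (key 2 1 (by decide))
    apply S3.ext; rw [sb_coe]; ext a b; fin_cases a <;> fin_cases b <;> simp [s3Equiv, eu, Matrix.single]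
  · refine e _ ?_ (key 2 0 (by decide))
    apply S3.ext; rw [sb_coe]; ext a b; fin_cases a <;> fin_cases b <;> simp [s3Equiv, eu, Matrix.single]
  · refine e _ ?_ (dg 2 0 (by decide))
    apply S3.ext; rw [sb_coe, adM_coe]
    simp only [eu]
    rw [Matrix.single_mul_single_same, Matrix.single_mul_single_same]
    ext a b; fin_cases a <;> fin_cases b <;> simp [s3Equiv, Matrix.single]
  · refine e _ ?_ (dg 2 1 (by decide))
    apply S3.ext; rw [sb_coe, adM_coe]
    simp only [eu]
    rw [Matrix.single_mul_single_same, Matrix.single_mul_single_same]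
    ext a b; fin_cases a <;> fin_cases b <;> simp [s3Equiv, Matrix.single]

theorem X_mem_DD (X : S3 k) (p q : A) : inlL k A (X ⊗ₜ (p * q)) ∈ DD k A := by
  refine basis_ind sb (P := fun X => inlL k A (X ⊗ₜ (p * q)) ∈ DD k A) ?_ ?_ ?_ ?_ X
  · exact fun l => sb_mem_DD l p q
  · rw [zero_tmul, map_zero]; exact Submodule.zero_mem _
  · intro X Y hX hY
    rw [add_tmul, map_add]; exact Submodule.add_mem _ hX hY
  · intro c X hX
    rw [← smul_tmul', map_smul]; exact Submodule.smul_mem _ c hX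

theorem span_mem_DD (X : S3 k) {a : A} (ha : a ∈ Submodule.span k {x | ∃ p q : A, x = p * q}) :
    inlL k A (X ⊗ₜ a) ∈ DD k A := by
  induction ha using Submodule.span_induction with
  | mem y hy => obtain ⟨p, q, rfl⟩ := hy; exact X_mem_DD X p q
  | zero => rw [tmul_zero, map_zero]; exact Submodule.zero_mem _
  | add y z _ _ hy hz => rw [tmul_add, map_add]; exact Submodule.add_mem _ hy hz
  | smul c y _ hy => rw [tmul_smul, map_smul]; exact Submodule.smul_mem _ _ hy

theorem wd_mem_DD (p q : A) : inrL k A (wd k A p q) ∈ DD k A := by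
  have h10 : (1 : Fin 3) ≠ 0 := by decide
  have h01 : (0 : Fin 3) ≠ 1 := by decide
  have h := lie_mem_DD (inlL k A (eu (k := k) 0 1 h01 ⊗ₜ p)) (inlL k A (eu 1 0 h10 ⊗ₜ q))
  rw [lie_inl, b1_tmul, b2_tmul] at h
  have ht : trS (eu (k := k) 0 1 h01) (eu 1 0 h10) = 1 := by
    rw [trS_apply]
    simp only [eu]
    rw [Matrix.single_mul_single_same, mul_one]
    simp [Matrix.trace_fin_three]
  rw [ht, mul_one, map_add, map_smul] at h
  have m1 : jA k A p q ∈ Submodule.span k {x | ∃ p q : A, x = p * q} := by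
    rw [jA_apply]
    exact Submodule.smul_mem _ _ (Submodule.add_mem _ (Submodule.subset_span ⟨p, q, rfl⟩)
      (Submodule.subset_span ⟨q, p, rfl⟩))
  have m2 : cA k A p q ∈ Submodule.span k {x | ∃ p q : A, x = p * q} := by
    rw [cA_apply]
    exact (Submodule.sub_mem _ (Submodule.subset_span ⟨p, q, rfl⟩)
      (Submodule.subset_span ⟨q, p, rfl⟩))
  have h1 := span_mem_DD (brS (eu (k := k) 0 1 h01) (eu 1 0 h10)) m1
  have h2 := span_mem_DD (syS (eu (k := k) 0 1 h01) (eu 1 0 h10)) m2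
  have h3 := Submodule.smul_mem _ (3 : k) (Submodule.sub_mem _ (Submodule.sub_mem _ h h1) h2)
  convert h3 using 1
  module

theorem b_mem_DD (b : BB k A) : inrL k A b ∈ DD k A := by
  induction b using BB.induction with
  | h0 => rw [map_zero]; exact Submodule.zero_mem _
  | hw p q => exact wd_mem_DD p q
  | ha x y hx hy => rw [map_add]; exact Submodule.add_mem _ hx hy

end

namespace GrData

variable {k A J J' : Type*} [Field k] [CharZero k] [NonUnitalNonAssocRing A] [Module k A]
  [IsScalarTower k A A] [SMulCommClass k A A] (G : GrData k A J J') [Fact (IsAlt A)]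
  [LinearOrder ((Fin 8 × J) ⊕ J')]

theorem h1van {n : ℕ} (hn : 2 ≤ n) : G.H1van n := by
  intro μ z hz
  rw [ep, piece] at hz
  induction hz using Submodule.span_induction with
  | mem y hy =>
    obtain ⟨S, hS, rfl⟩ := hy
    have hc : S.card = 1 := (Prod.mk.inj hS).1
    have hs : ∑ i ∈ S, G.gL i = (n, μ) := (Prod.mk.inj hS).2
    obtain ⟨i, rfl⟩ := Finset.card_eq_one.1 hc
    rw [Finset.sum_singleton] at hs
    rw [bE_singleton]
    change G.bL i ∈ DD k A
    rcases i with ⟨l, j⟩ | j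
    · rw [bL_inl]
      change inlL k A _ ∈ DD k A
      apply span_mem_DD
      apply G.gen
      have := congrArg Prod.fst hs
      change G.dA j = n at this
      omega
    · rw [bL_inr]
      exact b_mem_DD _
  | zero => exact Submodule.zero_mem _
  | add y z _ _ hy hz => exact Submodule.add_mem _ hy hz
  | smul c y _ hy => exact Submodule.smul_mem _ _ hy

end GrData

end Pool.Agent.K7.H90.ABG
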