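import Pool.Agent.K7.H90.ABG.Lie

/-!
# The Jacobi identity
-/

namespace Pool.Agent.K7.H90.ABG

set_option linter.unusedSectionVars false
set_option linter.unusedSimpArgs false

open TensorProduct

section

variable {k A : Type*} [Field k] [CharZero k] [NonUnitalNonAssocRing A] [Module k A]
  [IsScalarTower k A A] [SMulCommClass k A A]

theorem trS_brS_cyc (X Y Z : S3 k) : trS X (brS Y Z) = trS Y (brS Z X) := by
  simp only [trS_apply, brS_coe, mul_sub, Matrix.trace_sub]
  have h1 : Matrix.trace (X.1 * (Y.1 * Z.1)) = Matrix.trace (Y.1 * (Z.1 * X.1)) := by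
    rw [Matrix.trace_mul_comm, mul_assoc]
  have h2 : Matrix.trace (X.1 * (Z.1 * Y.1)) = Matrix.trace (Y.1 * (X.1 * Z.1)) := by
    rw [← mul_assoc, Matrix.trace_mul_comm]
  rw [h1, h2]

theorem trS_syS_cyc (X Y Z : S3 k) : trS X (syS Y Z) = trS Y (syS Z X) := by
  simp only [trS_apply, syS_coe, mul_sub, mul_add, Matrix.trace_sub, Matrix.trace_add,
    mul_smul_comm, Matrix.trace_smul, mul_one, S3.tr X, S3.tr Y, smul_zero, sub_zero]
  have h1 : Matrix.trace (X.1 * (Y.1 * Z.1)) = Matrix.trace (Y.1 * (Z.1 * X.1)) := by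
    rw [Matrix.trace_mul_comm, mul_assoc]
  have h2 : Matrix.trace (X.1 * (Z.1 * Y.1)) = Matrix.trace (Y.1 * (X.1 * Z.1)) := by
    rw [← mul_assoc, Matrix.trace_mul_comm]
  rw [h1, h2]

theorem jac_b2 (X Y Z : S3 k) (p q r : A) :
    b2 k A (X ⊗ₜ p) (b1 k A (Y ⊗ₜ q) (Z ⊗ₜ r)) + b2 k A (Y ⊗ₜ q) (b1 k A (Z ⊗ₜ r) (X ⊗ₜ p))
      + b2 k A (Z ⊗ₜ r) (b1 k A (X ⊗ₜ p) (Y ⊗ₜ q)) = 0 := by
  simp only [b1_tmul, map_add, b2_tmul]
  rw [trS_brS_cyc Z X Y, trS_syS_cyc Z X Y, trS_brS_cyc X Y Z, trS_syS_cyc X Y Z]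
  have h1 := wd_cycAlt.cyc (k := k) p q r
  have h2 := wd_cycAlt.cyc (k := k) q p r
  simp only [jA_apply, cA_apply, map_smul, map_add, map_sub]
  rw [wd_cycAlt.swap p (q * r), wd_cycAlt.swap p (r * q), wd_cycAlt.swap q (r * p),
    wd_cycAlt.swap q (p * r), wd_cycAlt.swap r (p * q), wd_cycAlt.swap r (q * p)]
  generalize trS Y (brS Z X) = t
  generalize trS Y (syS Z X) = u
  linear_combination (norm := module) (-(1/3 * t * (1/2)) - 1/3 * u : k) • h1
    + (-(1/3 * t * (1/2)) + 1/3 * u : k) • h2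

theorem jac_b1 (h : IsAlt A) (X Y Z : S3 k) (p q r : A) :
    (b1 k A (X ⊗ₜ p) (b1 k A (Y ⊗ₜ q) (Z ⊗ₜ r)) - act h (b2 k A (Y ⊗ₜ q) (Z ⊗ₜ r)) (X ⊗ₜ p))
    + (b1 k A (Y ⊗ₜ q) (b1 k A (Z ⊗ₜ r) (X ⊗ₜ p)) - act h (b2 k A (Z ⊗ₜ r) (X ⊗ₜ p)) (Y ⊗ₜ q))
    + (b1 k A (Z ⊗ₜ r) (b1 k A (X ⊗ₜ p) (Y ⊗ₜ q)) - act h (b2 k A (X ⊗ₜ p) (Y ⊗ₜ q)) (Z ⊗ₜ r))
    = 0 := by
  simp only [b1_tmul, map_add, b2_tmul, act_tmul, map_smul, Submodule.coe_smul,
    LinearMap.smul_apply, DB_wd_apply, jA_apply, cA_apply]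
  -- the monomials
  obtain ⟨m1, hm1⟩ : ∃ m, m = (p * q) * r := ⟨_, rfl⟩
  obtain ⟨m2, hm2⟩ : ∃ m, m = (q * p) * r := ⟨_, rfl⟩
  obtain ⟨m3, hm3⟩ : ∃ m, m = (q * r) * p := ⟨_, rfl⟩
  obtain ⟨m4, hm4⟩ : ∃ m, m = (r * q) * p := ⟨_, rfl⟩
  obtain ⟨m5, hm5⟩ : ∃ m, m = (r * p) * q := ⟨_, rfl⟩
  obtain ⟨m6, hm6⟩ : ∃ m, m = (p * r) * q := ⟨_, rfl⟩
  obtain ⟨a, ha⟩ : ∃ m, m = (p * q) * r - p * (q * r) := ⟨_, rfl⟩
  have e1 : p * (q * r) = m1 - a := by rw [hm1, ha]; abel
  have e2 : q * (p * r) = m2 + a := by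
    rw [hm2, ha]; linear_combination (norm := abel) (-1 : ℤ) • h.hl p q r
  have e6 : p * (r * q) = m6 + a := by
    rw [hm6, ha]; linear_combination (norm := abel) (-1 : ℤ) • h.hr q r p
  have e3 : q * (r * p) = m3 - a := by
    have := h.hr p r q
    rw [hm3]; linear_combination (norm := abel) (-1 : ℤ) • this - e2 - hm2
  have e5 : r * (p * q) = m5 - a := by
    have := h.hl p r q
    rw [hm5]; linear_combination (norm := abel) (-1 : ℤ) • this - e6 - hm6
  have e4 : r * (q * p) = m4 + a := by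
    have := h.hr p q r
    rw [hm4]; linear_combination (norm := abel) (-1 : ℤ) • this - e5 - hm5
  have d1 : dd q r p = m3 - m4 + m6 - m1 - a := by
    simp only [dd]; rw [e3, e4, e2, hm1, hm2, hm6]; abel
  have d2 : dd r p q = m5 - m6 + m2 - m3 - a := by
    simp only [dd]; rw [e5, e6, e4, hm2, hm3, hm4]; abel
  have d3 : dd p q r = m1 - m2 + m4 - m5 - a := by
    simp only [dd]; rw [e1, e2, e6, hm4, hm5, hm6]; abel
  rw [d1, d2, d3]
  simp only [mul_smul_comm, smul_mul_assoc, mul_add, add_mul, mul_sub, sub_mul, e1, e2, e3, e4,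
    e5, e6, ← hm1, ← hm2, ← hm3, ← hm4, ← hm5, ← hm6]
  have t1 := congrArg (fun T => T ⊗ₜ[k] m1) (T1 X Y Z)
  have t3 := congrArg (fun T => T ⊗ₜ[k] m3) (T1 Y Z X)
  have t5 := congrArg (fun T => T ⊗ₜ[k] m5) (T1 Z X Y)
  have t6 := congrArg (fun T => T ⊗ₜ[k] m6) (T1 X Z Y)
  have t2 := congrArg (fun T => T ⊗ₜ[k] m2) (T1 Y X Z)
  have t4 := congrArg (fun T => T ⊗ₜ[k] m4) (T1 Z Y X)
  have ta := congrArg (fun T => T ⊗ₜ[k] a) (Ta X Y Z)
  rw [brS_swap Z Y, syS_swap Z Y, trS_swap Z Y, brS_swap X Z, syS_swap X Z, trS_swap X Z] at t6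
  rw [brS_swap X Z, syS_swap X Z, trS_swap X Z, brS_swap Y X, syS_swap Y X, trS_swap Y X] at t2
  rw [brS_swap Y X, syS_swap Y X, trS_swap Y X, brS_swap Z Y, syS_swap Z Y, trS_swap Z Y] at t4
  simp only [map_neg, smul_neg, add_tmul, sub_tmul, neg_tmul, ← smul_tmul', zero_tmul]
    at t1 t2 t3 t4 t5 t6 ta
  simp only [tmul_smul, tmul_add, tmul_sub]
  linear_combination (norm := module) t1 + t3 + t5 - t6 - t2 - t4 + ta

/-- The `sl₃ ⊗ A`-part of the Jacobi sum on `sl₃ ⊗ A`. -/
theorem jac_b1' (h : IsAlt A) (s t u : S3 k ⊗[k] A) :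
    (b1 k A s (b1 k A t u) - act h (b2 k A t u) s)
    + (b1 k A t (b1 k A u s) - act h (b2 k A u s) t)
    + (b1 k A u (b1 k A s t) - act h (b2 k A s t) u) = 0 := by
  induction s using TensorProduct.induction_on with
  | zero => simp
  | tmul X p =>
    induction t using TensorProduct.induction_on with
    | zero => simp
    | tmul Y q =>
      induction u using TensorProduct.induction_on with
      | zero => simp
      | tmul Z r => exact jac_b1 h X Y Z p q r
      | add x y hx hy =>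
        simp only [map_add, LinearMap.add_apply]
        linear_combination (norm := abel) hx + hy
    | add x y hx hy =>
      simp only [map_add, LinearMap.add_apply]
      linear_combination (norm := abel) hx + hy
  | add x y hx hy =>
    simp only [map_add, LinearMap.add_apply]
    linear_combination (norm := abel) hx + hy

theorem jac_b2' (s t u : S3 k ⊗[k] A) :
    b2 k A s (b1 k A t u) + b2 k A t (b1 k A u s) + b2 k A u (b1 k A s t) = 0 := by
  induction s using TensorProduct.induction_on with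
  | zero => simp
  | tmul X p =>
    induction t using TensorProduct.induction_on with
    | zero => simp
    | tmul Y q =>
      induction u using TensorProduct.induction_on with
      | zero => simp
      | tmul Z r => exact jac_b2 X Y Z p q r
      | add x y hx hy =>
        simp only [map_add, LinearMap.add_apply]
        linear_combination (norm := abel) hx + hy
    | add x y hx hy =>
      simp only [map_add, LinearMap.add_apply]
      linear_combination (norm := abel) hx + hy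
  | add x y hx hy =>
    simp only [map_add, LinearMap.add_apply]
    linear_combination (norm := abel) hx + hy

end

/-- The underlying space `sl₃ ⊗ A ⊕ B(A)` of the Allison–Benkart–Gao Lie algebra. -/
def AbgLie (k A : Type*) [Field k] [NonUnitalNonAssocRing A] [Module k A] : Type _ :=
  (S3 k ⊗[k] A) × BB k A

section

variable (k A : Type*) [Field k] [NonUnitalNonAssocRing A] [Module k A]

noncomputable instance : AddCommGroup (AbgLie k A) :=
  inferInstanceAs (AddCommGroup ((S3 k ⊗[k] A) × BB k A))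
noncomputable instance : Module k (AbgLie k A) :=
  inferInstanceAs (Module k ((S3 k ⊗[k] A) × BB k A))

variable {k A}

@[simp] theorem AbgLie.fst_add (x y : AbgLie k A) : (x + y).1 = x.1 + y.1 := rfl
@[simp] theorem AbgLie.snd_add (x y : AbgLie k A) : (x + y).2 = x.2 + y.2 := rfl
@[simp] theorem AbgLie.fst_smul (c : k) (x : AbgLie k A) : (c • x).1 = c • x.1 := rfl
@[simp] theorem AbgLie.snd_smul (c : k) (x : AbgLie k A) : (c • x).2 = c • x.2 := rfl
@[simp] theorem AbgLie.fst_zero : (0 : AbgLie k A).1 = 0 := rfl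
@[simp] theorem AbgLie.snd_zero : (0 : AbgLie k A).2 = 0 := rfl
theorem AbgLie.ext' {x y : AbgLie k A} (h1 : x.1 = y.1) (h2 : x.2 = y.2) : x = y := Prod.ext h1 h2

end

section

variable {k A : Type*} [Field k] [CharZero k] [NonUnitalNonAssocRing A] [Module k A]
  [IsScalarTower k A A] [SMulCommClass k A A]

/-- The bracket of the Allison–Benkart–Gao Lie algebra. -/
noncomputable def brG (h : IsAlt A) : AbgLie k A →ₗ[k] AbgLie k A →ₗ[k] AbgLie k A :=
  LinearMap.mk₂ k (fun x y => (b1 k A x.1 y.1 + act h x.2 y.1 - act h y.2 x.1,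
      b2 k A x.1 y.1 + b3 h x.2 y.2))
    (by
      intro x x' y
      apply AbgLie.ext'
      · change b1 k A (x.1 + x'.1) y.1 + act h (x.2 + x'.2) y.1 - act h y.2 (x.1 + x'.1) =
          (b1 k A x.1 y.1 + act h x.2 y.1 - act h y.2 x.1)
            + (b1 k A x'.1 y.1 + act h x'.2 y.1 - act h y.2 x'.1)
        simp only [map_add, LinearMap.add_apply]; abel
      · change b2 k A (x.1 + x'.1) y.1 + b3 h (x.2 + x'.2) y.2 =
          (b2 k A x.1 y.1 + b3 h x.2 y.2) + (b2 k A x'.1 y.1 + b3 h x'.2 y.2)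
        simp only [map_add, LinearMap.add_apply]; abel)
    (by
      intro c x y
      apply AbgLie.ext'
      · change b1 k A (c • x.1) y.1 + act h (c • x.2) y.1 - act h y.2 (c • x.1) =
          c • (b1 k A x.1 y.1 + act h x.2 y.1 - act h y.2 x.1)
        simp only [map_smul, LinearMap.smul_apply, smul_sub, smul_add]
      · change b2 k A (c • x.1) y.1 + b3 h (c • x.2) y.2 = c • (b2 k A x.1 y.1 + b3 h x.2 y.2)
        simp only [map_smul, LinearMap.smul_apply, smul_add])
    (by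
      intro x y y'
      apply AbgLie.ext'
      · change b1 k A x.1 (y.1 + y'.1) + act h x.2 (y.1 + y'.1) - act h (y.2 + y'.2) x.1 =
          (b1 k A x.1 y.1 + act h x.2 y.1 - act h y.2 x.1)
            + (b1 k A x.1 y'.1 + act h x.2 y'.1 - act h y'.2 x.1)
        simp only [map_add, LinearMap.add_apply]; abel
      · change b2 k A x.1 (y.1 + y'.1) + b3 h x.2 (y.2 + y'.2) =
          (b2 k A x.1 y.1 + b3 h x.2 y.2) + (b2 k A x.1 y'.1 + b3 h x.2 y'.2)
        simp only [map_add, LinearMap.add_apply]; abel)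
    (by
      intro c x y
      apply AbgLie.ext'
      · change b1 k A x.1 (c • y.1) + act h x.2 (c • y.1) - act h (c • y.2) x.1 =
          c • (b1 k A x.1 y.1 + act h x.2 y.1 - act h y.2 x.1)
        simp only [map_smul, LinearMap.smul_apply, smul_sub, smul_add]
      · change b2 k A x.1 (c • y.1) + b3 h x.2 (c • y.2) = c • (b2 k A x.1 y.1 + b3 h x.2 y.2)
        simp only [map_smul, LinearMap.smul_apply, smul_add])

theorem brG_fst (h : IsAlt A) (x y : AbgLie k A) :
    (brG h x y).1 = b1 k A x.1 y.1 + act h x.2 y.1 - act h y.2 x.1 := rfl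

theorem brG_snd (h : IsAlt A) (x y : AbgLie k A) :
    (brG h x y).2 = b2 k A x.1 y.1 + b3 h x.2 y.2 := rfl

theorem brG_swap (h : IsAlt A) (x y : AbgLie k A) : brG h x y = - brG h y x := by
  apply AbgLie.ext'
  · change (brG h x y).1 = - (brG h y x).1
    rw [brG_fst, brG_fst, b1_swap]; abel
  · change (brG h x y).2 = - (brG h y x).2
    rw [brG_snd, brG_snd, b2_swap, b3_swap]; abel

theorem brG_jac (h : IsAlt A) (x y z : AbgLie k A) :
    brG h x (brG h y z) + brG h y (brG h z x) + brG h z (brG h x y) = 0 := by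
  apply AbgLie.ext'
  · change (brG h x (brG h y z)).1 + (brG h y (brG h z x)).1 + (brG h z (brG h x y)).1 = 0
    simp only [brG_fst, brG_snd, map_add, map_sub, LinearMap.add_apply]
    have h0 := jac_b1' h x.1 y.1 z.1
    have d1 := dT_b1 (DB h x.2) y.1 z.1
    have d2 := dT_b1 (DB h y.2) z.1 x.1
    have d3 := dT_b1 (DB h z.2) x.1 y.1
    rw [b1_swap (dT (DB h x.2) y.1) z.1] at d1
    rw [b1_swap (dT (DB h y.2) z.1) x.1] at d2
    rw [b1_swap (dT (DB h z.2) x.1) y.1] at d3
    have a1 := act_derB h (DB h x.2) y.2 z.1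
    have a2 := act_derB h (DB h y.2) z.2 x.1
    have a3 := act_derB h (DB h z.2) x.2 y.1
    simp only [← act_eq, ← b3_apply] at d1 d2 d3 a1 a2 a3
    linear_combination (norm := abel) h0 + d1 + d2 + d3 - a1 - a2 - a3
  · change (brG h x (brG h y z)).2 + (brG h y (brG h z x)).2 + (brG h z (brG h x y)).2 = 0
    simp only [brG_fst, brG_snd, map_add, map_sub, LinearMap.add_apply]
    have h0 := jac_b2' x.1 y.1 z.1
    have d1 := derB_b2 (DB h x.2) y.1 z.1
    have d2 := derB_b2 (DB h y.2) z.1 x.1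
    have d3 := derB_b2 (DB h z.2) x.1 y.1
    rw [b2_swap (dT (DB h x.2) y.1) z.1] at d1
    rw [b2_swap (dT (DB h y.2) z.1) x.1] at d2
    rw [b2_swap (dT (DB h z.2) x.1) y.1] at d3
    have a1 := derB_derB h (DB h x.2) y.2 z.2
    simp only [← act_eq, ← b3_apply] at d1 d2 d3 a1
    have s1 := b3_swap h (b3 h x.2 y.2) z.2
    have s2 : b3 h y.2 (b3 h z.2 x.2) = - b3 h y.2 (b3 h x.2 z.2) := by
      rw [b3_swap h z.2 x.2, map_neg]
    linear_combination (norm := abel) h0 + d1 + d2 + d3 - a1 + s1 + s2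

noncomputable instance [Fact (IsAlt A)] : LieRing (AbgLie k A) where
  bracket x y := brG Fact.out x y
  add_lie x y z := by
    change brG _ (x + y) z = brG _ x z + brG _ y z
    rw [map_add, LinearMap.add_apply]
  lie_add x y z := by
    change brG _ x (y + z) = brG _ x y + brG _ x z
    rw [map_add]
  lie_self x := by
    change brG _ x x = 0
    have h := brG_swap (k := k) (Fact.out : IsAlt A) x x
    have h2 : (2 : k) • brG (k := k) (Fact.out : IsAlt A) x x = 0 := by
      rw [two_smul]; linear_combination (norm := abel) h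
    exact (smul_eq_zero.1 h2).resolve_left two_ne_zero
  leibniz_lie x y z := by
    change brG _ x (brG _ y z) = brG _ (brG _ x y) z + brG _ y (brG _ x z)
    have h := brG_jac (k := k) (Fact.out : IsAlt A) x y z
    rw [brG_swap _ z x, map_neg, brG_swap _ z (brG _ x y)] at h
    linear_combination (norm := abel) h

noncomputable instance [Fact (IsAlt A)] : LieAlgebra k (AbgLie k A) where
  lie_smul c x y := by
    change brG _ x (c • y) = c • brG _ x y
    rw [map_smul]

theorem AbgLie.lie_def [Fact (IsAlt A)] (x y : AbgLie k A) : ⁅x, y⁆ = brG Fact.out x y := rfl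

end

end Pool.Agent.K7.H90.ABG
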