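import Pool.Agent.K7.H90.ABG.GlL

/-!
# Graded weight basis of the Allison–Benkart–Gao Lie algebra
-/

namespace Pool.Agent.K7.H90.ABG

set_option linter.unusedSectionVars false
set_option linter.unusedSimpArgs false

open TensorProduct

/-- Grading data for an alternative algebra. -/
structure GrData (k A J J' : Type*) [Field k] [CharZero k] [NonUnitalNonAssocRing A] [Module k A]
  [IsScalarTower k A A] [SMulCommClass k A A] where
  bA : Module.Basis J k A
  dA : J → ℕ
  T : Der k A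
  hT : ∀ j, T.1 (bA j) = (dA j : k) • bA j
  bB : Module.Basis J' k (BB k A)
  dB : J' → ℕ
  hB : ∀ j, derB T (bB j) = (dB j : k) • bB j
  posA : ∀ j, 1 ≤ dA j
  posB : ∀ j, 1 ≤ dB j
  finA : ∀ n, {j | dA j = n}.Finite
  finB : ∀ n, {j | dB j = n}.Finite
  gen : ∀ j, 2 ≤ dA j → bA j ∈ Submodule.span k {x | ∃ p q : A, x = p * q}

namespace GrData

variable {k A J J' : Type*} [Field k] [CharZero k] [NonUnitalNonAssocRing A] [Module k A]
  [IsScalarTower k A A] [SMulCommClass k A A] (G : GrData k A J J')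

/-- The basis of the Lie algebra. -/
noncomputable def bL : Module.Basis ((Fin 8 × J) ⊕ J') k (AbgLie k A) :=
  Module.Basis.prod (sb.tensorProduct G.bA) G.bB

/-- The labels (degree, weight). -/
def gL : (Fin 8 × J) ⊕ J' → ℕ × (ℤ × ℤ) :=
  Sum.elim (fun p => (G.dA p.2, sw p.1)) (fun j => (G.dB j, 0))

theorem bL_inl (l : Fin 8) (j : J) : G.bL (Sum.inl (l, j)) = (sb l ⊗ₜ G.bA j, 0) := by
  have h1 := Module.Basis.prod_apply_inl_fst (sb.tensorProduct G.bA) G.bB (l, j)
  have h2 := Module.Basis.prod_apply_inl_snd (sb.tensorProduct G.bA) G.bB (l, j)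
  rw [Module.Basis.tensorProduct_apply] at h1
  exact Prod.ext h1 h2

theorem bL_inr (j : J') : G.bL (Sum.inr j) = (0, G.bB j) := by
  have h1 := Module.Basis.prod_apply_inr_fst (sb.tensorProduct G.bA) G.bB j
  have h2 := Module.Basis.prod_apply_inr_snd (sb.tensorProduct G.bA) G.bB j
  exact Prod.ext h1 h2

/-- The operator `E_{ij}` on the Lie algebra. -/
noncomputable def eL (i j : Fin 3) : Module.End k (AbgLie k A) := glL (Matrix.single i j 1)

theorem eL_comm (i j p q : Fin 3) : eL (A := A) (k := k) i j * eL p q - eL p q * eL i j =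
    (if j = p then eL i q else 0) - (if q = i then eL p j else 0) := by
  have hz : glL (A := A) (0 : Matrix (Fin 3) (Fin 3) k) = 0 := map_zero (glLL (A := A) (k := k))
  have hs : ∀ M N : Matrix (Fin 3) (Fin 3) k, glL (A := A) (M - N) = glL M - glL N :=
    fun M N => map_sub (glLL (A := A) (k := k)) M N
  rw [eL, eL, glL_comm, hs]
  congr 1
  · split_ifs with h
    · subst h; rw [Matrix.single_mul_single_same, mul_one]; rfl
    · rw [Matrix.single_mul_single_of_ne _ _ _ _ h, hz]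
  · split_ifs with h
    · subst h; rw [Matrix.single_mul_single_same, mul_one]; rfl
    · rw [Matrix.single_mul_single_of_ne _ _ _ _ h, hz]

theorem eL_diag (p : Fin 3) (i : (Fin 8 × J) ⊕ J') :
    eL p p (G.bL i) = (wt p (G.gL i).2 : k) • G.bL i := by
  rcases i with ⟨l, j⟩ | j
  · rw [bL_inl]
    refine AbgLie.ext' ?_ ?_
    · change adM (Matrix.single p p 1) (sb l) ⊗ₜ G.bA j = (wt p (sw l) : k) • (sb l ⊗ₜ G.bA j)
      rw [smul_tmul', ← eS_diag]; rfl
    · change (0 : BB k A) = (wt p (sw l) : k) • (0 : BB k A)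
      rw [smul_zero]
  · rw [bL_inr]
    have h0 : (wt p (0 : ℤ × ℤ) : k) = 0 := by fin_cases p <;> simp [wt]
    refine AbgLie.ext' ?_ ?_
    · change glT _ (0 : S3 k ⊗[k] A) = (wt p 0 : k) • (0 : S3 k ⊗[k] A)
      rw [map_zero, smul_zero]
    · change (0 : BB k A) = (wt p 0 : k) • G.bB j
      rw [h0, zero_smul]

theorem dL_diag (i : (Fin 8 × J) ⊕ J') :
    dL G.T (G.bL i) = ((G.gL i).1 : k) • G.bL i := by
  rcases i with ⟨l, j⟩ | j
  · rw [bL_inl]
    refine AbgLie.ext' ?_ ?_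
    · change sb l ⊗ₜ G.T.1 (G.bA j) = (G.dA j : k) • (sb l ⊗ₜ G.bA j)
      rw [G.hT, tmul_smul]
    · change derB G.T 0 = (G.dA j : k) • (0 : BB k A)
      rw [map_zero, smul_zero]
  · rw [bL_inr]
    refine AbgLie.ext' ?_ ?_
    · change dT G.T (0 : S3 k ⊗[k] A) = (G.dB j : k) • (0 : S3 k ⊗[k] A)
      rw [map_zero, smul_zero]
    · exact G.hB j

/-- The grading operators. -/
noncomputable def Th : Option (Fin 3) → Module.End k (AbgLie k A)
  | none => dL G.T
  | some p => eL p p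

/-- The eigenvalues of the grading operators. -/
def cTh (k : Type*) [Field k] : Option (Fin 3) → ℕ × (ℤ × ℤ) → k
  | none => fun γ => (γ.1 : k)
  | some p => fun γ => (wt p γ.2 : k)

theorem Th_diag (s : Option (Fin 3)) (i : (Fin 8 × J) ⊕ J') :
    G.Th s (G.bL i) = cTh k s (G.gL i) • G.bL i := by
  rcases s with _ | p
  · exact G.dL_diag i
  · exact G.eL_diag p i

theorem cTh_inj (γ γ' : ℕ × (ℤ × ℤ)) (h : ∀ s, cTh k s γ = cTh k s γ') : γ = γ' := by
  have e0 : (γ.1 : k) = (γ'.1 : k) := h none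
  have e1 : (wt 0 γ.2 : k) = (wt 0 γ'.2 : k) := h (some 0)
  have e2 : (wt 1 γ.2 : k) = (wt 1 γ'.2 : k) := h (some 1)
  have h0 : γ.1 = γ'.1 := by exact_mod_cast e0
  have h1 : wt 0 γ.2 = wt 0 γ'.2 := by exact_mod_cast e1
  have h2 : wt 1 γ.2 = wt 1 γ'.2 := by exact_mod_cast e2
  exact Prod.ext h0 (Prod.ext h1 h2)

theorem wt_add (p : Fin 3) (μ ν : ℤ × ℤ) : wt p (μ + ν) = wt p μ + wt p ν := by
  fin_cases p <;> simp [wt]
  ring

theorem cTh_add (s : Option (Fin 3)) (γ γ' : ℕ × (ℤ × ℤ)) :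
    cTh k s (γ + γ') = cTh k s γ + cTh k s γ' := by
  rcases s with _ | p
  · simp [cTh]
  · simp only [cTh, Prod.snd_add, wt_add]; push_cast; rfl

theorem mem_pL {γ : ℕ × (ℤ × ℤ)} {x : AbgLie k A} (hx : ∀ s, G.Th s x = cTh k s γ • x) :
    x ∈ piece G.bL G.gL γ :=
  mem_piece_of_eig G.bL G.gL G.Th (cTh k) G.Th_diag cTh_inj hx

theorem eig_pL {γ : ℕ × (ℤ × ℤ)} {x : AbgLie k A} (hx : x ∈ piece G.bL G.gL γ)
    (s : Option (Fin 3)) : G.Th s x = cTh k s γ • x :=
  eig_of_mem_piece G.bL G.gL (G.Th s) (cTh k s) (G.Th_diag s) hx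

theorem eL_piece (i j : Fin 3) {γ : ℕ × (ℤ × ℤ)} {x : AbgLie k A}
    (hx : x ∈ piece G.bL G.gL γ) : eL i j x ∈ piece G.bL G.gL (((0, rt i j) : ℕ × (ℤ × ℤ)) + γ) := by
  apply G.mem_pL
  intro s
  rcases s with _ | p
  · change dL G.T (eL i j x) = _
    rw [eL, ← glL_dL, show dL G.T x = (γ.1 : k) • x from G.eig_pL hx none, map_smul]
    simp [cTh]
  · change eL p p (eL i j x) = _
    have h := LinearMap.congr_fun (eL_comm (k := k) (A := A) p p i j) x
    simp only [LinearMap.sub_apply, Module.End.mul_apply] at h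
    have h1 : ∀ (c : Prop) [Decidable c] (T : Module.End k (AbgLie k A)), (if c then T else 0) x =
        (if c then (1 : k) else 0) • T x := by
      intro c _ T; split_ifs <;> simp
    rw [h1, h1, show eL p p x = (wt p γ.2 : k) • x from G.eig_pL hx (some p), map_smul] at h
    rw [cTh_add]
    change _ = ((wt p (rt i j) : k) + (wt p γ.2 : k)) • _
    have h2 : ((if p = i then (1 : k) else 0) • (eL p j x : AbgLie k A)) =
        (if p = i then (1 : k) else 0) • eL i j x := by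
      split_ifs with h'
      · subst h'; rfl
      · simp
    have h3 : ((if j = p then (1 : k) else 0) • (eL i p x : AbgLie k A)) =
        (if j = p then (1 : k) else 0) • eL i j x := by
      split_ifs with h'
      · subst h'; rfl
      · simp
    rw [h2, h3] at h
    have h4 : (wt p (rt i j) : k) = (if p = i then (1 : k) else 0) - (if j = p then (1 : k) else 0) := by
      rw [← wt_rt]
      push_cast
      simp only [eq_comm]
    rw [h4]
    linear_combination (norm := module) h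

variable [Fact (IsAlt A)]

theorem Th_lie (s : Option (Fin 3)) (x y : AbgLie k A) :
    G.Th s ⁅x, y⁆ = ⁅G.Th s x, y⁆ + ⁅x, G.Th s y⁆ := by
  rcases s with _ | p
  · exact dL_lie _ _ _
  · exact glL_lie _ _ _

theorem lie_piece {γ γ' : ℕ × (ℤ × ℤ)} {x y : AbgLie k A} (hx : x ∈ piece G.bL G.gL γ)
    (hy : y ∈ piece G.bL G.gL γ') : ⁅x, y⁆ ∈ piece G.bL G.gL (γ + γ') := by
  apply G.mem_pL
  intro s
  rw [Th_lie, G.eig_pL hx s, G.eig_pL hy s, cTh_add, smul_lie, lie_smul, add_smul]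

theorem lie_bL (i j : (Fin 8 × J) ⊕ J') :
    ⁅G.bL i, G.bL j⁆ ∈ piece G.bL G.gL (G.gL i + G.gL j) :=
  G.lie_piece (basis_mem_piece _ _ i) (basis_mem_piece _ _ j)

end GrData

end Pool.Agent.K7.H90.ABG
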