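import Pool.Agent.K7.H90.ABG.Sl3

/-!
# The Allison–Benkart–Gao Lie algebra of an alternative algebra
-/

namespace Pool.Agent.K7.H90.ABG

set_option linter.unusedSectionVars false
set_option linter.unusedSimpArgs false

open TensorProduct

variable (k A : Type*) [Field k] [CharZero k] [NonUnitalNonAssocRing A] [Module k A]
  [IsScalarTower k A A] [SMulCommClass k A A]

/-- The Jordan product `p · q = ½ (pq + qp)`. -/
noncomputable def jA : A →ₗ[k] A →ₗ[k] A :=
  (1/2 : k) • (LinearMap.mul k A + (LinearMap.mul k A).flip)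

/-- The commutator `pq - qp`. -/
noncomputable def cA : A →ₗ[k] A →ₗ[k] A := LinearMap.mul k A - (LinearMap.mul k A).flip

variable {k A}

theorem jA_apply (p q : A) : jA k A p q = (1/2 : k) • (p * q + q * p) := rfl
theorem cA_apply (p q : A) : cA k A p q = p * q - q * p := rfl

variable (k A)

/-- The `sl₃ ⊗ A`-component of the bracket of two elements of `sl₃ ⊗ A`. -/
noncomputable def b1 : (S3 k ⊗[k] A) →ₗ[k] (S3 k ⊗[k] A) →ₗ[k] (S3 k ⊗[k] A) :=
  TensorProduct.map₂ brS (jA k A) + TensorProduct.map₂ syS (cA k A)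

/-- The `B(A)`-component of the bracket of two elements of `sl₃ ⊗ A`. -/
noncomputable def b2 : (S3 k ⊗[k] A) →ₗ[k] (S3 k ⊗[k] A) →ₗ[k] BB k A :=
  (1/3 : k) • (TensorProduct.map₂ trS (wd k A)).compr₂ (TensorProduct.lid k (BB k A)).toLinearMap

variable {k A}

theorem b1_tmul (X Y : S3 k) (p q : A) :
    b1 k A (X ⊗ₜ p) (Y ⊗ₜ q) = brS X Y ⊗ₜ jA k A p q + syS X Y ⊗ₜ cA k A p q := by
  simp [b1]

theorem b2_tmul (X Y : S3 k) (p q : A) :
    b2 k A (X ⊗ₜ p) (Y ⊗ₜ q) = (1/3 * trS X Y : k) • wd k A p q := by
  simp [b2, smul_smul]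

/-- The action of `B(A)` on `sl₃ ⊗ A`. -/
noncomputable def act (h : IsAlt A) : BB k A →ₗ[k] Module.End k (S3 k ⊗[k] A) :=
  (LinearMap.lTensorHom (S3 k)).comp ((Der k A).subtype.comp (DB h))

theorem act_tmul (h : IsAlt A) (b : BB k A) (X : S3 k) (r : A) :
    act h b (X ⊗ₜ r) = X ⊗ₜ (DB h b).1 r := rfl

/-- The bracket of `B(A)`. -/
noncomputable def b3 (h : IsAlt A) : BB k A →ₗ[k] Module.End k (BB k A) := derB.comp (DB h)

theorem b3_apply (h : IsAlt A) (b c : BB k A) : b3 h b c = derB (DB h b) c := rfl

theorem b3_swap (h : IsAlt A) (b c : BB k A) : b3 h b c = - b3 h c b := by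
  induction b using BB.induction with
  | h0 => simp
  | hw p q =>
    induction c using BB.induction with
    | h0 => simp
    | hw r s =>
      have := wd_cycAlt.skew (k := k) h p q r s
      rw [b3_apply, b3_apply, derB_wd, derB_wd, DB_wd, DB_wd]
      simp only [ddL_apply]
      linear_combination (norm := abel) this
    | ha x y hx hy => rw [map_add, hx, hy, map_add, LinearMap.add_apply]; abel
  | ha x y hx hy => rw [map_add, LinearMap.add_apply, hx, hy, map_add]; abel

theorem b1_swap (s t : S3 k ⊗[k] A) : b1 k A s t = - b1 k A t s := by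
  induction s using TensorProduct.induction_on with
  | zero => simp
  | tmul X p =>
    induction t using TensorProduct.induction_on with
    | zero => simp
    | tmul Y q =>
      rw [b1_tmul, b1_tmul, brS_swap X Y, syS_swap X Y]
      have h1 : jA k A p q = jA k A q p := by rw [jA_apply, jA_apply, add_comm]
      have h2 : cA k A p q = - cA k A q p := by rw [cA_apply, cA_apply]; abel
      rw [h1, h2, neg_tmul, tmul_neg]; abel
    | add x y hx hy => rw [map_add, hx, hy, map_add, LinearMap.add_apply]; abel
  | add x y hx hy => rw [map_add, LinearMap.add_apply, hx, hy, map_add]; abel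

theorem b2_swap (s t : S3 k ⊗[k] A) : b2 k A s t = - b2 k A t s := by
  induction s using TensorProduct.induction_on with
  | zero => simp
  | tmul X p =>
    induction t using TensorProduct.induction_on with
    | zero => simp
    | tmul Y q =>
      rw [b2_tmul, b2_tmul, trS_swap X Y, wd_cycAlt.swap p q, smul_neg]
    | add x y hx hy => rw [map_add, hx, hy, map_add, LinearMap.add_apply]; abel
  | add x y hx hy => rw [map_add, LinearMap.add_apply, hx, hy, map_add]; abel

/-- A derivation acts on `sl₃ ⊗ A`. -/
noncomputable def dT (T : Der k A) : Module.End k (S3 k ⊗[k] A) := LinearMap.lTensor (S3 k) T.1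

theorem dT_tmul (T : Der k A) (X : S3 k) (r : A) : dT T (X ⊗ₜ r) = X ⊗ₜ T.1 r := rfl

theorem act_eq (h : IsAlt A) (b : BB k A) : act h b = dT (DB h b) := rfl

theorem dT_b1 (T : Der k A) (s t : S3 k ⊗[k] A) :
    dT T (b1 k A s t) = b1 k A (dT T s) t + b1 k A s (dT T t) := by
  induction s using TensorProduct.induction_on with
  | zero => simp
  | tmul X p =>
    induction t using TensorProduct.induction_on with
    | zero => simp
    | tmul Y q =>
      simp only [dT_tmul, b1_tmul, map_add, jA_apply, cA_apply, map_smul, map_sub, Der.mul T]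
      simp only [← tmul_add, ← add_assoc]
      have e1 : brS X Y ⊗ₜ[k] ((1/2 : k) • (T.1 p * q + p * T.1 q + T.1 q * p + q * T.1 p)) =
        brS X Y ⊗ₜ[k] ((1/2 : k) • (T.1 p * q + q * T.1 p))
          + brS X Y ⊗ₜ[k] ((1/2 : k) • (p * T.1 q + T.1 q * p)) := by
        rw [← tmul_add]; congr 1; module
      have e2 : syS X Y ⊗ₜ[k] (T.1 p * q + p * T.1 q - (T.1 q * p + q * T.1 p)) =
        syS X Y ⊗ₜ[k] (T.1 p * q - q * T.1 p) + syS X Y ⊗ₜ[k] (p * T.1 q - T.1 q * p) := by
        rw [← tmul_add]; congr 1; abel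
      rw [e1, e2]; abel
    | add x y hx hy => simp only [map_add, LinearMap.add_apply, hx, hy]; abel
  | add x y hx hy => simp only [map_add, LinearMap.add_apply, hx, hy]; abel

theorem derB_b2 (T : Der k A) (s t : S3 k ⊗[k] A) :
    derB T (b2 k A s t) = b2 k A (dT T s) t + b2 k A s (dT T t) := by
  induction s using TensorProduct.induction_on with
  | zero => simp
  | tmul X p =>
    induction t using TensorProduct.induction_on with
    | zero => simp
    | tmul Y q => simp only [dT_tmul, b2_tmul, map_smul, derB_wd, smul_add]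
    | add x y hx hy => simp only [map_add, LinearMap.add_apply, hx, hy]; abel
  | add x y hx hy => simp only [map_add, LinearMap.add_apply, hx, hy]; abel

theorem act_derB (h : IsAlt A) (T : Der k A) (b : BB k A) (s : S3 k ⊗[k] A) :
    act h (derB T b) s = dT T (act h b s) - act h b (dT T s) := by
  induction s using TensorProduct.induction_on with
  | zero => simp
  | tmul X p =>
    rw [act_tmul, act_tmul, dT_tmul, dT_tmul, act_tmul, DB_derB, tmul_sub]
  | add x y hx hy => simp only [map_add, hx, hy]; abel

theorem derB_derB (h : IsAlt A) (T : Der k A) (b c : BB k A) :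
    derB (DB h (derB T b)) c = derB T (derB (DB h b) c) - derB (DB h b) (derB T c) := by
  induction c using BB.induction with
  | h0 => simp
  | hw p q =>
    simp only [derB_wd, map_add, DB_derB, map_sub, LinearMap.sub_apply]
    abel
  | ha x y hx hy => simp only [map_add, hx, hy]; abel

end Pool.Agent.K7.H90.ABG
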