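import Mathlib

/-!
# Weight families for `gl₃` and the multiplicity of the trivial representation
-/

namespace Pool.Agent.K7.H90.ABG

set_option linter.unusedSectionVars false
set_option linter.unusedSimpArgs false

/-- The unit vectors (last coordinate forgotten). -/
def ev : Fin 3 → ℤ × ℤ := ![(1, 0), (0, 1), (0, 0)]

/-- The root `ε_i - ε_j`. -/
def rt (i j : Fin 3) : ℤ × ℤ := ev i - ev j

/-- The coordinates of a weight. -/
def wt : Fin 3 → ℤ × ℤ → ℤ := ![fun μ => μ.1, fun μ => μ.2, fun μ => -μ.1 - μ.2]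

/-- A family of weight spaces for operators `E i j` satisfying the relations of `gl₃` (with the
identity acting by zero). -/
structure WtFam (k Λ : Type*) [Field k] [AddCommGroup Λ] [Module k Λ] where
  E : Fin 3 → Fin 3 → Module.End k Λ
  W : ℤ × ℤ → Submodule k Λ
  comm : ∀ i j p q, E i j * E p q - E p q * E i j =
    (if j = p then E i q else 0) - (if q = i then E p j else 0)
  shift : ∀ i j μ v, v ∈ W μ → E i j v ∈ W (μ + rt i j)
  diag : ∀ i μ v, v ∈ W μ → E i i v = (wt i μ : k) • v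
  fd : ∀ μ, FiniteDimensional k (W μ)
  B : ℕ
  bdd : ∀ μ, ((B:ℤ) < |μ.1| ∨ (B:ℤ) < |μ.2|) → W μ = ⊥

namespace WtFam

variable {k Λ : Type*} [Field k] [CharZero k] [AddCommGroup Λ] [Module k Λ] (F : WtFam k Λ)

theorem comm' (i j p q : Fin 3) (v : Λ) : F.E i j (F.E p q v) = F.E p q (F.E i j v) +
    ((if j = p then F.E i q v else 0) - (if q = i then F.E p j v else 0)) := by
  have h := LinearMap.congr_fun (F.comm i j p q) v
  simp only [LinearMap.sub_apply, Module.End.mul_apply] at h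
  have h1 : ∀ (c : Prop) [Decidable c] (T : Module.End k Λ), (if c then T else 0) v =
      if c then T v else 0 := by
    intro c _ T; split_ifs <;> simp
  rw [h1, h1] at h
  rw [← h]; abel

theorem shift' {i j : Fin 3} {μ ν : ℤ × ℤ} (h : μ + rt i j = ν) {v : Λ} (hv : v ∈ F.W μ) :
    F.E i j v ∈ F.W ν := h ▸ F.shift i j μ v hv

/-- The dual family. -/
def dual : WtFam k Λ where
  E i j := - F.E j i
  W μ := F.W (-μ)
  comm i j p q := by
    have h := F.comm j i q p
    rw [neg_mul_neg, neg_mul_neg, h]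
    by_cases h1 : j = p <;> by_cases h2 : q = i
    · subst h1; subst h2; simp; abel
    · subst h1; simp [h2, Ne.symm h2]
    · subst h2; simp [h1, Ne.symm h1]
    · simp [h1, h2, Ne.symm h1, Ne.symm h2]
  shift i j μ v hv := by
    have h := F.shift j i (-μ) v hv
    have e : -μ + rt j i = -(μ + rt i j) := by simp only [rt]; abel
    rw [e] at h
    exact Submodule.neg_mem _ h
  diag i μ v hv := by
    have h := F.diag i (-μ) v hv
    rw [LinearMap.neg_apply, h, ← neg_smul]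
    congr 1
    fin_cases i <;> simp [wt]
    ring
  fd μ := F.fd (-μ)
  B := F.B
  bdd μ h := by
    apply F.bdd
    simpa using h

/-- The Casimir operator. -/
def Om : Module.End k Λ := ∑ i : Fin 3, ∑ j : Fin 3, F.E i j * F.E j i

theorem Om_apply (v : Λ) : F.Om v = ∑ i : Fin 3, ∑ j : Fin 3, F.E i j (F.E j i v) := by
  simp [Om, LinearMap.sum_apply]

theorem Om_comm (p q : Fin 3) : F.E p q * F.Om = F.Om * F.E p q := by
  have h : ∀ i j, F.E p q * (F.E i j * F.E j i) - (F.E i j * F.E j i) * F.E p q =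
      ((if q = i then F.E p j else 0) - (if j = p then F.E i q else 0)) * F.E j i
        + F.E i j * ((if q = j then F.E p i else 0) - (if i = p then F.E j q else 0)) := by
    intro i j
    rw [← F.comm p q i j, ← F.comm p q j i]
    noncomm_ring
  have h2 : F.E p q * F.Om - F.Om * F.E p q = 0 := by
    rw [Om, Finset.mul_sum, Finset.sum_mul, ← Finset.sum_sub_distrib]
    have : ∀ i, F.E p q * ∑ j, F.E i j * F.E j i - (∑ j, F.E i j * F.E j i) * F.E p q =
        ∑ j, (((if q = i then F.E p j else 0) - (if j = p then F.E i q else 0)) * F.E j i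
        + F.E i j * ((if q = j then F.E p i else 0) - (if i = p then F.E j q else 0))) := by
      intro i
      rw [Finset.mul_sum, Finset.sum_mul, ← Finset.sum_sub_distrib]
      exact Finset.sum_congr rfl (fun j _ => h i j)
    rw [Finset.sum_congr rfl (fun i _ => this i)]
    clear h this
    fin_cases p <;> fin_cases q <;>
      simp [Fin.sum_univ_three, sub_mul, mul_sub] <;> abel
  exact sub_eq_zero.1 h2

theorem dual_Om : F.dual.Om = F.Om := by
  apply LinearMap.ext
  intro v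
  rw [Om_apply, Om_apply, Finset.sum_comm]
  refine Finset.sum_congr rfl (fun i _ => Finset.sum_congr rfl (fun j _ => ?_))
  simp [dual]

theorem wt_shift {i j : Fin 3} (hij : i ≠ j) (μ : ℤ × ℤ) (n : ℤ) :
    wt i (μ + n • rt j i) = wt i μ - n ∧ wt j (μ + n • rt j i) = wt j μ + n := by
  fin_cases i <;> fin_cases j <;> simp [wt, rt, ev] at hij ⊢ <;> ring_nf <;> simp

theorem pow_mem {i j : Fin 3} {μ : ℤ × ℤ} {v : Λ} (hv : v ∈ F.W μ) (n : ℕ) :
    (F.E j i ^ n) v ∈ F.W (μ + (n : ℤ) • rt j i) := by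
  induction n with
  | zero => simpa using hv
  | succ n ih =>
    rw [pow_succ', Module.End.mul_apply]
    refine F.shift' ?_ ih
    push_cast
    rw [add_smul, one_smul, add_assoc]

theorem pow_comm {i j : Fin 3} (hij : i ≠ j) {μ : ℤ × ℤ} {v : Λ} (hv : v ∈ F.W μ)
    (he : F.E i j v = 0) (n : ℕ) : F.E i j ((F.E j i ^ (n + 1)) v) =
      (((n : k) + 1) * ((wt i μ : k) - (wt j μ : k) - n)) • (F.E j i ^ n) v := by
  have hd : ∀ n : ℕ, F.E i i ((F.E j i ^ n) v) - F.E j j ((F.E j i ^ n) v) =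
      ((wt i μ : k) - (wt j μ : k) - 2 * n) • (F.E j i ^ n) v := by
    intro n
    rw [F.diag i _ _ (F.pow_mem hv n), F.diag j _ _ (F.pow_mem hv n),
      (wt_shift hij μ n).1, (wt_shift hij μ n).2]
    push_cast
    module
  induction n with
  | zero =>
    have h := F.comm' i j j i v
    have hd0 := hd 0
    simp only [if_pos, he, map_zero, pow_zero, Module.End.one_apply] at h hd0
    rw [zero_add, pow_one, h, zero_add, hd0]
    simp
  | succ n ih =>
    have h := F.comm' i j j i ((F.E j i ^ (n + 1)) v)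
    simp only [if_pos] at h
    rw [pow_succ' _ (n + 1), Module.End.mul_apply, h, ih, hd (n + 1), map_smul,
      ← Module.End.mul_apply, ← pow_succ']
    push_cast
    module

theorem sl2_nonneg {i j : Fin 3} (hij : i ≠ j) {μ : ℤ × ℤ} {v : Λ} (hv : v ∈ F.W μ)
    (hv0 : v ≠ 0) (he : F.E i j v = 0) : 0 ≤ wt i μ - wt j μ := by
  classical
  have hex : ∃ N : ℕ, (F.E j i ^ N) v = 0 := by
    refine ⟨F.B + μ.1.natAbs + μ.2.natAbs + 1, ?_⟩
    have hm := F.pow_mem (i := i) (j := j) hv (F.B + μ.1.natAbs + μ.2.natAbs + 1)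
    rw [F.bdd] at hm
    · simpa using hm
    · rw [lt_abs, lt_abs]
      push_cast
      have a1 := le_abs_self μ.1
      have a2 := neg_abs_le μ.1
      have a3 := le_abs_self μ.2
      have a4 := neg_abs_le μ.2
      fin_cases i <;> fin_cases j <;> simp [rt, ev] at hij ⊢ <;> omega
  obtain ⟨n, hn⟩ : ∃ n, Nat.find hex = n + 1 := by
    apply Nat.exists_eq_succ_of_ne_zero
    intro h0
    have := Nat.find_spec hex
    rw [h0, pow_zero] at this
    exact hv0 this
  have h1 : (F.E j i ^ (n + 1)) v = 0 := by rw [← hn]; exact Nat.find_spec hex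
  have h2 : (F.E j i ^ n) v ≠ 0 := Nat.find_min hex (by omega)
  have h3 := F.pow_comm hij hv he n
  rw [h1, map_zero, eq_comm, smul_eq_zero] at h3
  have h4 := h3.resolve_right h2
  rw [mul_eq_zero] at h4
  have h5 : (wt i μ : k) - (wt j μ : k) - n = 0 :=
    h4.resolve_left (by exact_mod_cast Nat.succ_ne_zero n)
  have h6 : wt i μ - wt j μ - n = 0 := by exact_mod_cast h5
  omega

/-- Normal form of the Casimir operator. -/
theorem Om_normal {μ : ℤ × ℤ} {v : Λ} (hv : v ∈ F.W μ) :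
    F.Om v = (2 : k) • F.E 1 0 (F.E 0 1 v) + (2 : k) • F.E 2 1 (F.E 1 2 v)
      + (2 : k) • F.E 2 0 (F.E 0 2 v)
      + ((wt 0 μ ^ 2 + wt 1 μ ^ 2 + wt 2 μ ^ 2 + 2 * (wt 0 μ - wt 2 μ) : ℤ) : k) • v := by
  have e1 := F.comm' 0 1 1 0 v
  have e2 := F.comm' 1 2 2 1 v
  have e3 := F.comm' 0 2 2 0 v
  simp only [if_pos, F.diag _ μ v hv] at e1 e2 e3
  rw [Om_apply]
  simp only [Fin.sum_univ_three, e1, e2, e3, F.diag _ μ v hv, map_smul]
  push_cast
  module

theorem Om_inj_pos {a b : ℤ} (hb : 0 < b) (hab : b < a) (n : ℕ) : ∀ (μ : ℤ × ℤ) (v : Λ),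
    v ∈ F.W μ → 0 < a * μ.1 + b * μ.2 → (a + b) * F.B - (a * μ.1 + b * μ.2) < n → F.Om v = 0 →
    v = 0 := by
  induction n with
  | zero =>
    intro μ v hv _ hn _
    rw [F.bdd] at hv
    · simpa using hv
    · by_contra hcon
      rw [not_or, not_lt, not_lt] at hcon
      have h1 := (abs_le.1 hcon.1).2
      have h2 := (abs_le.1 hcon.2).2
      push_cast at hn
      nlinarith
  | succ n ih =>
    intro μ v hv hpos hn hOm
    by_contra hv0
    have key : ∀ i j : Fin 3, 0 < a * (rt i j).1 + b * (rt i j).2 → F.E i j v = 0 := by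
      intro i j hij
      apply ih (μ + rt i j) _ (F.shift i j μ v hv)
      · simp only [Prod.fst_add, Prod.snd_add]; linarith
      · simp only [Prod.fst_add, Prod.snd_add]
        push_cast at hn
        have : (1 : ℤ) ≤ a * (rt i j).1 + b * (rt i j).2 := hij
        linarith
      · have := LinearMap.congr_fun (F.Om_comm i j) v
        simp only [Module.End.mul_apply] at this
        rw [← this, hOm, map_zero]
    have h01 : F.E 0 1 v = 0 := key 0 1 (by simp [rt, ev]; linarith)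
    have h12 : F.E 1 2 v = 0 := key 1 2 (by simp [rt, ev]; linarith)
    have h02 : F.E 0 2 v = 0 := key 0 2 (by simp [rt, ev]; linarith)
    have p1 := F.sl2_nonneg (by decide : (0 : Fin 3) ≠ 1) hv hv0 h01
    have p2 := F.sl2_nonneg (by decide : (1 : Fin 3) ≠ 2) hv hv0 h12
    have h := F.Om_normal hv
    rw [hOm, h01, h12, h02] at h
    simp only [map_zero, smul_zero, zero_add] at h
    have h' := (smul_eq_zero.1 h.symm).resolve_right hv0
    have h'' : wt 0 μ ^ 2 + wt 1 μ ^ 2 + wt 2 μ ^ 2 + 2 * (wt 0 μ - wt 2 μ) = 0 := by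
      exact_mod_cast h'
    have e0 : wt 0 μ = μ.1 := rfl
    have e1 : wt 1 μ = μ.2 := rfl
    have e2 : wt 2 μ = -μ.1 - μ.2 := rfl
    rw [e0, e1, e2] at h''
    rw [e0, e1] at p1
    rw [e1, e2] at p2
    have q1 : μ.1 = 0 := by nlinarith [sq_nonneg μ.1, sq_nonneg μ.2, sq_nonneg (-μ.1 - μ.2)]
    have q2 : μ.2 = 0 := by nlinarith [sq_nonneg μ.1, sq_nonneg μ.2, sq_nonneg (-μ.1 - μ.2)]
    rw [q1, q2] at hpos
    simp at hpos

theorem Om_inj_pos' {a b : ℤ} (hb : 0 < b) (hab : b < a) {μ : ℤ × ℤ} {v : Λ}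
    (hv : v ∈ F.W μ) (hpos : 0 < a * μ.1 + b * μ.2) (hOm : F.Om v = 0) : v = 0 :=
  F.Om_inj_pos hb hab ((a + b) * F.B - (a * μ.1 + b * μ.2) + 1).toNat μ v hv hpos
    (by have := Int.self_le_toNat ((a + b) * F.B - (a * μ.1 + b * μ.2) + 1); linarith) hOm

theorem Om_inj {μ : ℤ × ℤ} {v : Λ} (hv : v ∈ F.W μ) (hμ : μ ≠ 0) (hOm : F.Om v = 0) : v = 0 := by
  have hdual : v ∈ F.dual.W (-μ) := by
    change v ∈ F.W (- -μ)
    rwa [neg_neg]
  have hOm' : F.dual.Om v = 0 := by rw [dual_Om]; exact hOm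
  rcases lt_trichotomy (2 * μ.1 + 1 * μ.2) 0 with h | h | h
  · exact F.dual.Om_inj_pos' (a := 2) (b := 1) (by norm_num) (by norm_num) hdual
      (by simp only [Prod.fst_neg, Prod.snd_neg]; linarith) hOm'
  · rcases lt_trichotomy (3 * μ.1 + 1 * μ.2) 0 with h' | h' | h'
    · exact F.dual.Om_inj_pos' (a := 3) (b := 1) (by norm_num) (by norm_num) hdual
        (by simp only [Prod.fst_neg, Prod.snd_neg]; linarith) hOm'
    · exact absurd (Prod.ext (by simp; linarith) (by simp; linarith)) hμ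
    · exact F.Om_inj_pos' (a := 3) (b := 1) (by norm_num) (by norm_num) hv h' hOm
  · exact F.Om_inj_pos' (a := 2) (b := 1) (by norm_num) (by norm_num) hv h hOm

/-- The invariants. -/
def Inv : Submodule k Λ where
  carrier := {v | v ∈ F.W 0 ∧ ∀ i j, F.E i j v = 0}
  add_mem' := fun ha hb => ⟨Submodule.add_mem _ ha.1 hb.1, fun i j => by
    rw [map_add, ha.2, hb.2, add_zero]⟩
  zero_mem' := ⟨Submodule.zero_mem _, fun i j => map_zero _⟩
  smul_mem' := fun c x hx => ⟨Submodule.smul_mem _ _ hx.1, fun i j => by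
    rw [map_smul, hx.2, smul_zero]⟩

theorem mem_Inv {v : Λ} : v ∈ F.Inv ↔ v ∈ F.W 0 ∧ ∀ i j, F.E i j v = 0 := Iff.rfl

theorem Om_of_Inv {v : Λ} (hv : v ∈ F.Inv) : F.Om v = 0 := by
  rw [Om_apply]
  simp [hv.2]

theorem Om_comm' (i j : Fin 3) (v : Λ) : F.Om (F.E i j v) = F.E i j (F.Om v) := by
  have := LinearMap.congr_fun (F.Om_comm i j) v
  simp only [Module.End.mul_apply] at this
  exact this.symm

theorem rt_ne {i j : Fin 3} (hij : i ≠ j) : rt i j ≠ 0 := by
  fin_cases i <;> fin_cases j <;> simp [rt, ev] at hij ⊢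

theorem diag_zero {v : Λ} (hv : v ∈ F.W 0) (i : Fin 3) : F.E i i v = 0 := by
  rw [F.diag i 0 v hv]
  fin_cases i <;> simp [wt]

theorem Inv_of_Om {v : Λ} (hv : v ∈ F.W 0) (h : F.Om v = 0) : v ∈ F.Inv := by
  refine ⟨hv, fun i j => ?_⟩
  by_cases hij : i = j
  · subst hij; exact F.diag_zero hv i
  · apply F.Om_inj (F.shift i j 0 v hv)
    · rw [zero_add]; exact rt_ne hij
    · rw [Om_comm', h, map_zero]

theorem Inv_of_OmOm {v : Λ} (hv : v ∈ F.W 0) (h : F.Om (F.Om v) = 0) : v ∈ F.Inv := by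
  refine ⟨hv, fun i j => ?_⟩
  by_cases hij : i = j
  · subst hij; exact F.diag_zero hv i
  · have h1 := F.shift i j 0 v hv
    have hne : (0 : ℤ × ℤ) + rt i j ≠ 0 := by rw [zero_add]; exact rt_ne hij
    have hOm : F.Om (F.E i j v) ∈ F.W (0 + rt i j) := by
      rw [F.Om_normal h1]
      refine Submodule.add_mem _ (Submodule.add_mem _ (Submodule.add_mem _ ?_ ?_) ?_)
        (Submodule.smul_mem _ _ h1)
      · exact Submodule.smul_mem _ _ (F.shift' (by simp only [rt]; abel) (F.shift 0 1 _ _ h1))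
      · exact Submodule.smul_mem _ _ (F.shift' (by simp only [rt]; abel) (F.shift 1 2 _ _ h1))
      · exact Submodule.smul_mem _ _ (F.shift' (by simp only [rt]; abel) (F.shift 0 2 _ _ h1))
    apply F.Om_inj h1 hne
    apply F.Om_inj hOm hne
    rw [Om_comm', Om_comm', h, map_zero]

theorem Om_mem {μ : ℤ × ℤ} {v : Λ} (h1 : v ∈ F.W μ) : F.Om v ∈ F.W μ := by
  rw [F.Om_normal h1]
  refine Submodule.add_mem _ (Submodule.add_mem _ (Submodule.add_mem _ ?_ ?_) ?_)
    (Submodule.smul_mem _ _ h1)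
  · exact Submodule.smul_mem _ _ (F.shift' (by simp only [rt]; abel) (F.shift 0 1 _ _ h1))
  · exact Submodule.smul_mem _ _ (F.shift' (by simp only [rt]; abel) (F.shift 1 2 _ _ h1))
  · exact Submodule.smul_mem _ _ (F.shift' (by simp only [rt]; abel) (F.shift 0 2 _ _ h1))

theorem OmOm_zero {v : Λ} (hv : v ∈ F.W 0) (h : F.Om (F.Om v) = 0) : F.Om v = 0 :=
  F.Om_of_Inv (F.Inv_of_OmOm hv h)

/-- The Casimir operator on a weight space. -/
noncomputable def OmW (μ : ℤ × ℤ) : F.W μ →ₗ[k] F.W μ := F.Om.restrict (fun _ hv => F.Om_mem hv)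

theorem OmW_coe (μ : ℤ × ℤ) (v : F.W μ) : (F.OmW μ v : Λ) = F.Om v := rfl

theorem OmW_inj {μ : ℤ × ℤ} (hμ : μ ≠ 0) : Function.Injective (F.OmW μ) := by
  rw [injective_iff_map_eq_zero]
  intro v hv
  apply Subtype.ext
  exact F.Om_inj v.2 hμ (by rw [← OmW_coe, hv]; rfl)

theorem OmW_surj {μ : ℤ × ℤ} (hμ : μ ≠ 0) : Function.Surjective (F.OmW μ) := by
  have := F.fd μ
  exact LinearMap.injective_iff_surjective.1 (F.OmW_inj hμ)

/-- The Reynolds decomposition. -/
theorem reynolds {v : Λ} (hv : v ∈ F.W 0) : ∃ u ∈ F.Inv, ∃ w ∈ F.W 0, v = u + F.Om w := by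
  have := F.fd 0
  have hdis : Disjoint (LinearMap.ker (F.OmW 0)) (LinearMap.range (F.OmW 0)) := by
    rw [Submodule.disjoint_def]
    rintro x hx ⟨y, rfl⟩
    apply Subtype.ext
    have h1 : F.Om (F.Om y) = 0 := by
      have := congrArg Subtype.val (LinearMap.mem_ker.1 hx)
      exact this
    exact F.OmOm_zero y.2 h1
  have htop := Submodule.eq_top_of_disjoint _ _
    (by rw [add_comm, LinearMap.finrank_range_add_finrank_ker (F.OmW 0)]) hdis
  have hmem : (⟨v, hv⟩ : F.W 0) ∈ LinearMap.ker (F.OmW 0) ⊔ LinearMap.range (F.OmW 0) := by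
    rw [htop]; trivial
  obtain ⟨u, hu, _, ⟨w, rfl⟩, huw⟩ := Submodule.mem_sup.1 hmem
  refine ⟨u, F.Inv_of_Om u.2 (congrArg Subtype.val (LinearMap.mem_ker.1 hu)), w, w.2, ?_⟩
  exact (congrArg Subtype.val huw).symm

/-- If an intertwiner image of a weight-zero vector is invariant, it is the image of an invariant
vector. -/
theorem lift_inv {Λ' : Type*} [AddCommGroup Λ'] [Module k Λ'] (G : WtFam k Λ') (d : Λ →ₗ[k] Λ')
    (hd : ∀ i j v, d (F.E i j v) = G.E i j (d v)) (hW : ∀ v ∈ F.W 0, d v ∈ G.W 0)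
    {y : Λ} (hy : y ∈ F.W 0) (hx : d y ∈ G.Inv) : ∃ u ∈ F.Inv, d u = d y := by
  obtain ⟨u, hu, w, hw, rfl⟩ := F.reynolds hy
  have hOm : ∀ v, d (F.Om v) = G.Om (d v) := by
    intro v
    simp only [Om_apply, map_sum, hd]
  have hdu : d u ∈ G.Inv := ⟨hW _ hu.1, fun i j => by rw [← hd, hu.2, map_zero]⟩
  refine ⟨u, hu, ?_⟩
  rw [map_add] at hx ⊢
  have h1 : d (F.Om w) ∈ G.Inv := by
    have := Submodule.sub_mem _ hx hdu
    rwa [add_sub_cancel_left] at this
  rw [hOm] at h1 ⊢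
  have h2 := G.OmOm_zero (hW w hw) (G.Om_of_Inv h1)
  rw [h2, add_zero]

end WtFam

end Pool.Agent.K7.H90.ABG
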