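import Pool.Agent.K7.H90.ABG.BB

/-!
# The Lie algebra `sl₃`, its symmetric product and the matrix identities
-/

namespace Pool.Agent.K7.H90.ABG

set_option linter.unusedSectionVars false
set_option linter.unusedSimpArgs false

variable (k : Type*) [Field k]

/-- `sl₃`: the trace-zero `3 × 3` matrices. -/
@[ext] structure S3 where
  /-- the matrix -/
  val : Matrix (Fin 3) (Fin 3) k
  trZero : Matrix.trace val = 0

namespace S3

variable {k}

instance : Zero (S3 k) := ⟨⟨0, Matrix.trace_zero _ _⟩⟩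

instance : Add (S3 k) := ⟨fun X Y => ⟨X.val + Y.val, by
  rw [Matrix.trace_add, X.trZero, Y.trZero, add_zero]⟩⟩

instance : Neg (S3 k) := ⟨fun X => ⟨-X.val, by rw [Matrix.trace_neg, X.trZero, neg_zero]⟩⟩

instance : Sub (S3 k) := ⟨fun X Y => ⟨X.val - Y.val, by
  rw [Matrix.trace_sub, X.trZero, Y.trZero, sub_zero]⟩⟩

instance {R : Type*} [Monoid R] [DistribMulAction R k] : SMul R (S3 k) :=
  ⟨fun c X => ⟨c • X.val, by rw [Matrix.trace_smul, X.trZero, smul_zero]⟩⟩

theorem val_inj : Function.Injective (S3.val (k := k)) := fun _ _ h => S3.ext h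

instance : AddCommGroup (S3 k) :=
  Function.Injective.addCommGroup S3.val val_inj rfl (fun _ _ => rfl) (fun _ => rfl)
    (fun _ _ => rfl) (fun _ _ => rfl) (fun _ _ => rfl)

instance : Module k (S3 k) :=
  Function.Injective.module k ⟨⟨S3.val, rfl⟩, fun _ _ => rfl⟩ val_inj (fun _ _ => rfl)

/-- The commutator `[X, Y] = XY - YX`. -/
def comm (X Y : S3 k) : S3 k :=
  ⟨X.val * Y.val - Y.val * X.val, by
    rw [Matrix.trace_sub, Matrix.trace_mul_comm, sub_self]⟩

/-- The symmetric product `{X, Y} = ½ (XY + YX) - ⅓ tr(XY) I`. -/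
def anti [CharZero k] (X Y : S3 k) : S3 k :=
  ⟨(1/2 : k) • (X.val * Y.val + Y.val * X.val)
      - (1/3 * Matrix.trace (X.val * Y.val) : k) • (1 : Matrix (Fin 3) (Fin 3) k), by
    rw [Matrix.trace_sub, Matrix.trace_smul, Matrix.trace_smul, Matrix.trace_add,
      Matrix.trace_mul_comm Y.val X.val, Matrix.trace_one]
    simp only [Fintype.card_fin, smul_eq_mul]
    push_cast
    ring⟩

end S3

theorem S3.cadd {k : Type*} [Field k] (X Y : S3 k) : (X + Y).1 = X.1 + Y.1 := rfl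
theorem S3.csub {k : Type*} [Field k] (X Y : S3 k) : (X - Y).1 = X.1 - Y.1 := rfl
theorem S3.csmul {k : Type*} [Field k] (c : k) (X : S3 k) : (c • X).1 = c • X.1 := rfl
theorem S3.cneg {k : Type*} [Field k] (X : S3 k) : (-X).1 = -X.1 := rfl
theorem S3.czero {k : Type*} [Field k] : (0 : S3 k).1 = 0 := rfl

variable {k}

theorem S3.tr (X : S3 k) : Matrix.trace X.1 = 0 := X.2

theorem S3.tr' (X : S3 k) : X.1 2 2 = - X.1 0 0 - X.1 1 1 := by
  have h := S3.tr X
  rw [Matrix.trace_fin_three] at h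
  linear_combination h

/-- The trace form. -/
noncomputable def trS : S3 k →ₗ[k] S3 k →ₗ[k] k :=
  LinearMap.mk₂ k (fun X Y => Matrix.trace (X.1 * Y.1))
    (by intro X X' Y; simp [S3.cadd, add_mul]) (by intro c X Y; simp [S3.csmul])
    (by intro X Y Y'; simp [S3.cadd, mul_add]) (by intro c X Y; simp [S3.csmul])

/-- The Lie bracket as a bilinear map. -/
noncomputable def brS : S3 k →ₗ[k] S3 k →ₗ[k] S3 k :=
  LinearMap.mk₂ k (fun X Y => S3.comm X Y)
    (by intro X X' Y; apply S3.ext; simp only [S3.comm, S3.cadd, add_mul, mul_add]; abel)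
    (by intro c X Y; apply S3.ext
        simp only [S3.comm, S3.csmul, smul_mul_assoc, mul_smul_comm, smul_sub])
    (by intro X Y Y'; apply S3.ext; simp only [S3.comm, S3.cadd, add_mul, mul_add]; abel)
    (by intro c X Y; apply S3.ext
        simp only [S3.comm, S3.csmul, smul_mul_assoc, mul_smul_comm, smul_sub])

/-- The symmetric product `{X,Y} = ½ (XY + YX) - ⅓ tr(XY) I`. -/
noncomputable def syS [CharZero k] : S3 k →ₗ[k] S3 k →ₗ[k] S3 k :=
  LinearMap.mk₂ k (fun X Y => S3.anti X Y)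
    (by intro X X' Y; apply S3.ext
        simp only [S3.anti, S3.cadd, add_mul, mul_add, Matrix.trace_add]; module)
    (by intro c X Y; apply S3.ext
        simp only [S3.anti, S3.csmul, smul_mul_assoc, mul_smul_comm, Matrix.trace_smul,
          smul_eq_mul]; module)
    (by intro X Y Y'; apply S3.ext
        simp only [S3.anti, S3.cadd, add_mul, mul_add, Matrix.trace_add]; module)
    (by intro c X Y; apply S3.ext
        simp only [S3.anti, S3.csmul, smul_mul_assoc, mul_smul_comm, Matrix.trace_smul,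
          smul_eq_mul]; module)

theorem brS_coe (X Y : S3 k) : (brS X Y).1 = X.1 * Y.1 - Y.1 * X.1 := rfl

theorem trS_apply (X Y : S3 k) : trS X Y = Matrix.trace (X.1 * Y.1) := rfl

variable [CharZero k]

theorem syS_coe (X Y : S3 k) : (syS X Y).1 =
    (1/2 : k) • (X.1 * Y.1 + Y.1 * X.1) - (1/3 * Matrix.trace (X.1 * Y.1) : k) • 1 := rfl

theorem brS_swap (X Y : S3 k) : brS X Y = - brS Y X := by
  apply S3.ext
  change X.1 * Y.1 - Y.1 * X.1 = -(Y.1 * X.1 - X.1 * Y.1)
  abel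

theorem syS_swap (X Y : S3 k) : syS X Y = syS Y X := by
  apply S3.ext
  rw [syS_coe, syS_coe, Matrix.trace_mul_comm, add_comm]

theorem trS_swap (X Y : S3 k) : trS X Y = trS Y X := by
  rw [trS_apply, trS_apply, Matrix.trace_mul_comm]

theorem F_coe (X Y Z : S3 k) :
    ((1/4 : k) • brS X (brS Y Z) + (1/2 : k) • syS X (brS Y Z) + (1/2 : k) • brS X (syS Y Z)
      + syS X (syS Y Z) + (1/3 * trS Y Z : k) • X).1 =
    X.1 * (Y.1 * Z.1) - (1/3 * Matrix.trace (X.1 * (Y.1 * Z.1)) : k) • 1 := by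
  have hX := S3.tr X
  simp only [S3.cadd, S3.csmul, brS_coe, syS_coe, trS_apply, mul_sub, sub_mul, mul_add, add_mul,
    mul_smul_comm, smul_mul_assoc, mul_one, one_mul, Matrix.trace_sub, Matrix.trace_add,
    Matrix.trace_smul, hX, smul_eq_mul, mul_zero, sub_zero, mul_assoc, smul_sub, smul_add]
  module

theorem G_coe (X Y Z : S3 k) :
    ((1/4 : k) • brS Z (brS X Y) - (1/2 : k) • syS Z (brS X Y) + (1/2 : k) • brS Z (syS X Y)
        - syS Z (syS X Y) - (1/3 * trS X Y : k) • Z).1 =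
    -(X.1 * (Y.1 * Z.1) - (1/3 * Matrix.trace (X.1 * (Y.1 * Z.1)) : k) • 1) := by
  have hZ := S3.tr Z
  have h1 : Matrix.trace (X.1 * (Y.1 * Z.1)) = Matrix.trace (Z.1 * (X.1 * Y.1)) := by
    rw [← mul_assoc, Matrix.trace_mul_comm]
  simp only [S3.cadd, S3.csub, S3.csmul, brS_coe, syS_coe, trS_apply, mul_sub, sub_mul, mul_add,
    add_mul, mul_smul_comm, smul_mul_assoc, mul_one, one_mul, Matrix.trace_sub, Matrix.trace_add,
    Matrix.trace_smul, hZ, smul_eq_mul, mul_zero, sub_zero, mul_assoc, smul_sub, smul_add, h1]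
  module

/-- The identity `T₁`. -/
theorem T1 (X Y Z : S3 k) :
    (1/4 : k) • brS X (brS Y Z) + (1/2 : k) • syS X (brS Y Z) + (1/2 : k) • brS X (syS Y Z)
      + syS X (syS Y Z) + (1/3 * trS Y Z : k) • X
      + ((1/4 : k) • brS Z (brS X Y) - (1/2 : k) • syS Z (brS X Y) + (1/2 : k) • brS Z (syS X Y)
        - syS Z (syS X Y) - (1/3 * trS X Y : k) • Z) = 0 := by
  apply S3.ext
  rw [S3.cadd, F_coe, G_coe, S3.czero]
  abel

set_option maxHeartbeats 4000000 in
/-- Polarised Cayley–Hamilton. -/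
theorem cayley (X Y Z : S3 k) :
    X.1 * (Y.1 * Z.1) + X.1 * (Z.1 * Y.1) + Y.1 * (X.1 * Z.1) + Y.1 * (Z.1 * X.1)
      + Z.1 * (X.1 * Y.1) + Z.1 * (Y.1 * X.1) - Matrix.trace (X.1 * Y.1) • Z.1
      - Matrix.trace (Y.1 * Z.1) • X.1 - Matrix.trace (Z.1 * X.1) • Y.1
      - (Matrix.trace (X.1 * (Y.1 * Z.1)) + Matrix.trace (X.1 * (Z.1 * Y.1))) •
          (1 : Matrix (Fin 3) (Fin 3) k) = 0 := by
  ext i j
  have hX := S3.tr' X
  have hY := S3.tr' Y
  have hZ := S3.tr' Z
  fin_cases i <;> fin_cases j <;>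
  simp [Matrix.mul_apply, Matrix.trace, Fin.sum_univ_three, hX, hY, hZ] <;> ring

/-- The identity `T_a`. -/
theorem Ta (X Y Z : S3 k) :
    - brS X (syS Y Z) - (2 : k) • syS X (syS Y Z) + (1/3 * trS Y Z : k) • X
    + (- brS Y (syS Z X) - (2 : k) • syS Y (syS Z X) + (1/3 * trS Z X : k) • Y)
    + (- brS Z (syS X Y) - (2 : k) • syS Z (syS X Y) + (1/3 * trS X Y : k) • Z) = 0 := by
  apply S3.ext
  have hX := S3.tr X
  have hY := S3.tr Y
  have hZ := S3.tr Z
  have h1 : Matrix.trace (Y.1 * (Z.1 * X.1)) = Matrix.trace (X.1 * (Y.1 * Z.1)) := by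
    rw [← mul_assoc, Matrix.trace_mul_comm]
  have h2 : Matrix.trace (Z.1 * (X.1 * Y.1)) = Matrix.trace (X.1 * (Y.1 * Z.1)) := by
    rw [Matrix.trace_mul_comm, mul_assoc]
  have h3 : Matrix.trace (Y.1 * (X.1 * Z.1)) = Matrix.trace (X.1 * (Z.1 * Y.1)) := by
    rw [Matrix.trace_mul_comm, mul_assoc]
  have h4 : Matrix.trace (Z.1 * (Y.1 * X.1)) = Matrix.trace (X.1 * (Z.1 * Y.1)) := by
    rw [← mul_assoc, Matrix.trace_mul_comm]
  have hc := cayley X Y Z
  simp only [S3.cadd, S3.csub, S3.cneg, S3.csmul, S3.czero, brS_coe, syS_coe, trS_apply, mul_sub,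
    sub_mul, mul_add, add_mul, mul_smul_comm, smul_mul_assoc, mul_one, one_mul, Matrix.trace_sub,
    Matrix.trace_add, Matrix.trace_smul, hX, hY, hZ, smul_eq_mul, mul_zero, sub_zero, mul_assoc,
    smul_sub, smul_add, h1, h2, h3, h4]
  linear_combination (norm := module) (-1 : k) • hc

end Pool.Agent.K7.H90.ABG
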